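import Pool.Agent.Run7.h121.Cover

/-!
# The levels of small cofinality above and below a strongly uniform level
-/

namespace Run7.h121

noncomputable section

open Cardinal Ordinal Set Filter

/-- the index of the power of `ℵ_n` -/
theorem exists_pow (hSL : SL) (n : ℕ) : ∃ g : ℕ, (2 : Cardinal.{0}) ^ al n = al g ∧ n < g := by
  obtain ⟨g, hg⟩ := exists_al_eq ((aleph0_le_al n).trans (cantor _).le) (hSL n)
  refine ⟨g, hg, ?_⟩
  rw [← al_lt, ← hg]
  exact cantor _

/-- some level above, at most the power, lies in the generator -/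
theorem Lev.exists_above {α : Type} {U : Ultrafilter α} {B : Set (Set α)} {A : Set ℕ}
    {s : α → ℕ} {q : α → Ordinal.{0}} (hSL : SL) (hd : Lev U B s q) (hA : Gen A) :
    ∀ᶠ x in (U : Filter α), ∃ m, s x < m ∧ al m ≤ 2 ^ al (s x) ∧ m ∈ A := by
  classical
  by_contra hcon
  choose g hg1 hg2 using exists_pow hSL
  have hsA : ∀ᶠ x in (U : Filter α), ∀ i, s x < i → i ≤ g (s x) → i ∉ A := by
    have h1 := Ultrafilter.eventually_not.2 hcon
    filter_upwards [h1] with x hx i hi hig hiA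
    exact hx ⟨i, hi, by rw [hg1]; exact al_le.2 hig, hiA⟩
  have henc : ∀ n, ∃ enc : Set (om n).ToType → Ordinal.{0}, Function.Injective enc ∧
      ∀ c, enc c < om (g n) := by
    intro n
    apply exists_inj
    rw [mk_set, mk_toType, card_om, card_om, hg1]
  choose enc henc1 henc2 using henc
  let tr : B → (n : ℕ) → Set (om n).ToType := fun b n =>
    {i | ∃ x ∈ b.1, s x = n ∧ q x = (ToType.mk.symm i).1}
  obtain ⟨H, hH1, hH2⟩ := covering hA hd.card (fun b n => enc n (tr b n)) g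
    (fun b n => henc2 n _)
  let FF : (n : ℕ) → Type := fun n =>
    {c : Set (om n).ToType // enc n c ∈ H n ∧ al n ≤ #c}
  have hFF : ∀ n, 1 ≤ n → #(FF n) ≤ al n := by
    intro n hn
    obtain ⟨ι, v, hι, hv⟩ := hH1 n hn
    choose w hw using fun c : FF n => hv c.2.1
    refine (mk_le_of_injective (f := w) ?_).trans hι
    intro c c' hcc
    apply Subtype.ext
    apply henc1 n
    rw [← hw c, ← hw c', hcc]
  have hX : ∀ n, ∃ X : Set (om n).ToType, 1 ≤ n →
      ∀ c : FF n, (∃ t ∈ c.1, t ∈ X) ∧ ∃ t ∈ c.1, t ∉ X := by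
    intro n
    by_cases hn : 1 ≤ n
    · obtain ⟨X, hX⟩ := exists_split (aleph0_le_al n) (hFF n hn) (fun c : FF n => c.1)
        (fun c => c.2.2)
      exact ⟨X, fun _ => hX⟩
    · exact ⟨∅, fun h' => absurd h' hn⟩
  choose X hX using hX
  have hmain : ∀ b : B, ∃ n, (∃ t ∈ tr b n, t ∈ X n) ∧ ∃ t ∈ tr b n, t ∉ X n := by
    intro b
    let f : ℕ → Ordinal.{0} := fun n =>
      if #(tr b n) < al n then ⨆ i : tr b n, ((ToType.mk.symm i.1).1 + 1) else 0
    have hf : InProd f := by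
      intro n
      by_cases hn : #(tr b n) < al n
      · simp only [f, if_pos hn]
        exact iSup_add_one_lt_om hn fun i => (ToType.mk.symm i.1).2
      · simp only [f, if_neg hn]; exact om_pos n
    have hbU : ∀ᶠ x in (U : Filter α), x ∈ b.1 := hd.hB _ b.2
    obtain ⟨x, h1, h2, h3, h4, h5⟩ := ((hd.strong f hf).and (hsA.and (hbU.and
      ((hd.ns 1).and (hd.ns.eventually (hH2 b)))))).exists
    have hmem : ToType.mk ⟨q x, hd.lt x⟩ ∈ tr b (s x) := by
      refine ⟨x, h3, rfl, ?_⟩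
      rw [OrderIso.symm_apply_apply]
    have h6 : al (s x) ≤ #(tr b (s x)) := by
      by_contra hlt
      have hlt' := not_le.1 hlt
      simp only [f, if_pos hlt'] at h1
      have h7 := Ordinal.le_iSup (fun i : tr b (s x) => (ToType.mk.symm i.1).1 + 1)
        ⟨_, hmem⟩
      simp only [OrderIso.symm_apply_apply] at h7
      exact absurd (h7.trans h1) (not_le.2 (Order.lt_add_one_iff.2 le_rfl))
    exact ⟨s x, hX (s x) h4 ⟨tr b (s x), h5 h2 (hg2 _).le, h6⟩⟩
  rcases U.mem_or_compl_mem {x | ToType.mk ⟨q x, hd.lt x⟩ ∈ X (s x)} with hU | hU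
  · obtain ⟨b, hb, hbX⟩ := hd.base _ hU
    obtain ⟨n, -, t, ⟨y, hy, rfl, hyt⟩, ht'⟩ := hmain ⟨b, hb⟩
    refine ht' ?_
    have h1 := hbX hy
    have h2 : ToType.mk ⟨q y, hd.lt y⟩ = t := by
      rw [← OrderIso.eq_symm_apply]
      exact Subtype.ext hyt
    rw [← h2]
    exact h1
  · obtain ⟨b, hb, hbX⟩ := hd.base _ hU
    obtain ⟨n, ⟨t, ⟨y, hy, rfl, hyt⟩, ht'⟩, -⟩ := hmain ⟨b, hb⟩
    have h1 := hbX hy
    have h2 : ToType.mk ⟨q y, hd.lt y⟩ = t := by
      rw [← OrderIso.eq_symm_apply]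
      exact Subtype.ext hyt
    rw [← h2] at ht'
    exact h1 ht'

/-- in the fully decomposable case the generator has no large gaps -/
theorem Dat.above_closed {α : Type} {U : Ultrafilter α} {B : Set (Set α)}
    {p : ℕ → α → Ordinal.{0}} {r0 : α → ℕ} {A : Set ℕ} (hSL : SL) (hd : Dat U B p r0)
    (hA : Gen A) :
    ∀ᶠ n in atTop, n ∈ A → ∃ m, n < m ∧ al m ≤ 2 ^ al n ∧ m ∈ A := by
  obtain ⟨r, hr, hstrong⟩ := hd.exists_strong hA
  by_contra hcon
  let E : Set ℕ := {n | n ∈ A ∧ ¬ ∃ m, n < m ∧ al m ≤ 2 ^ al n ∧ m ∈ A}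
  have hE : ∀ m, ∃ n ≥ m, n ∈ E := by
    intro m
    by_contra hno
    push Not at hno
    refine hcon ?_
    filter_upwards [eventually_ge_atTop m] with n hn h1
    by_contra h3
    exact hno n hn ⟨h1, h3⟩
  have hL := hd.exists_lev hstrong hr (E := E) (fun n hn => hn.1) hE
  have hmem := hr.fl_mem hE
  obtain ⟨x, h2, h3⟩ := ((hL.exists_above hSL hA).and hmem).exists
  exact h3.2 h2

/-! ### The level below, in the complete case -/

section

variable {α : Type} {U : Ultrafilter α} {B : Set (Set α)} {J : Type} {π : α → J} {k : J → ℕ}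
  {p : α → Ordinal.{0}}

/-- the least `c` with `ℵ_n ≤ 2 ^ ℵ_c` -/
def lg (n : ℕ) : ℕ := sInf {c | al n ≤ (2 : Cardinal.{0}) ^ al c}

theorem lg_spec (n : ℕ) : al n ≤ (2 : Cardinal.{0}) ^ al (lg n) :=
  Nat.sInf_mem (s := {c | al n ≤ (2 : Cardinal.{0}) ^ al c}) ⟨n, (cantor _).le⟩

theorem lt_of_lt_lg {n c : ℕ} (h : c < lg n) : (2 : Cardinal.{0}) ^ al c < al n := by
  by_contra hcon
  exact absurd (Nat.sInf_le (show c ∈ {c | al n ≤ (2 : Cardinal.{0}) ^ al c} from not_lt.1 hcon))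
    (not_le.2 h)

theorem lg_lt {n : ℕ} (h : 1 ≤ n) : lg n < n := by
  have h1 : lg n ≤ n - 1 := by
    apply Nat.sInf_le
    show al n ≤ 2 ^ al (n - 1)
    have h2 : n = n - 1 + 1 := by omega
    have h3 : al n = Order.succ (al (n - 1)) := by
      conv_lhs => rw [h2, al_succ]
    rw [h3]
    exact Order.succ_le_of_lt (cantor _)
  omega

theorem lg_tendsto (hSL : SL) (m : ℕ) : ∀ᶠ n in atTop, m ≤ lg n := by
  obtain ⟨g, hg1, hg2⟩ := exists_pow hSL m
  filter_upwards [eventually_gt_atTop g] with n hn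
  by_contra hlt
  have h1 : al n ≤ 2 ^ al m := (lg_spec n).trans
    (power_le_power_left two_ne_zero (al_le.2 (not_le.1 hlt).le))
  rw [hg1, al_le] at h1
  omega

/-- In the complete case the level `lg k` has small cofinality. -/
theorem exists_below (hSL : SL) (hB : ∀ b ∈ B, b ∈ U) (hbase : ∀ A ∈ U, ∃ b ∈ B, b ⊆ A)
    (hJ : #J < ℵ_ ω) (hk : NS U (fun x => k (π x))) (hp : ∀ x, p x < om (k (π x)))
    (hstrong : ∀ f : J → Ordinal.{0}, (∀ j, f j < om (k j)) →
      ∀ᶠ x in (U : Filter α), f (π x) ≤ p x)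
    (hcomp : ∀ γ : J → Ordinal.{0}, (∀ j, γ j < om (k j)) → ∀ G : α → Ordinal.{0},
      (∀ᶠ x in (U : Filter α), G x < γ (π x)) →
      ∃ g : J → Ordinal.{0}, ∀ᶠ x in (U : Filter α), G x = g (π x)) :
    ∃ F : B → ℕ → Ordinal.{0}, (∀ b n, F b n < om (lg n)) ∧
      ∀ f : ℕ → Ordinal.{0}, (∀ n, f n < om (lg n)) →
        ∃ b, ∀ᶠ x in (U : Filter α), f (k (π x)) ≤ F b (k (π x)) := by
  classical
  -- an injection of `ω_n` into the power set of `ω_(lg n)`
  have he : ∀ n, ∃ e : Ordinal.{0} → Set (om (lg n)).ToType, ∀ ξ < om n, ∀ η < om n,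
      e ξ = e η → ξ = η := by
    intro n
    have h1 : #(om n).ToType ≤ #(Set (om (lg n)).ToType) := by
      rw [mk_set, mk_toType, mk_toType, card_om, card_om]
      exact lg_spec n
    obtain ⟨j⟩ := h1
    refine ⟨fun ξ => if h : ξ < om n then j (ToType.mk ⟨ξ, h⟩) else ∅, fun ξ hξ η hη h => ?_⟩
    simp only [dif_pos hξ, dif_pos hη] at h
    have := j.injective h
    simpa using this
  choose e he using he
  -- membership of ordinals
  let R : ℕ → Ordinal.{0} → Ordinal.{0} → Prop := fun n ξ i =>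
    ∃ h : i < om (lg n), ToType.mk ⟨i, h⟩ ∈ e n ξ
  have hR : ∀ n, ∀ ξ < om n, ∀ η < om n, ξ ≠ η → ∃ i < om (lg n), ¬ (R n ξ i ↔ R n η i) := by
    intro n ξ hξ η hη hne
    by_contra hcon
    push Not at hcon
    refine hne (he n ξ hξ η hη ?_)
    ext t
    obtain ⟨i, hi, rfl⟩ : ∃ (i : Ordinal.{0}) (h : i < om (lg n)), ToType.mk ⟨i, h⟩ = t :=
      ⟨(ToType.mk.symm t).1, (ToType.mk.symm t).2, by simp⟩
    have := hcon i hi
    constructor
    · intro h
      obtain ⟨_, h'⟩ := this.1 ⟨hi, h⟩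
      exact h'
    · intro h
      obtain ⟨_, h'⟩ := this.2 ⟨hi, h⟩
      exact h'
  -- a point where the functions split over `j`
  have hδ : ∀ (b : B) (j : J), ∃ δ : Ordinal.{0}, δ < om (lg (k j)) ∧
      ((∃ x ∈ b.1, ∃ y ∈ b.1, π x = j ∧ π y = j ∧ p x ≠ p y) →
        ∃ x ∈ b.1, ∃ y ∈ b.1, π x = j ∧ π y = j ∧ ¬ (R (k j) (p x) δ ↔ R (k j) (p y) δ)) := by
    intro b j
    by_cases h : ∃ x ∈ b.1, ∃ y ∈ b.1, π x = j ∧ π y = j ∧ p x ≠ p y
    · obtain ⟨x, hx, y, hy, hxj, hyj, hne⟩ := h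
      have h1 := hp x
      have h2 := hp y
      rw [hxj] at h1
      rw [hyj] at h2
      obtain ⟨δ, hδ1, hδ2⟩ := hR (k j) _ h1 _ h2 hne
      exact ⟨δ, hδ1, fun _ => ⟨x, hx, y, hy, hxj, hyj, hδ2⟩⟩
    · exact ⟨0, om_pos _, fun h' => absurd h' h⟩
  choose δ hδ1 hδ2 using hδ
  obtain ⟨n1, hn1⟩ := exists_al_of_lt hJ
  let F : B → ℕ → Ordinal.{0} := fun b n =>
    if n1 ≤ lg n then ⨆ j : {j // k j = n}, δ b j.1 else 0
  have hF : ∀ b n, F b n < om (lg n) := by
    intro b n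
    by_cases hn : n1 ≤ lg n
    · simp only [F, if_pos hn]
      refine iSup_lt_om ((mk_subtype_le _).trans_lt (hn1.trans_le (al_le.2 hn))) fun j => ?_
      have := hδ1 b j.1
      rwa [j.2] at this
    · simp only [F, if_neg hn]; exact om_pos _
  refine ⟨F, hF, fun f hf => ?_⟩
  -- codes of initial segments
  have hcode : ∀ n, ∃ (γ : Ordinal.{0}) (c : Set (f n).ToType → Ordinal.{0}),
      Function.Injective c ∧ (∀ t, c t < γ) ∧ (1 ≤ lg n → γ < om n) := by
    intro n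
    have h1 : #(Set (f n).ToType) ≤ ((2 : Cardinal.{0}) ^ (f n).card).ord.card := by
      rw [mk_set, mk_toType, card_ord]
    obtain ⟨c, hc1, hc2⟩ := exists_inj h1
    refine ⟨_, c, hc1, hc2, fun hn => ?_⟩
    rw [lt_om_iff, card_ord]
    have h2 : (f n).card < al (lg n) := lt_om_iff.1 (hf n)
    have h3 : al (lg n) = Order.succ (al (lg n - 1)) := by
      have : lg n = lg n - 1 + 1 := by omega
      conv_lhs => rw [this, al_succ]
    rw [h3, Order.lt_succ_iff] at h2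
    exact (power_le_power_left two_ne_zero h2).trans_lt (lt_of_lt_lg (by omega))
  choose γ c hc1 hc2 hc3 using hcode
  let Gc : ℕ → Ordinal.{0} → Ordinal.{0} := fun n ξ => c n {t | R n ξ (ToType.mk.symm t).1}
  have hlg1 : ∀ᶠ x in (U : Filter α), 1 ≤ lg (k (π x)) := hk.eventually (lg_tendsto hSL 1)
  obtain ⟨g, hg⟩ := hcomp (fun j => if 1 ≤ lg (k j) then γ (k j) else 0) (fun j => by
      by_cases h : 1 ≤ lg (k j)
      · simp only [if_pos h]; exact hc3 _ h
      · simp only [if_neg h]; exact om_pos _) (fun x => Gc (k (π x)) (p x)) (by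
      filter_upwards [hlg1] with x hx
      simp only [if_pos hx]
      exact hc2 _ _)
  obtain ⟨b, hb, hbg⟩ := hbase _ hg
  refine ⟨⟨b, hb⟩, ?_⟩
  -- over almost all `j` there are two points
  have htwo : ∀ᶠ x in (U : Filter α), ∃ y ∈ b, ∃ z ∈ b, π y = π x ∧ π z = π x ∧ p y ≠ p z := by
    by_contra hcon
    have hcon' : ∀ᶠ x in (U : Filter α), ∀ y ∈ b, ∀ z ∈ b, π y = π x → π z = π x → p y = p z := by
      have h1 := Ultrafilter.eventually_not.2 hcon
      filter_upwards [h1] with x hx y hy z hz hyx hzx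
      by_contra hne
      exact hx ⟨y, hy, z, hz, hyx, hzx, hne⟩
    let w : J → Ordinal.{0} := fun j =>
      if h : ∃ y ∈ b, π y = j then p h.choose + 1 else 0
    have hw : ∀ j, w j < om (k j) := by
      intro j
      by_cases h : ∃ y ∈ b, π y = j
      · simp only [w, dif_pos h]
        have := add_one_lt_om (hp h.choose)
        rwa [h.choose_spec.2] at this
      · simp only [w, dif_neg h]; exact om_pos _
    obtain ⟨x, h1, h2, h3⟩ := ((hstrong w hw).and (hcon'.and (hB b hb))).exists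
    have h4 : ∃ y ∈ b, π y = π x := ⟨x, h3, rfl⟩
    simp only [w, dif_pos h4] at h1
    have h5 := h2 h4.choose h4.choose_spec.1 x h3 h4.choose_spec.2 rfl
    rw [h5] at h1
    exact absurd h1 (not_le.2 (Order.lt_add_one_iff.2 le_rfl))
  filter_upwards [htwo, hk.eventually (lg_tendsto hSL n1)] with x hx hx2
  simp only [F, if_pos hx2]
  obtain ⟨y, hy, z, hz, hyx, hzx, hne⟩ := hδ2 ⟨b, hb⟩ (π x) (by
    obtain ⟨y, hy, z, hz, h1, h2, h3⟩ := hx
    exact ⟨y, hy, z, hz, h1, h2, h3⟩)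
  refine le_trans ?_ (Ordinal.le_iSup (fun j : {j // k j = k (π x)} => δ ⟨b, hb⟩ j.1) ⟨π x, rfl⟩)
  by_contra hlt
  have hlt' := not_le.1 hlt
  refine hne ?_
  have h1 : Gc (k (π y)) (p y) = g (π y) := hbg hy
  have h2 : Gc (k (π z)) (p z) = g (π z) := hbg hz
  rw [hyx] at h1
  rw [hzx] at h2
  have h3 := hc1 _ (h1.trans h2.symm)
  have h4 : ToType.mk ⟨δ ⟨b, hb⟩ (π x), hlt'⟩ ∈
      {t : (f (k (π x))).ToType | R (k (π x)) (p y) (ToType.mk.symm t).1} ↔
      ToType.mk ⟨δ ⟨b, hb⟩ (π x), hlt'⟩ ∈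
      {t : (f (k (π x))).ToType | R (k (π x)) (p z) (ToType.mk.symm t).1} := by
    rw [h3]
  simpa only [mem_ofPred_eq, OrderIso.symm_apply_apply] using h4

end

end

end Run7.h121
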