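import Mathlib

/-!
# Basic facts about the cardinals below aleph_omega
-/

namespace Run7.h121

noncomputable section

open Cardinal Ordinal Set Filter

/-- `om n` is the initial ordinal `ω_n`. -/
abbrev om (n : ℕ) : Ordinal.{0} := ω_ (n : Ordinal.{0})

/-- `al n` is the cardinal `ℵ_n`. -/
abbrev al (n : ℕ) : Cardinal.{0} := ℵ_ (n : Ordinal.{0})

theorem al_zero : al 0 = ℵ₀ := by simp [al]

theorem al_succ (n : ℕ) : al (n + 1) = Order.succ (al n) := by
  simp only [al]
  push_cast
  rw [← succ_aleph]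

theorem al_regular (n : ℕ) : (al n).IsRegular := by
  cases n with
  | zero => rw [al_zero]; exact isRegular_aleph0
  | succ n =>
    have := isRegular_aleph_add_one (n : Ordinal.{0})
    simpa [al] using this

theorem ord_al (n : ℕ) : (al n).ord = om n := ord_aleph _

theorem card_om (n : ℕ) : (om n).card = al n := card_omega _

theorem cof_om (n : ℕ) : (om n).cof = al n := by
  rw [← ord_al]; exact (al_regular n).cof_ord

theorem al_lt {m n : ℕ} : al m < al n ↔ m < n := by simp [al]

theorem al_le {m n : ℕ} : al m ≤ al n ↔ m ≤ n := by simp [al]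

theorem om_lt {m n : ℕ} : om m < om n ↔ m < n := by simp [om]

theorem om_le {m n : ℕ} : om m ≤ om n ↔ m ≤ n := by simp [om]

theorem om_pos (n : ℕ) : 0 < om n := omega_pos _

theorem aleph0_le_al (n : ℕ) : ℵ₀ ≤ al n := aleph0_le_aleph _

theorem al_lt_omega (n : ℕ) : al n < ℵ_ ω := by
  simp only [al, aleph_lt_aleph]
  exact natCast_lt_omega0 n

theorem aleph0_le_omega : ℵ₀ ≤ ℵ_ ω := aleph0_le_aleph _

theorem exists_al_of_lt {c : Cardinal.{0}} (h : c < ℵ_ ω) : ∃ n : ℕ, c < al n := by
  rw [aleph_limit isSuccLimit_omega0] at h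
  obtain ⟨⟨i, hi⟩, h'⟩ := exists_lt_of_lt_ciSup' h
  obtain ⟨n, rfl⟩ := lt_omega0.1 hi
  exact ⟨n, h'⟩

theorem succ_isSuccLimit_om (n : ℕ) : Order.IsSuccLimit (om n) := isSuccLimit_omega _

theorem add_one_lt_om {n : ℕ} {x : Ordinal.{0}} (h : x < om n) : x + 1 < om n := by
  have := (succ_isSuccLimit_om n).succ_lt h
  simpa using this

theorem iSup_lt_om {ι : Type} {n : ℕ} (h : #ι < al n) {f : ι → Ordinal.{0}}
    (hf : ∀ i, f i < om n) : ⨆ i, f i < om n :=
  iSup_lt_of_lt_cof (by rwa [cof_om]) hf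

theorem iSup_add_one_lt_om {ι : Type} {n : ℕ} (h : #ι < al n) {f : ι → Ordinal.{0}}
    (hf : ∀ i, f i < om n) : ⨆ i, (f i + 1) < om n :=
  iSup_lt_om h fun i => add_one_lt_om (hf i)

theorem lt_om_iff {n : ℕ} {x : Ordinal.{0}} : x < om n ↔ x.card < al n := lt_omega_iff_card_lt

/-- the cardinal successor of aleph_omega -/
abbrev kp : Cardinal.{0} := ℵ_ (ω + 1)

theorem kp_succ : kp = Order.succ (ℵ_ ω) := (succ_aleph _).symm

theorem kp_regular : kp.IsRegular := isRegular_aleph_add_one _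

theorem lt_kp {c : Cardinal.{0}} : c < kp ↔ c ≤ ℵ_ ω := by
  rw [kp_succ, Order.lt_succ_iff]

/-! ### Types and ordinals -/

theorem mk_le_of_inj {ι : Type} {o : Ordinal.{0}} (e : ι → Ordinal.{0})
    (he : Function.Injective e) (hlt : ∀ i, e i < o) : #ι ≤ o.card := by
  have h : Function.Injective (fun i => (⟨e i, hlt i⟩ : Iio o)) := by
    intro i j hij
    exact he (by simpa using hij)
  have h1 := lift_mk_le_lift_mk_of_injective h
  rw [Cardinal.mk_Iio_ordinal, Cardinal.lift_lift] at h1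
  exact Cardinal.lift_le.1 h1

theorem exists_inj {ι : Type} {o : Ordinal.{0}} (h : #ι ≤ o.card) :
    ∃ e : ι → Ordinal.{0}, Function.Injective e ∧ ∀ i, e i < o := by
  rw [← mk_toType] at h
  obtain ⟨f⟩ := h
  refine ⟨fun i => typein (α := o.ToType) (· < ·) (f i), ?_, fun i => ?_⟩
  · intro i j hij
    exact f.injective (typein_injective _ hij)
  · exact typein_lt_self _

theorem mk_lt_om {n : ℕ} {ι : Type} (e : ι → Ordinal.{0})
    (he : Function.Injective e) (hlt : ∀ i, e i < om n) : #ι ≤ al n := by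
  have := mk_le_of_inj e he hlt
  rwa [card_om] at this

theorem exists_om_of_lt {x : Ordinal.{0}} (h : x < ω_ ω) : ∃ n : ℕ, x < om n := by
  rw [lt_omega_iff_card_lt] at h
  obtain ⟨n, hn⟩ := exists_al_of_lt h
  exact ⟨n, lt_om_iff.2 hn⟩

/-- a type of size at most aleph_omega is filtered by small pieces -/
theorem exists_rank {ι : Type} (h : #ι ≤ ℵ_ ω) :
    ∃ ρ : ι → ℕ, ∀ n, #{i // ρ i < n} < al n := by
  rw [← card_omega] at h
  obtain ⟨e, he, hlt⟩ := exists_inj h
  choose r hr using fun i => exists_om_of_lt (hlt i)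
  refine ⟨fun i => r i + 1, fun n => ?_⟩
  cases n with
  | zero =>
    have : IsEmpty {i // r i + 1 < 0} := ⟨fun x => by simpa using x.2⟩
    rw [mk_eq_zero]
    exact (al_regular 0).pos
  | succ n =>
    refine lt_of_le_of_lt (mk_lt_om (n := n) (fun i => e i.1) ?_ ?_) (al_lt.2 (Nat.lt_succ_self n))
    · intro i j hij
      exact Subtype.ext (he hij)
    · intro i
      refine (hr i.1).trans_le (om_le.2 ?_)
      have := i.2
      simp only at this
      omega

end

end Run7.h121
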