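import Pool.Agent.Run7.h121.Level

/-!
# Consecutive levels of small cofinality
-/

namespace Run7.h121

noncomputable section

open Cardinal Ordinal Set Filter

variable {α : Type} {U : Ultrafilter α} {B : Set (Set α)} {A : Set ℕ}
  {s : α → ℕ} {q : α → Ordinal.{0}}

/-- `q` is strongly uniform at the levels `s`, and `B` is a base of size at most
aleph_{omega+1} -/
structure Lev (U : Ultrafilter α) (B : Set (Set α)) (s : α → ℕ) (q : α → Ordinal.{0}) :
    Prop where
  hB : ∀ b ∈ B, b ∈ U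
  base : ∀ A ∈ U, ∃ b ∈ B, b ⊆ A
  card : #B ≤ kp
  ns : NS U s
  lt : ∀ x, q x < om (s x)
  strong : ∀ f, InProd f → ∀ᶠ x in (U : Filter α), f (s x) ≤ q x

/-- the product of the `ω_n` has small cofinality modulo the image of `U` under `s` -/
theorem Lev.cof_level (h : Lev U B s q) :
    ∃ F : B → ℕ → Ordinal.{0}, (∀ b, InProd (F b)) ∧
      ∀ f, InProd f → ∃ b, ∀ᶠ x in (U : Filter α), f (s x) ≤ F b (s x) := by
  classical
  let g : B → ℕ → Ordinal.{0} := fun b n =>
    if h : ∃ x, x ∈ b.1 ∧ s x = n then q h.choose else 0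
  refine ⟨g, fun b n => ?_, fun f hf => ?_⟩
  · by_cases h' : ∃ x, x ∈ b.1 ∧ s x = n
    · simp only [g, dif_pos h']
      have := h.lt h'.choose
      rwa [h'.choose_spec.2] at this
    · simp only [g, dif_neg h']; exact om_pos n
  · obtain ⟨b, hb, hbs⟩ := h.base _ (h.strong f hf)
    refine ⟨⟨b, hb⟩, ?_⟩
    filter_upwards [h.hB b hb] with x hx
    have h2 : ∃ y, y ∈ b ∧ s y = s x := ⟨x, hx, rfl⟩
    simp only [g, dif_pos h2]
    have h3 : f (s h2.choose) ≤ q h2.choose := hbs h2.choose_spec.1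
    rwa [h2.choose_spec.2] at h3

/-- The level above a strongly uniform level has small cofinality, if GCH holds there. -/
theorem Lev.succ_mem (hd : Lev U B s q) (hA : Gen A)
    (hgch : ∀ᶠ x in (U : Filter α), (2 : Cardinal.{0}) ^ al (s x) = al (s x + 1)) :
    ∀ᶠ x in (U : Filter α), s x + 1 ∈ A := by
  classical
  by_contra hcon
  have hsA : ∀ᶠ x in (U : Filter α), s x + 1 ∉ A := Ultrafilter.eventually_not.2 hcon
  choose enc henc1 henc2 using exists_enc
  let tr : B → (n : ℕ) → Set (om n).ToType := fun b n =>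
    {i | ∃ x ∈ b.1, s x = n ∧ q x = (ToType.mk.symm i).1}
  let g : B → ℕ → Ordinal.{0} := fun b n => match n with
    | 0 => 0
    | n + 1 => enc n (tr b n)
  have hg : ∀ b, InProd (g b) := by
    intro b n
    match n with
    | 0 => exact om_pos 0
    | n + 1 => exact henc1 n _
  obtain ⟨h, hh, hgh⟩ := hA.dir' hd.card g hg
  let FF : (n : ℕ) → Type := fun n =>
    {c : Set (om n).ToType // enc n c ≤ h (n + 1) ∧ al n ≤ #c}
  have hFF : ∀ n, (2 : Cardinal.{0}) ^ al n = al (n + 1) → #(FF n) ≤ al n := by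
    intro n hn
    have h1 := mk_le_of_inj (o := h (n + 1) + 1) (fun c : FF n => enc n c.1)
      (fun c c' hcc => Subtype.ext (henc2 n hn hcc)) (fun c => Order.lt_add_one_iff.2 c.2.1)
    have h2 := lt_om_iff.1 (add_one_lt_om (hh (n + 1)))
    rw [al_succ] at h2
    exact h1.trans (Order.lt_succ_iff.1 h2)
  have hX : ∀ n, ∃ X : Set (om n).ToType, (2 : Cardinal.{0}) ^ al n = al (n + 1) →
      ∀ c : FF n, (∃ t ∈ c.1, t ∈ X) ∧ ∃ t ∈ c.1, t ∉ X := by
    intro n
    by_cases hn : (2 : Cardinal.{0}) ^ al n = al (n + 1)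
    · obtain ⟨X, hX⟩ := exists_split (aleph0_le_al n) (hFF n hn) (fun c : FF n => c.1)
        (fun c => c.2.2)
      exact ⟨X, fun _ => hX⟩
    · exact ⟨∅, fun h' => absurd h' hn⟩
  choose X hX using hX
  have hmain : ∀ b : B, ∃ n, (∃ t ∈ tr b n, t ∈ X n) ∧ ∃ t ∈ tr b n, t ∉ X n := by
    intro b
    let f : ℕ → Ordinal.{0} := fun n =>
      if #(tr b n) < al n then ⨆ i : tr b n, ((ToType.mk.symm i.1).1 + 1) else 0
    have hf : InProd f := by
      intro n
      by_cases hn : #(tr b n) < al n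
      · simp only [f, if_pos hn]
        exact iSup_add_one_lt_om hn fun i => (ToType.mk.symm i.1).2
      · simp only [f, if_neg hn]; exact om_pos n
    have hbU : ∀ᶠ x in (U : Filter α), x ∈ b.1 := hd.hB _ b.2
    obtain ⟨x, h1, h2, h3, h4, h5⟩ := ((hd.strong f hf).and (hsA.and (hbU.and
      (hgch.and (hd.ns.eventually ((tendsto_add_atTop_nat 1).eventually
        (hgh b))))))).exists
    have hmem : ToType.mk ⟨q x, hd.lt x⟩ ∈ tr b (s x) := by
      refine ⟨x, h3, rfl, ?_⟩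
      rw [OrderIso.symm_apply_apply]
    have h6 : al (s x) ≤ #(tr b (s x)) := by
      by_contra hlt
      have hlt' := not_le.1 hlt
      simp only [f, if_pos hlt'] at h1
      have h7 := Ordinal.le_iSup (fun i : tr b (s x) => (ToType.mk.symm i.1).1 + 1)
        ⟨_, hmem⟩
      simp only [OrderIso.symm_apply_apply] at h7
      exact absurd (h7.trans h1) (not_le.2 (Order.lt_add_one_iff.2 le_rfl))
    exact ⟨s x, hX (s x) h4 ⟨tr b (s x), h5 h2, h6⟩⟩
  rcases U.mem_or_compl_mem {x | ToType.mk ⟨q x, hd.lt x⟩ ∈ X (s x)} with hU | hU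
  · obtain ⟨b, hb, hbX⟩ := hd.base _ hU
    obtain ⟨n, -, t, ⟨y, hy, rfl, hyt⟩, ht'⟩ := hmain ⟨b, hb⟩
    refine ht' ?_
    have h1 := hbX hy
    have h2 : ToType.mk ⟨q y, hd.lt y⟩ = t := by
      rw [← OrderIso.eq_symm_apply]
      exact Subtype.ext hyt
    rw [← h2]
    exact h1
  · obtain ⟨b, hb, hbX⟩ := hd.base _ hU
    obtain ⟨n, ⟨t, ⟨y, hy, rfl, hyt⟩, ht'⟩, -⟩ := hmain ⟨b, hb⟩
    have h1 := hbX hy
    have h2 : ToType.mk ⟨q y, hd.lt y⟩ = t := by
      rw [← OrderIso.eq_symm_apply]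
      exact Subtype.ext hyt
    rw [← h2] at ht'
    exact h1 ht'

/-- The level below a strongly uniform level has small cofinality, if GCH holds there. -/
theorem Lev.pred_level (hd : Lev U B s q)
    (hgch : ∀ᶠ x in (U : Filter α), (2 : Cardinal.{0}) ^ al (s x - 1) = al (s x)) :
    ∃ F : B → ℕ → Ordinal.{0}, (∀ b, InProd (F b)) ∧
      ∀ f, InProd f → ∃ b, ∀ᶠ x in (U : Filter α), f (s x - 1) ≤ F b (s x - 1) := by
  classical
  choose enc henc1 henc2 using exists_enc
  -- columns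
  have hcol : ∀ (l : ℕ) (a : Ordinal.{0}), ∃ X : Set (om l).ToType,
      (2 : Cardinal.{0}) ^ al l = al (l + 1) → a < om (l + 1) →
      ∀ c : Set (om l).ToType, enc l c ≤ a → al l ≤ #c → (∃ t ∈ c, t ∈ X) ∧ ∃ t ∈ c, t ∉ X := by
    intro l a
    by_cases hl : (2 : Cardinal.{0}) ^ al l = al (l + 1) ∧ a < om (l + 1)
    · let T : Type := {c : Set (om l).ToType // enc l c ≤ a ∧ al l ≤ #c}
      have hT : #T ≤ al l := by
        have h1 := mk_le_of_inj (o := a + 1) (fun c : T => enc l c.1)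
          (fun c c' hcc => Subtype.ext (henc2 l hl.1 hcc)) (fun c => Order.lt_add_one_iff.2 c.2.1)
        have h2 := lt_om_iff.1 (add_one_lt_om hl.2)
        rw [al_succ] at h2
        exact h1.trans (Order.lt_succ_iff.1 h2)
      obtain ⟨X, hX⟩ := exists_split (aleph0_le_al l) hT (fun c : T => c.1) (fun c => c.2.2)
      exact ⟨X, fun _ _ c h1 h2 => hX ⟨c, h1, h2⟩⟩
    · exact ⟨∅, fun h1 h2 => absurd ⟨h1, h2⟩ hl⟩
  choose col hcol using hcol
  -- the homogeneous parts
  let Y : Bool → B → (l : ℕ) → Set (om l).ToType := fun ε b l =>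
    {i | ∀ x ∈ b.1, s x = l + 1 → (i ∈ col l (q x) ↔ ε = true)}
  let g : Bool → B → ℕ → Ordinal.{0} := fun ε b l =>
    if #(Y ε b l) < al l then ⨆ i : Y ε b l, ((ToType.mk.symm i.1).1 + 1) else 0
  have hg : ∀ ε b, InProd (g ε b) := by
    intro ε b l
    by_cases hl : #(Y ε b l) < al l
    · simp only [g, if_pos hl]
      exact iSup_add_one_lt_om hl fun i => (ToType.mk.symm i.1).2
    · simp only [g, if_neg hl]; exact om_pos l
  have hsmall : ∀ ε b, ∀ᶠ x in (U : Filter α), #(Y ε b (s x - 1)) < al (s x - 1) := by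
    intro ε b
    let f : ℕ → Ordinal.{0} := fun n => match n with
      | 0 => 0
      | l + 1 => enc l (Y ε b l)
    have hf : InProd f := by
      intro n
      match n with
      | 0 => exact om_pos 0
      | l + 1 => exact henc1 l _
    filter_upwards [hd.strong f hf, hd.hB _ b.2, hgch, hd.ns 1] with x h1 h2 h3 h4
    obtain ⟨l, hl⟩ : ∃ l, s x = l + 1 := ⟨s x - 1, by omega⟩
    have hl' : s x - 1 = l := by omega
    rw [hl'] at h3 ⊢
    rw [hl] at h3 h1
    by_contra hlt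
    have h5 : enc l (Y ε b l) ≤ q x := h1
    have h6 : q x < om (l + 1) := by
      have := hd.lt x
      rwa [hl] at this
    obtain ⟨⟨t, ht, ht'⟩, t2, ht2, ht2'⟩ := hcol l (q x) h3 h6 _ h5 (not_lt.1 hlt)
    have h7 := (ht x h2 hl).1 ht'
    have h8 := (ht2 x h2 hl).not.1 ht2'
    exact h8 h7
  refine ⟨fun b l => max (g true b l) (g false b l), fun b l => max_lt (hg _ _ l) (hg _ _ l),
    fun f hf => ?_⟩
  have key : ∀ (ε : Bool) (b : B), (∀ x ∈ b.1,
      (ToType.mk ⟨f (s x - 1), hf _⟩ ∈ col (s x - 1) (q x) ↔ ε = true)) →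
      ∀ᶠ x in (U : Filter α), f (s x - 1) ≤ g ε b (s x - 1) := by
    intro ε b hb
    filter_upwards [hsmall ε b, hd.ns 1] with x h1 h2
    have hmem : ToType.mk ⟨f (s x - 1), hf _⟩ ∈ Y ε b (s x - 1) := by
      intro y hy hys
      have h3 := hb y hy
      have h4 : s y - 1 = s x - 1 := by omega
      rw [← h3]
      have h5 : ∀ (l l' : ℕ) (h : l = l'),
          (ToType.mk ⟨f l, hf l⟩ ∈ col l (q y) ↔ ToType.mk ⟨f l', hf l'⟩ ∈ col l' (q y)) := by
        rintro l _ rfl
        rfl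
      exact h5 _ _ h4.symm
    simp only [g, if_pos h1]
    have h6 := Ordinal.le_iSup (fun i : Y ε b (s x - 1) => (ToType.mk.symm i.1).1 + 1)
      ⟨_, hmem⟩
    simp only [OrderIso.symm_apply_apply] at h6
    exact le_trans (Order.lt_add_one_iff.2 le_rfl).le h6
  rcases U.mem_or_compl_mem {x | ToType.mk ⟨f (s x - 1), hf _⟩ ∈ col (s x - 1) (q x)}
    with hU | hU
  · obtain ⟨b, hb, hbX⟩ := hd.base _ hU
    refine ⟨⟨b, hb⟩, ?_⟩
    filter_upwards [key true ⟨b, hb⟩ (fun x hx => iff_of_true (hbX hx) rfl)] with x hx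
    exact hx.trans (le_max_left _ _)
  · obtain ⟨b, hb, hbX⟩ := hd.base _ hU
    refine ⟨⟨b, hb⟩, ?_⟩
    filter_upwards [key false ⟨b, hb⟩ (fun x hx => iff_of_false (hbX hx) (by simp))] with x hx
    exact hx.trans (le_max_right _ _)

end

end Run7.h121
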