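import Pool.Agent.Run7.h121.Pcf

/-!
# A cofinal family of size aleph_{omega+1} bounds the power of aleph_omega
-/

namespace Run7.h121

noncomputable section

open Cardinal Ordinal Set Filter

namespace Cov

/-- the shapes of the closure operations -/
abbrev Op : Type := ℕ ⊕ (Fin 6 × ℕ)

/-- arities -/
def Ar : Op → Type
  | Sum.inl _ => Empty
  | Sum.inr _ => ℕ

abbrev WT : Type := WType Ar

theorem mk_WT : #WT ≤ 2 ^ ℵ₀ := by
  refine WType.cardinalMk_le_of_le ?_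
  have h1 : ∀ a : Op, ((2 : Cardinal.{0}) ^ ℵ₀) ^ #(Ar a) ≤ 2 ^ ℵ₀ := by
    rintro (n | a)
    · have : #(Ar (Sum.inl n)) = 0 := by simp [Ar]
      rw [this, power_zero]
      exact one_le_aleph0.trans (cantor ℵ₀).le
    · have : #(Ar (Sum.inr a)) = ℵ₀ := by simp [Ar]
      rw [this, ← power_mul, aleph0_mul_aleph0]
  refine (sum_le_sum _ _ h1).trans ?_
  rw [sum_const]
  have h2 : #Op ≤ ℵ₀ := by
    rw [mk_le_aleph0_iff]
    infer_instance
  simp only [Cardinal.lift_id]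
  refine (mul_le_mul_left h2 _).trans ?_
  rw [mul_eq_max le_rfl (cantor ℵ₀).le]
  exact max_le (cantor ℵ₀).le le_rfl

/-- the two-sorted carrier -/
abbrev Z : Type 1 := Ordinal.{0} ⊕ KK

def ordOf : Z → Ordinal.{0}
  | Sum.inl o => o
  | Sum.inr _ => 0

def kOf : Z → KK
  | Sum.inl _ => Classical.arbitrary KK
  | Sum.inr k => k

/-- injections of the predecessors of `z` into `ω_n`, and their inverses -/
theorem exists_coding : ∃ fo : ℕ → Ordinal.{0} → Ordinal.{0} → Ordinal.{0},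
    ∃ e : ℕ → Ordinal.{0} → Ordinal.{0} → Ordinal.{0},
    ∀ n z x, z < om (n + 1) → x < z → fo n z x < om n ∧ e n z (fo n z x) = x := by
  classical
  have key : ∀ (n : ℕ) (z : Ordinal.{0}), ∃ fo : Ordinal.{0} → Ordinal.{0},
      ∃ e : Ordinal.{0} → Ordinal.{0}, z < om (n + 1) →
      ∀ x < z, fo x < om n ∧ e (fo x) = x := by
    intro n z
    by_cases hz : z < om (n + 1)
    · have h1 : #z.ToType ≤ (om n).card := by
        rw [mk_toType, card_om]
        rw [lt_om_iff, al_succ, Order.lt_succ_iff] at hz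
        exact hz
      obtain ⟨g, hg, hlt⟩ := exists_inj h1
      let fo : Ordinal.{0} → Ordinal.{0} := fun x =>
        if h : x < z then g (Ordinal.ToType.mk ⟨x, h⟩) else 0
      have hfo : InjOn fo (Iio z) := by
        intro x hx y hy hxy
        have hx' : x < z := hx
        have hy' : y < z := hy
        simp only [fo, dif_pos hx', dif_pos hy'] at hxy
        have := hg hxy
        simpa using this
      refine ⟨fo, Function.invFunOn fo (Iio z), fun _ x hx => ⟨?_, ?_⟩⟩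
      · simp only [fo, dif_pos hx]; exact hlt _
      · exact hfo.leftInvOn_invFunOn hx
    · exact ⟨id, id, fun h => absurd h hz⟩
  choose fo e h using key
  exact ⟨fo, e, fun n z x hz hx => h n z hz x hx⟩

section

variable (F : KK → ℕ → Ordinal.{0}) (bd : (ℕ → Ordinal.{0}) → KK)
  (fo e : ℕ → Ordinal.{0} → Ordinal.{0} → Ordinal.{0}) (x : ℕ → Ordinal.{0})

/-- the closure operations -/
def op : (Σ a : Op, Ar a → Z) → Z
  | ⟨Sum.inl n, _⟩ => Sum.inl (x n)
  | ⟨Sum.inr (0, _), a⟩ => Sum.inl (ordOf (a (0 : ℕ)) + 1)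
  | ⟨Sum.inr (1, _), a⟩ => Sum.inl (⨆ n : ℕ, ordOf (a n))
  | ⟨Sum.inr (2, n), a⟩ => Sum.inl (e n (ordOf (a (0 : ℕ))) (ordOf (a (1 : ℕ))))
  | ⟨Sum.inr (3, n), a⟩ => Sum.inl (fo n (ordOf (a (0 : ℕ))) (ordOf (a (1 : ℕ))))
  | ⟨Sum.inr (4, n), a⟩ => Sum.inl (F (kOf (a (0 : ℕ))) n)
  | ⟨Sum.inr (5, _), a⟩ => Sum.inr (bd fun n => if ordOf (a n) < om n then ordOf (a n) else 0)

/-- evaluation of terms -/
def ev : WT → Z := WType.elim Z (op F bd fo e x)

/-- ordinals in the closure -/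
def NO : Set Ordinal.{0} := {o | ∃ w : WT, ev F bd fo e x w = Sum.inl o}

/-- indices in the closure -/
def NK : Set KK := {k | ∃ w : WT, ev F bd fo e x w = Sum.inr k}

variable {F bd fo e x}

theorem ev_mk (a : Fin 6 × ℕ) (w : ℕ → WT) :
    ev F bd fo e x (WType.mk (Sum.inr a : Op) w) =
      op F bd fo e x ⟨Sum.inr a, fun n : ℕ => ev F bd fo e x (w n)⟩ := rfl

theorem gen_mem (n : ℕ) : x n ∈ NO F bd fo e x :=
  ⟨WType.mk (Sum.inl n : Op) Empty.elim, rfl⟩

theorem suc_mem {o : Ordinal.{0}} (h : o ∈ NO F bd fo e x) : o + 1 ∈ NO F bd fo e x := by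
  obtain ⟨w, hw⟩ := h
  refine ⟨WType.mk (Sum.inr (0, 0) : Op) (fun _ : ℕ => w), ?_⟩
  rw [ev_mk]
  simp only [op, hw, ordOf]

theorem sup_mem {o : ℕ → Ordinal.{0}} (h : ∀ n, o n ∈ NO F bd fo e x) :
    (⨆ n, o n) ∈ NO F bd fo e x := by
  choose w hw using h
  refine ⟨WType.mk (Sum.inr (1, 0) : Op) (fun n : ℕ => w n), ?_⟩
  rw [ev_mk]
  simp only [op, hw, ordOf]

theorem e_mem {n : ℕ} {o o' : Ordinal.{0}} (h : o ∈ NO F bd fo e x) (h' : o' ∈ NO F bd fo e x) :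
    e n o o' ∈ NO F bd fo e x := by
  obtain ⟨w, hw⟩ := h
  obtain ⟨w', hw'⟩ := h'
  refine ⟨WType.mk (Sum.inr (2, n) : Op) (fun i : ℕ => if i = 0 then w else w'), ?_⟩
  rw [ev_mk]
  simp [op, hw, hw', ordOf]

theorem fo_mem {n : ℕ} {o o' : Ordinal.{0}} (h : o ∈ NO F bd fo e x) (h' : o' ∈ NO F bd fo e x) :
    fo n o o' ∈ NO F bd fo e x := by
  obtain ⟨w, hw⟩ := h
  obtain ⟨w', hw'⟩ := h'
  refine ⟨WType.mk (Sum.inr (3, n) : Op) (fun i : ℕ => if i = 0 then w else w'), ?_⟩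
  rw [ev_mk]
  simp [op, hw, hw', ordOf]

theorem val_mem {k : KK} (h : k ∈ NK F bd fo e x) (n : ℕ) : F k n ∈ NO F bd fo e x := by
  obtain ⟨w, hw⟩ := h
  refine ⟨WType.mk (Sum.inr (4, n) : Op) (fun _ : ℕ => w), ?_⟩
  rw [ev_mk]
  simp only [op, hw, kOf]

theorem bd_mem {o : ℕ → Ordinal.{0}} (h : ∀ n, o n ∈ NO F bd fo e x) :
    (bd fun n => if o n < om n then o n else 0) ∈ NK F bd fo e x := by
  choose w hw using h
  refine ⟨WType.mk (Sum.inr (5, 0) : Op) (fun n : ℕ => w n), ?_⟩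
  rw [ev_mk]
  simp only [op, hw, ordOf]

/-- least strict upper bound of the indices -/
theorem exists_zeta (hSL : SL) (F : KK → ℕ → Ordinal.{0}) (bd : (ℕ → Ordinal.{0}) → KK)
    (fo e : ℕ → Ordinal.{0} → Ordinal.{0} → Ordinal.{0}) (x : ℕ → Ordinal.{0}) :
    ∃ ζ : KK, (∀ k ∈ NK F bd fo e x, k < ζ) ∧
    ∀ k', k' < ζ → ∃ k ∈ NK F bd fo e x, k' ≤ k := by
  have h1 : #WT ≤ ℵ_ ω := by
    refine mk_WT.trans ?_
    have := (hSL 0).le
    rwa [al_zero] at this
  obtain ⟨b, hb⟩ := exists_bound_KK h1 (fun w => kOf (ev F bd fo e x w))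
  have hne : {ζ : KK | ∀ k ∈ NK F bd fo e x, k < ζ}.Nonempty := by
    refine ⟨b, ?_⟩
    rintro k ⟨w, hw⟩
    have := hb w
    rwa [hw] at this
  obtain ⟨ζ, hζ, hmin⟩ := WellFounded.has_min (wellFounded_lt (α := KK)) _ hne
  refine ⟨ζ, hζ, fun k' hk' => ?_⟩
  by_contra hcon
  push Not at hcon
  exact hmin k' hcon hk'

/-- `ζ` is the least strict upper bound of the indices in the closure of `x` -/
def IsZeta (F : KK → ℕ → Ordinal.{0}) (bd : (ℕ → Ordinal.{0}) → KK)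
    (fo e : ℕ → Ordinal.{0} → Ordinal.{0} → Ordinal.{0}) (x : ℕ → Ordinal.{0}) (ζ : KK) : Prop :=
  (∀ k ∈ NK F bd fo e x, k < ζ) ∧ ∀ k', k' < ζ → ∃ k ∈ NK F bd fo e x, k' ≤ k

variable {y : ℕ → Ordinal.{0}}

theorem cofinal_of_zeta_eq (hF1 : ∀ k, InProd (F k))
    (hF2 : ∀ k k', k < k' → ∀ᶠ n in atTop, F k n < F k' n)
    (hbd : ∀ a, InProd a → ∀ᶠ n in atTop, a n ≤ F (bd a) n) {ζ : KK}
    (hx : IsZeta F bd fo e x ζ) (hy : IsZeta F bd fo e y ζ) :
    ∀ᶠ n in atTop, ∀ a ∈ NO F bd fo e y, a < om n → ∃ b ∈ NO F bd fo e x, b < om n ∧ a ≤ b := by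
  classical
  by_contra hcon
  let P : ℕ → Ordinal.{0} → Prop := fun n a => a ∈ NO F bd fo e y ∧ a < om n ∧
    ∀ b ∈ NO F bd fo e x, b < om n → b < a
  have hfreq : ∃ᶠ n in atTop, ∃ a, P n a := by
    intro h
    refine hcon (h.mono fun n hn a ha han => ?_)
    by_contra hno
    push Not at hno
    exact hn ⟨a, ha, han, fun b hb hbn => hno b hb hbn⟩
  let A : ℕ → Ordinal.{0} := fun n => if h : ∃ a, P n a then h.choose else y 0
  have hA1 : ∀ n, A n ∈ NO F bd fo e y := by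
    intro n
    by_cases h : ∃ a, P n a
    · simp only [A, dif_pos h]; exact h.choose_spec.1
    · simp only [A, dif_neg h]; exact gen_mem 0
  have hA2 : ∀ n, (∃ a, P n a) → P n (A n) := by
    intro n h
    simp only [A, dif_pos h]; exact h.choose_spec
  have hk' := bd_mem hA1
  obtain ⟨k, hk, hkk⟩ := hx.2 _ (hy.1 _ hk')
  have hle : ∀ᶠ n in atTop, F (bd fun n => if A n < om n then A n else 0) n ≤ F k n := by
    rcases hkk.lt_or_eq with h | h
    · exact (hF2 _ _ h).mono fun n hn => hn.le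
    · rw [h]; exact Eventually.of_forall fun n => le_rfl
  have hin : InProd (fun n => if A n < om n then A n else 0) := by
    intro n
    by_cases h : A n < om n
    · simp only [if_pos h]; exact h
    · simp only [if_neg h]; exact om_pos n
  obtain ⟨n, hn, h1, h2⟩ := (hfreq.and_eventually ((hbd _ hin).and hle)).exists
  obtain ⟨h3, h4, h5⟩ := hA2 n hn
  simp only [if_pos h4] at h1
  exact absurd (h1.trans h2) (not_le.2 (h5 _ (val_mem hk n) (hF1 k n)))

theorem exists_common {n : ℕ}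
    (h1 : ∀ a ∈ NO F bd fo e y, a < om (n + 1) →
      ∃ b ∈ NO F bd fo e x, b < om (n + 1) ∧ a ≤ b)
    (h2 : ∀ a ∈ NO F bd fo e x, a < om (n + 1) →
      ∃ b ∈ NO F bd fo e y, b < om (n + 1) ∧ a ≤ b)
    {a : Ordinal.{0}} (ha : a ∈ NO F bd fo e x) (han : a < om (n + 1)) :
    ∃ z, z ∈ NO F bd fo e x ∧ z ∈ NO F bd fo e y ∧ z < om (n + 1) ∧ a ≤ z := by
  choose! dn hdn1 hdn2 hdn3 using h1
  choose! up hup1 hup2 hup3 using h2
  let s : ℕ → Ordinal.{0} := fun i => Nat.rec a (fun _ o => dn (up o)) i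
  have hs0 : s 0 = a := rfl
  have hs1 : ∀ i, s (i + 1) = dn (up (s i)) := fun i => rfl
  have hs : ∀ i, s i ∈ NO F bd fo e x ∧ s i < om (n + 1) := by
    intro i
    induction i with
    | zero => exact ⟨ha, han⟩
    | succ i ih =>
      rw [hs1]
      have h3 := hup1 _ ih.1 ih.2
      have h4 := hup2 _ ih.1 ih.2
      exact ⟨hdn1 _ h3 h4, hdn2 _ h3 h4⟩
  have hu : ∀ i, up (s i) ∈ NO F bd fo e y ∧ up (s i) < om (n + 1) := fun i =>
    ⟨hup1 _ (hs i).1 (hs i).2, hup2 _ (hs i).1 (hs i).2⟩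
  have heq : (⨆ i, s i) = ⨆ i, up (s i) := by
    apply le_antisymm
    · refine Ordinal.iSup_le fun i => ?_
      exact (hup3 _ (hs i).1 (hs i).2).trans (Ordinal.le_iSup (fun i => up (s i)) i)
    · refine Ordinal.iSup_le fun i => ?_
      refine le_trans ?_ (Ordinal.le_iSup s (i + 1))
      rw [hs1]
      exact hdn3 _ (hu i).1 (hu i).2
  refine ⟨⨆ i, s i, sup_mem fun i => (hs i).1, ?_, ?_, ?_⟩
  · rw [heq]; exact sup_mem fun i => (hu i).1
  · refine iSup_lt_om ?_ fun i => (hs i).2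
    rw [mk_nat, ← al_zero, al_lt]
    exact Nat.succ_pos n
  · exact Ordinal.le_iSup s 0

theorem eq_step {n : ℕ}
    (hcod : ∀ n z x, z < om (n + 1) → x < z → fo n z x < om n ∧ e n z (fo n z x) = x)
    (h1 : ∀ a ∈ NO F bd fo e y, a < om (n + 1) →
      ∃ b ∈ NO F bd fo e x, b < om (n + 1) ∧ a ≤ b)
    (h2 : ∀ a ∈ NO F bd fo e x, a < om (n + 1) →
      ∃ b ∈ NO F bd fo e y, b < om (n + 1) ∧ a ≤ b)
    (h : ∀ a ∈ NO F bd fo e x, a < om n → a ∈ NO F bd fo e y)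
    {a : Ordinal.{0}} (ha : a ∈ NO F bd fo e x) (han : a < om (n + 1)) :
    a ∈ NO F bd fo e y := by
  obtain ⟨z, hz1, hz2, hz3, hz4⟩ := exists_common h1 h2 (suc_mem ha) (add_one_lt_om han)
  have haz : a < z := (Order.lt_add_one_iff.2 le_rfl).trans_le hz4
  obtain ⟨h3, h4⟩ := hcod n z a hz3 haz
  rw [← h4]
  exact e_mem hz2 (h _ (fo_mem hz1 ha) h3)

theorem eq_of_code
    (hcod : ∀ n z x, z < om (n + 1) → x < z → fo n z x < om n ∧ e n z (fo n z x) = x) {m : ℕ}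
    (h1 : ∀ n ≥ m, ∀ a ∈ NO F bd fo e y, a < om n → ∃ b ∈ NO F bd fo e x, b < om n ∧ a ≤ b)
    (h2 : ∀ n ≥ m, ∀ a ∈ NO F bd fo e x, a < om n → ∃ b ∈ NO F bd fo e y, b < om n ∧ a ≤ b)
    (h3 : ∀ a < om m, a ∈ NO F bd fo e x → a ∈ NO F bd fo e y) :
    ∀ a < ω_ ω, a ∈ NO F bd fo e x → a ∈ NO F bd fo e y := by
  have key : ∀ n, ∀ a < om (m + n), a ∈ NO F bd fo e x → a ∈ NO F bd fo e y := by
    intro n
    induction n with
    | zero => exact h3
    | succ n ih =>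
      intro a ha hax
      exact eq_step hcod (h1 _ (by omega)) (h2 _ (by omega)) (fun a h4 h5 => ih a h5 h4) hax ha
  intro a ha hax
  obtain ⟨n, hn⟩ := exists_om_of_lt ha
  exact key n a (hn.trans_le (om_le.2 (by omega))) hax

end

/-- ordinals below `ω_ω` as a type -/
abbrev Om : Type := (ω_ ω).ToType

theorem mk_Om : #Om = ℵ_ ω := by rw [mk_toType, card_omega]

/-- the sequence of ordinals coded by a sequence in `Om` -/
def sq (x : ℕ → Om) : ℕ → Ordinal.{0} := fun n => (ToType.mk.symm (x n)).1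

theorem sq_lt (x : ℕ → Om) (n : ℕ) : sq x n < ω_ ω := (ToType.mk.symm (x n)).2

theorem mk_seq_le (hSL : SL) {F : KK → ℕ → Ordinal.{0}} (hF1 : ∀ k, InProd (F k))
    (hF2 : ∀ k k', k < k' → ∀ᶠ n in atTop, F k n < F k' n)
    (hF3 : ∀ f, InProd f → ∃ k, ∀ᶠ n in atTop, f n ≤ F k n) : #(ℕ → Om) ≤ kp := by
  classical
  obtain ⟨fo, e, hcod⟩ := exists_coding
  choose! bd hbd using hF3
  choose ζ hζ using fun x : ℕ → Om => exists_zeta hSL F bd fo e (sq x)
  have hζ' : ∀ x, IsZeta F bd fo e (sq x) (ζ x) := hζ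
  let MC : (ℕ → Om) → (ℕ → Om) → ℕ → Prop := fun x y m =>
    ∀ n ≥ m, ∀ a ∈ NO F bd fo e (sq y), a < om n → ∃ b ∈ NO F bd fo e (sq x), b < om n ∧ a ≤ b
  have hMC : ∀ x y, ζ x = ζ y → ∃ m, MC x y m ∧ MC y x m := by
    intro x y hxy
    have h1 := cofinal_of_zeta_eq hF1 hF2 hbd (hζ' x) (by rw [hxy]; exact hζ' y)
    have h2 := cofinal_of_zeta_eq hF1 hF2 hbd (hζ' y) (by rw [← hxy]; exact hζ' x)
    obtain ⟨m, hm⟩ := eventually_atTop.1 (h1.and h2)
    exact ⟨m, fun n hn => (hm n hn).1, fun n hn => (hm n hn).2⟩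
  obtain ⟨x00⟩ : Nonempty (ℕ → Om) := by
    have : Nonempty Om := by
      rw [← mk_ne_zero_iff, mk_Om]; exact (aleph0_pos.trans_le aleph0_le_omega).ne'
    infer_instance
  let R : KK → (ℕ → Om) := fun z => if h : ∃ x, ζ x = z then h.choose else x00
  have hR : ∀ x, ζ (R (ζ x)) = ζ x := by
    intro x
    have h : ∃ x', ζ x' = ζ x := ⟨x, rfl⟩
    simp only [R, dif_pos h]; exact h.choose_spec
  choose m hm1 hm2 using fun x => hMC x (R (ζ x)) (hR x).symm
  let S : (ℕ → Om) → (n : ℕ) → Set (om n).ToType := fun x n =>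
    {i | (ToType.mk.symm i).1 ∈ NO F bd fo e (sq x)}
  let code : (ℕ → Om) → KK × (Σ n : ℕ, Set (om n).ToType) := fun x => (ζ x, ⟨m x, S x (m x)⟩)
  have hsub : ∀ x y, code x = code y → ∀ a < ω_ ω, a ∈ NO F bd fo e (sq x) →
      a ∈ NO F bd fo e (sq y) := by
    intro x y hxy
    have h1 : ζ x = ζ y := congrArg Prod.fst hxy
    have h2 := congrArg Prod.snd hxy
    obtain ⟨h3, h4⟩ := Sigma.mk.inj_iff.1 h2
    rw [← h3] at h4
    have h5 : S x (m x) = S y (m x) := eq_of_heq h4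
    refine eq_of_code hcod (m := m x) ?_ ?_ ?_
    · intro n hn a ha han
      have h6 := hm2 y n (by rw [← h3]; exact hn) a ha han
      obtain ⟨b, hb, hbn, hab⟩ := h6
      rw [← h1] at hb
      obtain ⟨c, hc, hcn, hbc⟩ := hm1 x n hn b hb hbn
      exact ⟨c, hc, hcn, hab.trans hbc⟩
    · intro n hn a ha han
      obtain ⟨b, hb, hbn, hab⟩ := hm2 x n hn a ha han
      rw [h1] at hb
      obtain ⟨c, hc, hcn, hbc⟩ := hm1 y n (by rw [← h3]; exact hn) b hb hbn
      exact ⟨c, hc, hcn, hab.trans hbc⟩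
    · intro a ha hax
      have h6 : ToType.mk ⟨a, ha⟩ ∈ S x (m x) := by
        simp only [S, mem_ofPred_eq, OrderIso.symm_apply_apply]; exact hax
      rw [h5] at h6
      simpa only [S, mem_ofPred_eq, OrderIso.symm_apply_apply] using h6
  have hWT : #(ℕ → WT) ≤ ℵ_ ω := by
    rw [← power_def, mk_nat]
    refine (power_le_power_right mk_WT).trans ?_
    rw [← power_mul, aleph0_mul_aleph0]
    have := (hSL 0).le
    rwa [al_zero] at this
  have hfib : ∀ b, #(code ⁻¹' {b}) ≤ ℵ_ ω := by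
    intro b
    by_cases hne : (code ⁻¹' {b}).Nonempty
    · obtain ⟨x0, hx0⟩ := hne
      have hx0' : code x0 = b := hx0
      have hw : ∀ (x : code ⁻¹' {b}) (n : ℕ), ∃ w : WT,
          ev F bd fo e (sq x0) w = Sum.inl (sq x.1 n) := by
        intro x n
        have hx : code x.1 = b := x.2
        exact hsub x.1 x0 (hx.trans hx0'.symm) _ (sq_lt x.1 n) (gen_mem n)
      choose w hw using hw
      refine (mk_le_of_injective (f := w) ?_).trans hWT
      intro x y hxy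
      apply Subtype.ext
      funext n
      have h1 := hw x n
      rw [hxy, hw y n] at h1
      have h2 : sq y.1 n = sq x.1 n := Sum.inl_injective h1
      have h3 : ToType.mk.symm (y.1 n) = ToType.mk.symm (x.1 n) := Subtype.ext h2
      exact (ToType.mk.symm.injective h3).symm
    · rw [not_nonempty_iff_eq_empty.1 hne, mk_eq_zero]
      exact zero_le
  refine (mk_le_mk_mul_of_mk_preimage_le code hfib).trans ?_
  have h1 : #(Σ n : ℕ, Set (om n).ToType) ≤ ℵ_ ω := by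
    rw [mk_sigma]
    refine (sum_le_sum _ (fun _ => ℵ_ ω) fun n => ?_).trans ?_
    · rw [mk_set, mk_toType, card_om]; exact (hSL n).le
    · rw [sum_const, mk_nat]
      simp only [Cardinal.lift_id]
      rw [mul_eq_max le_rfl aleph0_le_omega]
      exact max_le aleph0_le_omega le_rfl
  have h2 : ℵ_ ω ≤ kp := by rw [kp_succ]; exact Order.le_succ _
  rw [mk_prod, Cardinal.lift_id, Cardinal.lift_id, mk_KK]
  have h3 : ℵ₀ ≤ kp := aleph0_le_omega.trans h2
  calc kp * #(Σ n : ℕ, Set (om n).ToType) * ℵ_ ω ≤ kp * kp * kp :=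
        mul_le_mul' (mul_le_mul' le_rfl (h1.trans h2)) h2
    _ = kp := by rw [mul_eq_self h3, mul_eq_self h3]

/-- **Power of aleph_omega from a scale.** If aleph_omega is a strong limit and the product of the
`ω_n` modulo finite has a cofinal family of size aleph_{omega+1}, then
`2 ^ aleph_omega ≤ aleph_{omega+1}`. -/
theorem pow_le_of_scale (hSL : SL) {F : KK → ℕ → Ordinal.{0}} (hF1 : ∀ k, InProd (F k))
    (hF2 : ∀ k k', k < k' → ∀ᶠ n in atTop, F k n < F k' n)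
    (hF3 : ∀ f, InProd f → ∃ k, ∀ᶠ n in atTop, f n ≤ F k n) :
    (2 : Cardinal.{0}) ^ (ℵ_ ω) ≤ kp := by
  have h1 : ℵ_ ω ≤ sum (fun n : ℕ => al n) := by
    by_contra hcon
    obtain ⟨n, hn⟩ := exists_al_of_lt (not_le.1 hcon)
    exact absurd hn (not_lt.2 (le_sum (fun n : ℕ => al n) n))
  calc (2 : Cardinal.{0}) ^ (ℵ_ ω) ≤ 2 ^ sum (fun n : ℕ => al n) :=
        power_le_power_left two_ne_zero h1
    _ = prod (fun n : ℕ => (2 : Cardinal.{0}) ^ al n) := power_sum _ _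
    _ ≤ prod (fun _ : ℕ => ℵ_ ω) := prod_le_prod _ _ fun n => (hSL n).le
    _ = #(ℕ → Om) := by rw [prod_const', ← power_def, mk_Om]
    _ ≤ kp := mk_seq_le hSL hF1 hF2 hF3

end Cov

end

end Run7.h121
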