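import Pool.Agent.Run7.h121.Lam

/-!
# At a strong limit aleph_omega the power of aleph_omega is the cofinality of the product
-/

namespace Run7.h121

noncomputable section

open Cardinal Ordinal Set Filter

namespace CovG

/-- the shapes of the closure operations -/
abbrev Op : Type := ℕ ⊕ (Fin 6 × ℕ × Set ℕ)

/-- arities -/
def Ar : Op → Type
  | Sum.inl _ => Empty
  | Sum.inr _ => ℕ

abbrev WT : Type := WType Ar

theorem mk_WT : #WT ≤ 2 ^ ℵ₀ := by
  refine WType.cardinalMk_le_of_le ?_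
  have h1 : ∀ a : Op, ((2 : Cardinal.{0}) ^ ℵ₀) ^ #(Ar a) ≤ 2 ^ ℵ₀ := by
    rintro (n | a)
    · have : #(Ar (Sum.inl n)) = 0 := by simp [Ar]
      rw [this, power_zero]
      exact one_le_aleph0.trans (cantor ℵ₀).le
    · have : #(Ar (Sum.inr a)) = ℵ₀ := by simp [Ar]
      rw [this, ← power_mul, aleph0_mul_aleph0]
  refine (sum_le_sum _ _ h1).trans ?_
  rw [sum_const]
  have h3 : ℵ₀ ≤ (2 : Cardinal.{0}) ^ ℵ₀ := (cantor ℵ₀).le
  have h2 : #Op ≤ 2 ^ ℵ₀ := by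
    have h4 : #(ℕ × Set ℕ) ≤ 2 ^ ℵ₀ := by
      rw [mk_prod, Cardinal.lift_id, Cardinal.lift_id, mk_set, mk_nat]
      exact (mul_le_mul' h3 le_rfl).trans (mul_eq_self h3).le
    have h5 : #(Fin 6 × ℕ × Set ℕ) ≤ 2 ^ ℵ₀ := by
      rw [mk_prod, Cardinal.lift_id, Cardinal.lift_id]
      have h6 : #(Fin 6) ≤ 2 ^ ℵ₀ := (mk_le_aleph0 (α := Fin 6)).trans h3
      exact (mul_le_mul' h6 h4).trans (mul_eq_self h3).le
    rw [mk_sum, Cardinal.lift_id, Cardinal.lift_id, mk_nat]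
    exact (add_le_add h3 h5).trans (add_eq_self h3).le
  simp only [Cardinal.lift_id]
  exact (mul_le_mul' h2 le_rfl).trans (mul_eq_self h3).le

section

variable (κ : Set ℕ → Cardinal.{0})

/-- the carrier -/
abbrev Z : Type 1 := Ordinal.{0} ⊕ (Σ X : Set ℕ, KT (κ X))

variable {κ}

def ordOf : Z κ → Ordinal.{0}
  | Sum.inl o => o
  | Sum.inr _ => 0

variable (dk : ∀ X, KT (κ X))

open Classical in
def kOf (X : Set ℕ) : Z κ → KT (κ X)
  | Sum.inl _ => dk X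
  | Sum.inr ⟨Y, k⟩ => if h : Y = X then h ▸ k else dk X

theorem kOf_inr (X : Set ℕ) (k : KT (κ X)) : kOf dk X (Sum.inr ⟨X, k⟩) = k := by
  simp [kOf]

variable (F : ∀ X, KT (κ X) → ℕ → Ordinal.{0}) (bd : ∀ X, (ℕ → Ordinal.{0}) → KT (κ X))
  (fo e : ℕ → Ordinal.{0} → Ordinal.{0} → Ordinal.{0}) (x : ℕ → Ordinal.{0})

/-- the closure operations -/
def op : (Σ a : Op, Ar a → Z κ) → Z κ
  | ⟨Sum.inl n, _⟩ => Sum.inl (x n)
  | ⟨Sum.inr (0, _, _), a⟩ => Sum.inl (ordOf (a (0 : ℕ)) + 1)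
  | ⟨Sum.inr (1, _, _), a⟩ => Sum.inl (⨆ n : ℕ, ordOf (a n))
  | ⟨Sum.inr (2, n, _), a⟩ => Sum.inl (e n (ordOf (a (0 : ℕ))) (ordOf (a (1 : ℕ))))
  | ⟨Sum.inr (3, n, _), a⟩ => Sum.inl (fo n (ordOf (a (0 : ℕ))) (ordOf (a (1 : ℕ))))
  | ⟨Sum.inr (4, n, X), a⟩ => Sum.inl (F X (kOf dk X (a (0 : ℕ))) n)
  | ⟨Sum.inr (5, _, X), a⟩ =>
    Sum.inr ⟨X, bd X fun n => if ordOf (a n) < om n then ordOf (a n) else 0⟩

/-- evaluation of terms -/
def ev : WT → Z κ := WType.elim (Z κ) (op dk F bd fo e x)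

/-- ordinals in the closure -/
def NO : Set Ordinal.{0} := {o | ∃ w : WT, ev dk F bd fo e x w = Sum.inl o}

/-- indices in the closure -/
def NK (X : Set ℕ) : Set (KT (κ X)) := {k | ∃ w : WT, ev dk F bd fo e x w = Sum.inr ⟨X, k⟩}

variable {dk F bd fo e x}

theorem ev_mk (a : Fin 6 × ℕ × Set ℕ) (w : ℕ → WT) :
    ev dk F bd fo e x (WType.mk (Sum.inr a : Op) w) =
      op dk F bd fo e x ⟨Sum.inr a, fun n : ℕ => ev dk F bd fo e x (w n)⟩ := rfl

theorem gen_mem (n : ℕ) : x n ∈ NO dk F bd fo e x :=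
  ⟨WType.mk (Sum.inl n : Op) Empty.elim, rfl⟩

theorem suc_mem {o : Ordinal.{0}} (h : o ∈ NO dk F bd fo e x) : o + 1 ∈ NO dk F bd fo e x := by
  obtain ⟨w, hw⟩ := h
  refine ⟨WType.mk (Sum.inr (0, 0, ∅) : Op) (fun _ : ℕ => w), ?_⟩
  rw [ev_mk]
  simp only [op, hw, ordOf]

theorem sup_mem {o : ℕ → Ordinal.{0}} (h : ∀ n, o n ∈ NO dk F bd fo e x) :
    (⨆ n, o n) ∈ NO dk F bd fo e x := by
  choose w hw using h
  refine ⟨WType.mk (Sum.inr (1, 0, ∅) : Op) (fun n : ℕ => w n), ?_⟩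
  rw [ev_mk]
  simp only [op, hw, ordOf]

theorem e_mem {n : ℕ} {o o' : Ordinal.{0}} (h : o ∈ NO dk F bd fo e x)
    (h' : o' ∈ NO dk F bd fo e x) : e n o o' ∈ NO dk F bd fo e x := by
  obtain ⟨w, hw⟩ := h
  obtain ⟨w', hw'⟩ := h'
  refine ⟨WType.mk (Sum.inr (2, n, ∅) : Op) (fun i : ℕ => if i = 0 then w else w'), ?_⟩
  rw [ev_mk]
  simp [op, hw, hw', ordOf]

theorem fo_mem {n : ℕ} {o o' : Ordinal.{0}} (h : o ∈ NO dk F bd fo e x)
    (h' : o' ∈ NO dk F bd fo e x) : fo n o o' ∈ NO dk F bd fo e x := by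
  obtain ⟨w, hw⟩ := h
  obtain ⟨w', hw'⟩ := h'
  refine ⟨WType.mk (Sum.inr (3, n, ∅) : Op) (fun i : ℕ => if i = 0 then w else w'), ?_⟩
  rw [ev_mk]
  simp [op, hw, hw', ordOf]

theorem val_mem {X : Set ℕ} {k : KT (κ X)} (h : k ∈ NK dk F bd fo e x X) (n : ℕ) :
    F X k n ∈ NO dk F bd fo e x := by
  obtain ⟨w, hw⟩ := h
  refine ⟨WType.mk (Sum.inr (4, n, X) : Op) (fun _ : ℕ => w), ?_⟩
  rw [ev_mk]
  simp only [op, hw, kOf_inr]

theorem bd_mem (X : Set ℕ) {o : ℕ → Ordinal.{0}} (h : ∀ n, o n ∈ NO dk F bd fo e x) :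
    (bd X fun n => if o n < om n then o n else 0) ∈ NK dk F bd fo e x X := by
  choose w hw using h
  refine ⟨WType.mk (Sum.inr (5, 0, X) : Op) (fun n : ℕ => w n), ?_⟩
  rw [ev_mk]
  simp only [op, hw, ordOf]

variable (dk F bd fo e) in
/-- `ζ` is the least strict upper bound of the indices for `X` in the closure of `x` -/
def IsZeta (X : Set ℕ) (x : ℕ → Ordinal.{0}) (ζ : KT (κ X)) : Prop :=
  (∀ k ∈ NK dk F bd fo e x X, k < ζ) ∧ ∀ k', k' < ζ → ∃ k ∈ NK dk F bd fo e x X, k' ≤ k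

theorem exists_zeta (hSL : SL) {X : Set ℕ} (hreg : (κ X).IsRegular) (hκ : ℵ_ ω < κ X)
    (x : ℕ → Ordinal.{0}) : ∃ ζ, IsZeta dk F bd fo e X x ζ := by
  have h1 : #WT ≤ ℵ_ ω := by
    refine mk_WT.trans ?_
    have := (hSL 0).le
    rwa [al_zero] at this
  obtain ⟨b, hb⟩ := exists_bound_KT hreg (h1.trans_lt hκ)
    (fun w => kOf dk X (ev dk F bd fo e x w))
  have hne : {ζ : KT (κ X) | ∀ k ∈ NK dk F bd fo e x X, k < ζ}.Nonempty := by
    refine ⟨b, ?_⟩
    rintro k ⟨w, hw⟩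
    have := hb w
    rwa [hw, kOf_inr] at this
  obtain ⟨ζ, hζ, hmin⟩ := WellFounded.has_min (wellFounded_lt (α := KT (κ X))) _ hne
  refine ⟨ζ, hζ, fun k' hk' => ?_⟩
  by_contra hcon
  push Not at hcon
  exact hmin k' hcon hk'

variable {y : ℕ → Ordinal.{0}}

theorem cofinal_of_zeta_eq {X : Set ℕ} (hF1 : ∀ k, InProd (F X k))
    (hF2 : ∀ k k', k < k' → ∀ᶠ n in FF (κ X), F X k n < F X k' n)
    (hbd : ∀ a, InProd a → ∀ᶠ n in FF (κ X), n ∈ X → a n ≤ F X (bd X a) n) {ζ : KT (κ X)}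
    (hx : IsZeta dk F bd fo e X x ζ) (hy : IsZeta dk F bd fo e X y ζ) :
    ∀ᶠ n in FF (κ X), n ∈ X → ∀ a ∈ NO dk F bd fo e y, a < om n →
      ∃ b ∈ NO dk F bd fo e x, b < om n ∧ a ≤ b := by
  classical
  by_contra hcon
  let P : ℕ → Ordinal.{0} → Prop := fun n a => a ∈ NO dk F bd fo e y ∧ a < om n ∧
    ∀ b ∈ NO dk F bd fo e x, b < om n → b < a
  have hfreq : ∃ᶠ n in FF (κ X), n ∈ X ∧ ∃ a, P n a := by
    intro h
    refine hcon (h.mono fun n hn hnX a ha han => ?_)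
    by_contra hno
    push Not at hno
    exact hn ⟨hnX, a, ha, han, fun b hb hbn => hno b hb hbn⟩
  let A : ℕ → Ordinal.{0} := fun n => if h : ∃ a, P n a then h.choose else y 0
  have hA1 : ∀ n, A n ∈ NO dk F bd fo e y := by
    intro n
    by_cases h : ∃ a, P n a
    · simp only [A, dif_pos h]; exact h.choose_spec.1
    · simp only [A, dif_neg h]; exact gen_mem 0
  have hA2 : ∀ n, (∃ a, P n a) → P n (A n) := by
    intro n h
    simp only [A, dif_pos h]; exact h.choose_spec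
  have hk' := bd_mem X hA1
  obtain ⟨k, hk, hkk⟩ := hx.2 _ (hy.1 _ hk')
  have hle : ∀ᶠ n in FF (κ X), F X (bd X fun n => if A n < om n then A n else 0) n ≤ F X k n := by
    rcases hkk.lt_or_eq with h | h
    · exact (hF2 _ _ h).mono fun n hn => hn.le
    · rw [h]; exact Eventually.of_forall fun n => le_rfl
  have hin : InProd (fun n => if A n < om n then A n else 0) := by
    intro n
    by_cases h : A n < om n
    · simp only [if_pos h]; exact h
    · simp only [if_neg h]; exact om_pos n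
  obtain ⟨n, ⟨hnX, hn⟩, h1, h2⟩ := (hfreq.and_eventually ((hbd _ hin).and hle)).exists
  obtain ⟨h3, h4, h5⟩ := hA2 n hn
  have h1' := h1 hnX
  simp only [if_pos h4] at h1'
  exact absurd (h1'.trans h2) (not_le.2 (h5 _ (val_mem hk n) (hF1 k n)))

theorem exists_common {n : ℕ}
    (h1 : ∀ a ∈ NO dk F bd fo e y, a < om (n + 1) →
      ∃ b ∈ NO dk F bd fo e x, b < om (n + 1) ∧ a ≤ b)
    (h2 : ∀ a ∈ NO dk F bd fo e x, a < om (n + 1) →
      ∃ b ∈ NO dk F bd fo e y, b < om (n + 1) ∧ a ≤ b)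
    {a : Ordinal.{0}} (ha : a ∈ NO dk F bd fo e x) (han : a < om (n + 1)) :
    ∃ z, z ∈ NO dk F bd fo e x ∧ z ∈ NO dk F bd fo e y ∧ z < om (n + 1) ∧ a ≤ z := by
  choose! dn hdn1 hdn2 hdn3 using h1
  choose! up hup1 hup2 hup3 using h2
  let s : ℕ → Ordinal.{0} := fun i => Nat.rec a (fun _ o => dn (up o)) i
  have hs1 : ∀ i, s (i + 1) = dn (up (s i)) := fun i => rfl
  have hs : ∀ i, s i ∈ NO dk F bd fo e x ∧ s i < om (n + 1) := by
    intro i
    induction i with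
    | zero => exact ⟨ha, han⟩
    | succ i ih =>
      rw [hs1]
      have h3 := hup1 _ ih.1 ih.2
      have h4 := hup2 _ ih.1 ih.2
      exact ⟨hdn1 _ h3 h4, hdn2 _ h3 h4⟩
  have hu : ∀ i, up (s i) ∈ NO dk F bd fo e y ∧ up (s i) < om (n + 1) := fun i =>
    ⟨hup1 _ (hs i).1 (hs i).2, hup2 _ (hs i).1 (hs i).2⟩
  have heq : (⨆ i, s i) = ⨆ i, up (s i) := by
    apply le_antisymm
    · refine Ordinal.iSup_le fun i => ?_
      exact (hup3 _ (hs i).1 (hs i).2).trans (Ordinal.le_iSup (fun i => up (s i)) i)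
    · refine Ordinal.iSup_le fun i => ?_
      refine le_trans ?_ (Ordinal.le_iSup s (i + 1))
      rw [hs1]
      exact hdn3 _ (hu i).1 (hu i).2
  refine ⟨⨆ i, s i, sup_mem fun i => (hs i).1, ?_, ?_, ?_⟩
  · rw [heq]; exact sup_mem fun i => (hu i).1
  · refine iSup_lt_om ?_ fun i => (hs i).2
    rw [mk_nat, ← al_zero, al_lt]
    exact Nat.succ_pos n
  · exact Ordinal.le_iSup s 0

variable (dk F bd fo e) in
/-- mutual cofinality at level `n` -/
def Agr (x y : ℕ → Ordinal.{0}) (n : ℕ) : Prop :=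
  (∀ a ∈ NO dk F bd fo e y, a < om n → ∃ b ∈ NO dk F bd fo e x, b < om n ∧ a ≤ b) ∧
  (∀ a ∈ NO dk F bd fo e x, a < om n → ∃ b ∈ NO dk F bd fo e y, b < om n ∧ a ≤ b)

theorem Agr.symm {n : ℕ} (h : Agr dk F bd fo e x y n) : Agr dk F bd fo e y x n := ⟨h.2, h.1⟩

theorem Agr.trans {z : ℕ → Ordinal.{0}} {n : ℕ} (h : Agr dk F bd fo e x y n)
    (h' : Agr dk F bd fo e y z n) : Agr dk F bd fo e x z n := by
  constructor
  · intro a ha han
    obtain ⟨b, hb, hbn, hab⟩ := h'.1 a ha han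
    obtain ⟨c, hc, hcn, hbc⟩ := h.1 b hb hbn
    exact ⟨c, hc, hcn, hab.trans hbc⟩
  · intro a ha han
    obtain ⟨b, hb, hbn, hab⟩ := h.2 a ha han
    obtain ⟨c, hc, hcn, hbc⟩ := h'.2 b hb hbn
    exact ⟨c, hc, hcn, hab.trans hbc⟩

theorem eq_step {n : ℕ}
    (hcod : ∀ n z x, z < om (n + 1) → x < z → fo n z x < om n ∧ e n z (fo n z x) = x)
    (hA : Agr dk F bd fo e x y (n + 1))
    (h : ∀ a ∈ NO dk F bd fo e x, a < om n → a ∈ NO dk F bd fo e y)
    {a : Ordinal.{0}} (ha : a ∈ NO dk F bd fo e x) (han : a < om (n + 1)) :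
    a ∈ NO dk F bd fo e y := by
  obtain ⟨z, hz1, hz2, hz3, hz4⟩ := exists_common hA.1 hA.2 (suc_mem ha) (add_one_lt_om han)
  have haz : a < z := (Order.lt_add_one_iff.2 le_rfl).trans_le hz4
  obtain ⟨h3, h4⟩ := hcod n z a hz3 haz
  rw [← h4]
  exact e_mem hz2 (h _ (fo_mem hz1 ha) h3)

theorem eq_of_code
    (hcod : ∀ n z x, z < om (n + 1) → x < z → fo n z x < om n ∧ e n z (fo n z x) = x) {m : ℕ}
    (hA : ∀ n ≥ m, Agr dk F bd fo e x y n)
    (h3 : ∀ a < om m, a ∈ NO dk F bd fo e x → a ∈ NO dk F bd fo e y) :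
    ∀ a < ω_ ω, a ∈ NO dk F bd fo e x → a ∈ NO dk F bd fo e y := by
  have key : ∀ n, ∀ a < om (m + n), a ∈ NO dk F bd fo e x → a ∈ NO dk F bd fo e y := by
    intro n
    induction n with
    | zero => exact h3
    | succ n ih =>
      intro a ha hax
      exact eq_step hcod (hA _ (by omega)) (fun a h4 h5 => ih a h5 h4) hax ha
  intro a ha hax
  obtain ⟨n, hn⟩ := exists_om_of_lt ha
  exact key n a (hn.trans_le (om_le.2 (by omega))) hax

end

open Cov (Om mk_Om sq sq_lt)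

section

variable {κ : Set ℕ → Cardinal.{0}} {dk : ∀ X, KT (κ X)} {F : ∀ X, KT (κ X) → ℕ → Ordinal.{0}}
  {bd : ∀ X, (ℕ → Ordinal.{0}) → KT (κ X)} {fo e : ℕ → Ordinal.{0} → Ordinal.{0} → Ordinal.{0}}

/-- coding the eventual agreement classes -/
theorem exists_classes (hSL : SL) (hreg : ∀ X, (κ X).IsRegular) (hκ : ∀ X, ℵ_ ω < κ X)
    (hF1 : ∀ X k, InProd (F X k))
    (hF2 : ∀ X k k', k < k' → ∀ᶠ n in FF (κ X), F X k n < F X k' n)
    (hbd : ∀ X a, InProd a → ∀ᶠ n in FF (κ X), n ∈ X → a n ≤ F X (bd X a) n)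
    (hlam : ∀ X, (¬ ∀ᶠ n in atTop, n ∉ X) → κ X = lam X)
    {M : Type} (hM0 : ℵ_ ω ≤ #M) (hM : lam univ ≤ #M) :
    ∀ c : Cardinal.{0}, ∀ X, lam X = c → ∀ 𝒮 : Set (ℕ → Om),
      (∀ x ∈ 𝒮, ∀ y ∈ 𝒮, ∀ᶠ n in atTop, n ∉ X → Agr dk F bd fo e (sq x) (sq y) n) →
      ∃ code : (ℕ → Om) → M, ∀ x ∈ 𝒮, ∀ y ∈ 𝒮, code x = code y →
        ∀ᶠ n in atTop, Agr dk F bd fo e (sq x) (sq y) n := by
  classical
  have hMne : Nonempty M := by
    rw [← mk_ne_zero_iff]
    exact (aleph0_pos.trans_le (aleph0_le_omega.trans hM0)).ne'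
  have hMinf : ℵ₀ ≤ #M := aleph0_le_omega.trans hM0
  intro c
  induction c using WellFoundedLT.induction with
  | ind c ih =>
  intro X hX 𝒮 h𝒮
  by_cases hfin : ∀ᶠ n in atTop, n ∉ X
  · refine ⟨fun _ => hMne.some, fun x hx y hy _ => ?_⟩
    filter_upwards [h𝒮 x hx y hy, hfin] with n h1 h2 using h1 h2
  have hκX : κ X = c := by rw [hlam X hfin, hX]
  choose ζ hζ using fun x : ℕ → Om => exists_zeta (dk := dk) (F := F) (bd := bd) (fo := fo)
    (e := e) hSL (hreg X) (hκ X) (sq x)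
  obtain ⟨x00⟩ : Nonempty (ℕ → Om) := by
    have : Nonempty Om := by
      rw [← mk_ne_zero_iff, mk_Om]; exact (aleph0_pos.trans_le aleph0_le_omega).ne'
    infer_instance
  let R : KT (κ X) → (ℕ → Om) := fun z => if h : ∃ x ∈ 𝒮, ζ x = z then h.choose else x00
  have hR : ∀ x ∈ 𝒮, R (ζ x) ∈ 𝒮 ∧ ζ (R (ζ x)) = ζ x := by
    intro x hx
    have h : ∃ x' ∈ 𝒮, ζ x' = ζ x := ⟨x, hx, rfl⟩
    simp only [R, dif_pos h]; exact h.choose_spec
  let Y : (ℕ → Om) → Set ℕ := fun x =>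
    {n | n ∈ X ∧ ¬ Agr dk F bd fo e (sq x) (sq (R (ζ x))) n}
  have hYlam : ∀ x ∈ 𝒮, lam (Y x) < c := by
    intro x hx
    have h1 := hR x hx
    have h2 := cofinal_of_zeta_eq (hF1 X) (hF2 X) (hbd X) (hζ x) (by
      have := hζ (R (ζ x))
      rwa [h1.2] at this)
    have h3 := cofinal_of_zeta_eq (hF1 X) (hF2 X) (hbd X) (by
      have := hζ (R (ζ x))
      rwa [h1.2] at this) (hζ x)
    have h4 : ∀ᶠ n in FF (κ X), n ∈ X → Agr dk F bd fo e (sq x) (sq (R (ζ x))) n := by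
      filter_upwards [h2, h3] with n h5 h6 hnX using ⟨h5 hnX, h6 hnX⟩
    have h5 : Sm (κ X) {n | n ∈ X → Agr dk F bd fo e (sq x) (sq (R (ζ x))) n}ᶜ :=
      (mem_FF (hreg X).aleph0_le).1 h4
    rw [← hκX, ← Sm_iff]
    refine Sm.mono ?_ h5
    filter_upwards with n hn h6
    exact hn.2 (h6 hn.1)
  have hfib : ∀ p : KT (κ X) × Set ℕ, ∃ code : (ℕ → Om) → M,
      ∀ x ∈ {x | x ∈ 𝒮 ∧ ζ x = p.1 ∧ Y x = p.2}, ∀ y ∈ {x | x ∈ 𝒮 ∧ ζ x = p.1 ∧ Y x = p.2},
        code x = code y → ∀ᶠ n in atTop, Agr dk F bd fo e (sq x) (sq y) n := by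
    rintro ⟨z, Y0⟩
    by_cases hne : ∃ x, x ∈ 𝒮 ∧ ζ x = z ∧ Y x = Y0
    · obtain ⟨x, hx, hxz, hxY⟩ := hne
      refine ih (lam Y0) (by rw [← hxY]; exact hYlam x hx) Y0 rfl _ ?_
      rintro a ⟨ha, haz, haY⟩ b ⟨hb, hbz, hbY⟩
      filter_upwards [h𝒮 a ha b hb] with n hn hnY
      by_cases hnX : n ∈ X
      · have h1 : Agr dk F bd fo e (sq a) (sq (R z)) n := by
          by_contra hcon
          refine hnY ?_
          rw [← show Y a = Y0 from haY]
          refine ⟨hnX, ?_⟩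
          rw [show ζ a = z from haz]
          exact hcon
        have h2 : Agr dk F bd fo e (sq b) (sq (R z)) n := by
          by_contra hcon
          refine hnY ?_
          rw [← show Y b = Y0 from hbY]
          refine ⟨hnX, ?_⟩
          rw [show ζ b = z from hbz]
          exact hcon
        exact h1.trans h2.symm
      · exact hn hnX
    · refine ⟨fun _ => hMne.some, fun x hx => ?_⟩
      exact absurd ⟨x, hx.1, hx.2.1, hx.2.2⟩ hne
  choose code hcode using hfib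
  have hemb : #((KT (κ X) × Set ℕ) × M) ≤ #M := by
    rw [mk_prod, mk_prod, mk_KT, mk_set, mk_nat]
    simp only [Cardinal.lift_id]
    have h1 : κ X ≤ #M := by
      rw [hκX, ← hX]
      exact (lam_mono (Eventually.of_forall fun n _ => mem_univ n)).trans hM
    have h2 : (2 : Cardinal.{0}) ^ ℵ₀ ≤ #M := by
      have := (hSL 0).le
      rw [al_zero] at this
      exact this.trans hM0
    exact (mul_le_mul' ((mul_le_mul' h1 h2).trans (mul_eq_self hMinf).le) le_rfl).trans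
      (mul_eq_self hMinf).le
  obtain ⟨j⟩ := hemb
  refine ⟨fun x => j ((ζ x, Y x), code (ζ x, Y x) x), fun x hx y hy hxy => ?_⟩
  have h1 := j.injective hxy
  have h2 : (ζ x, Y x) = (ζ y, Y y) := congrArg Prod.fst h1
  have h3 : code (ζ x, Y x) x = code (ζ y, Y y) y := congrArg Prod.snd h1
  rw [← h2] at h3
  have h4 : ζ y = ζ x := (congrArg Prod.fst h2).symm
  have h5 : Y y = Y x := (congrArg Prod.snd h2).symm
  exact hcode (ζ x, Y x) x ⟨hx, rfl, rfl⟩ y ⟨hy, h4, h5⟩ h3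

end

/-- the number of sequences is bounded by the cofinality of the product -/
theorem mk_seq_le (hSL : SL) {c : Cardinal.{0}} (hc0 : ℵ_ ω ≤ c) (hc : lam univ ≤ c) :
    #(ℕ → Om) ≤ c := by
  classical
  obtain ⟨fo, e, hcod⟩ := Cov.exists_coding
  choose κ F hreg hκ hF1 hF2 hF3 hlam using fun X => exists_sc hSL X
  have hKne : ∀ X, Nonempty (KT (κ X)) := fun X => nonempty_KT (hreg X)
  choose! bd hbd using hF3
  have dk : ∀ X, KT (κ X) := fun X => (nonempty_KT (hreg X)).some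
  obtain ⟨M, hM⟩ : ∃ M : Type, #M = c := ⟨c.out, mk_out c⟩
  obtain ⟨cl, hcl⟩ := exists_classes (dk := dk) (F := F) (bd := bd) (fo := fo) (e := e) hSL hreg
    hκ hF1 hF2 hbd hlam (M := M) (by rwa [hM]) (by rwa [hM]) _ univ rfl univ
    (fun x _ y _ => Eventually.of_forall fun n hn => absurd (mem_univ n) hn)
  have hcl' : ∀ x y, cl x = cl y → ∃ m, ∀ n ≥ m, Agr dk F bd fo e (sq x) (sq y) n := by
    intro x y hxy
    exact eventually_atTop.1 (hcl x (mem_univ x) y (mem_univ y) hxy)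
  obtain ⟨x00⟩ : Nonempty (ℕ → Om) := by
    have : Nonempty Om := by
      rw [← mk_ne_zero_iff, mk_Om]; exact (aleph0_pos.trans_le aleph0_le_omega).ne'
    infer_instance
  let R : M → (ℕ → Om) := fun z => if h : ∃ x, cl x = z then h.choose else x00
  have hR : ∀ x, cl (R (cl x)) = cl x := by
    intro x
    have h : ∃ x', cl x' = cl x := ⟨x, rfl⟩
    simp only [R, dif_pos h]; exact h.choose_spec
  choose m hm using fun x => hcl' x (R (cl x)) (hR x).symm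
  let S : (ℕ → Om) → (n : ℕ) → Set (om n).ToType := fun x n =>
    {i | (ToType.mk.symm i).1 ∈ NO dk F bd fo e (sq x)}
  let code : (ℕ → Om) → M × (Σ n : ℕ, Set (om n).ToType) := fun x => (cl x, ⟨m x, S x (m x)⟩)
  have hsub : ∀ x y, code x = code y → ∀ a < ω_ ω, a ∈ NO dk F bd fo e (sq x) →
      a ∈ NO dk F bd fo e (sq y) := by
    intro x y hxy
    have h1 : cl x = cl y := congrArg Prod.fst hxy
    have h2 := congrArg Prod.snd hxy
    obtain ⟨h3, h4⟩ := Sigma.mk.inj_iff.1 h2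
    rw [← h3] at h4
    have h5 : S x (m x) = S y (m x) := eq_of_heq h4
    refine eq_of_code hcod (m := m x) ?_ ?_
    · intro n hn
      have h6 := hm x n hn
      have h7 := hm y n (by rw [← h3]; exact hn)
      rw [← h1] at h7
      exact h6.trans h7.symm
    · intro a ha hax
      have h6 : ToType.mk ⟨a, ha⟩ ∈ S x (m x) := by
        simp only [S, mem_ofPred_eq, OrderIso.symm_apply_apply]; exact hax
      rw [h5] at h6
      simpa only [S, mem_ofPred_eq, OrderIso.symm_apply_apply] using h6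
  have hWT : #(ℕ → WT) ≤ ℵ_ ω := by
    rw [← power_def, mk_nat]
    refine (power_le_power_right mk_WT).trans ?_
    rw [← power_mul, aleph0_mul_aleph0]
    have := (hSL 0).le
    rwa [al_zero] at this
  have hfib : ∀ b, #(code ⁻¹' {b}) ≤ ℵ_ ω := by
    intro b
    by_cases hne : (code ⁻¹' {b}).Nonempty
    · obtain ⟨x0, hx0⟩ := hne
      have hx0' : code x0 = b := hx0
      have hw : ∀ (x : code ⁻¹' {b}) (n : ℕ), ∃ w : WT,
          ev dk F bd fo e (sq x0) w = Sum.inl (sq x.1 n) := by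
        intro x n
        have hx : code x.1 = b := x.2
        exact hsub x.1 x0 (hx.trans hx0'.symm) _ (sq_lt x.1 n) (gen_mem n)
      choose w hw using hw
      refine (mk_le_of_injective (f := w) ?_).trans hWT
      intro x y hxy
      apply Subtype.ext
      funext n
      have h1 := hw x n
      rw [hxy, hw y n] at h1
      have h2 : sq y.1 n = sq x.1 n := Sum.inl_injective h1
      have h3 : ToType.mk.symm (y.1 n) = ToType.mk.symm (x.1 n) := Subtype.ext h2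
      exact (ToType.mk.symm.injective h3).symm
    · rw [not_nonempty_iff_eq_empty.1 hne, mk_eq_zero]
      exact zero_le
  refine (mk_le_mk_mul_of_mk_preimage_le code hfib).trans ?_
  have h1 : #(Σ n : ℕ, Set (om n).ToType) ≤ ℵ_ ω := by
    rw [mk_sigma]
    refine (sum_le_sum _ (fun _ => ℵ_ ω) fun n => ?_).trans ?_
    · rw [mk_set, mk_toType, card_om]; exact (hSL n).le
    · rw [sum_const, mk_nat]
      simp only [Cardinal.lift_id]
      rw [mul_eq_max le_rfl aleph0_le_omega]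
      exact max_le aleph0_le_omega le_rfl
  rw [mk_prod, Cardinal.lift_id, Cardinal.lift_id, hM]
  have h3 : ℵ₀ ≤ c := aleph0_le_omega.trans hc0
  calc c * #(Σ n : ℕ, Set (om n).ToType) * ℵ_ ω ≤ c * c * c :=
        mul_le_mul' (mul_le_mul' le_rfl (h1.trans hc0)) hc0
    _ = c := by rw [mul_eq_self h3, mul_eq_self h3]

/-- **The power of aleph_omega.** If aleph_omega is a strong limit, then `2 ^ ℵ_ω` is at most the
size of any family dominating the product of the `ω_n` modulo finite. -/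
theorem pow_le_lam (hSL : SL) : (2 : Cardinal.{0}) ^ (ℵ_ ω) ≤ lam univ := by
  have h0 : ℵ_ ω < lam univ := lt_lam fun h => by
    obtain ⟨n, hn⟩ := h.exists
    exact hn (mem_univ n)
  have h1 : ℵ_ ω ≤ sum (fun n : ℕ => al n) := by
    by_contra hcon
    obtain ⟨n, hn⟩ := exists_al_of_lt (not_le.1 hcon)
    exact absurd hn (not_lt.2 (le_sum (fun n : ℕ => al n) n))
  calc (2 : Cardinal.{0}) ^ (ℵ_ ω) ≤ 2 ^ sum (fun n : ℕ => al n) :=
        power_le_power_left two_ne_zero h1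
    _ = prod (fun n : ℕ => (2 : Cardinal.{0}) ^ al n) := power_sum _ _
    _ ≤ prod (fun _ : ℕ => ℵ_ ω) := prod_le_prod _ _ fun n => (hSL n).le
    _ = #(ℕ → Om) := by rw [prod_const', ← power_def, mk_Om]
    _ ≤ lam univ := mk_seq_le hSL h0.le le_rfl

end CovG

/-- dominating families have size at least `2 ^ ℵ_ω` -/
theorem pow_le_of_dominatingG (hSL : SL) {ι : Type} (G : ι → ℕ → Ordinal.{0})
    (hG : ∀ i, InProd (G i)) (hdom : ∀ f, InProd f → ∃ i, ∀ᶠ n in atTop, f n ≤ G i n) :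
    (2 : Cardinal.{0}) ^ (ℵ_ ω) ≤ #ι := by
  refine (CovG.pow_le_lam hSL).trans ?_
  rw [← Order.lt_succ_iff, ← Sm_iff]
  refine ⟨ι, G, Order.lt_succ _, hG, fun f hf => ?_⟩
  obtain ⟨i, hi⟩ := hdom f hf
  exact ⟨i, hi.mono fun n hn _ => hn⟩

end

end Run7.h121
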