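import Pool.Agent.Run7.h121.NoHole

/-!
# A covering lemma and the level above
-/

namespace Run7.h121

noncomputable section

open Cardinal Ordinal Set Filter

/-- `S` has size at most `κ` -/
def Sz (κ : Cardinal.{0}) (S : Set Ordinal.{0}) : Prop :=
  ∃ (ι : Type) (v : ι → Ordinal.{0}), #ι ≤ κ ∧ S ⊆ range v

theorem Sz.mono {κ κ' : Cardinal.{0}} {S T : Set Ordinal.{0}} (h : Sz κ S) (hκ : κ ≤ κ')
    (hT : T ⊆ S) : Sz κ' T := by
  obtain ⟨ι, v, hι, hv⟩ := h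
  exact ⟨ι, v, hι.trans hκ, hT.trans hv⟩

theorem Sz.union {κ : Cardinal.{0}} (hκ : ℵ₀ ≤ κ) {S T : Set Ordinal.{0}} (hS : Sz κ S)
    (hT : Sz κ T) : Sz κ (S ∪ T) := by
  obtain ⟨ι, v, hι, hv⟩ := hS
  obtain ⟨ι', v', hι', hv'⟩ := hT
  refine ⟨ι ⊕ ι', Sum.elim v v', ?_, ?_⟩
  · rw [mk_sum, Cardinal.lift_id, Cardinal.lift_id]
    exact (add_le_add hι hι').trans (add_eq_self hκ).le
  · rintro o (ho | ho)
    · obtain ⟨i, rfl⟩ := hv ho
      exact ⟨Sum.inl i, rfl⟩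
    · obtain ⟨i, rfl⟩ := hv' ho
      exact ⟨Sum.inr i, rfl⟩

theorem Sz.range {κ : Cardinal.{0}} {ι : Type} (hι : #ι ≤ κ) (v : ι → Ordinal.{0}) :
    Sz κ (range v) := ⟨ι, v, hι, subset_rfl⟩

section

variable (fo e : ℕ → Ordinal.{0} → Ordinal.{0} → Ordinal.{0})

/-- one closure step -/
def stp (S : Set Ordinal.{0}) : Set Ordinal.{0} :=
  S ∪ {o | ∃ n, ∃ a ∈ S, ∃ b ∈ S, o = fo n a b ∨ o = e n a b}

/-- the closure -/
def Cl (S : Set Ordinal.{0}) : Set Ordinal.{0} := ⋃ k : ℕ, (stp fo e)^[k] S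

variable {fo e}

theorem Sz.step {κ : Cardinal.{0}} (hκ : ℵ₀ ≤ κ) {S : Set Ordinal.{0}} (hS : Sz κ S) :
    Sz κ (stp fo e S) := by
  refine hS.union hκ ?_
  obtain ⟨ι, v, hι, hv⟩ := hS
  refine ⟨(ℕ × Bool) × (ι × ι), fun p => if p.1.2 then fo p.1.1 (v p.2.1) (v p.2.2) else
    e p.1.1 (v p.2.1) (v p.2.2), ?_, ?_⟩
  · simp only [mk_prod, Cardinal.lift_id]
    have h1 : #ℕ * #Bool ≤ κ := by
      have : #(ℕ × Bool) ≤ κ := (mk_le_aleph0).trans hκ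
      simpa only [mk_prod, Cardinal.lift_id] using this
    exact (mul_le_mul' h1 ((mul_le_mul' hι hι).trans (mul_eq_self hκ).le)).trans
      (mul_eq_self hκ).le
  · rintro o ⟨n, a, ha, b, hb, h | h⟩
    · obtain ⟨i, rfl⟩ := hv ha
      obtain ⟨j, rfl⟩ := hv hb
      exact ⟨((n, true), (i, j)), by simp [h]⟩
    · obtain ⟨i, rfl⟩ := hv ha
      obtain ⟨j, rfl⟩ := hv hb
      exact ⟨((n, false), (i, j)), by simp [h]⟩

theorem Sz.cl {κ : Cardinal.{0}} (hκ : ℵ₀ ≤ κ) {S : Set Ordinal.{0}} (hS : Sz κ S) :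
    Sz κ (Cl fo e S) := by
  have h1 : ∀ k : ℕ, Sz κ ((stp fo e)^[k] S) := by
    intro k
    induction k with
    | zero => exact hS
    | succ k ih =>
      rw [Function.iterate_succ_apply']
      exact ih.step hκ
  choose ι v hι hv using h1
  refine ⟨Σ k : ℕ, ι k, fun p => v p.1 p.2, ?_, ?_⟩
  · rw [mk_sigma]
    refine (sum_le_sum _ (fun _ => κ) hι).trans ?_
    rw [sum_const, mk_nat, Cardinal.lift_id, Cardinal.lift_id]
    exact (mul_le_mul' hκ le_rfl).trans (mul_eq_self hκ).le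
  · intro o ho
    obtain ⟨k, hk⟩ := mem_iUnion.1 ho
    obtain ⟨i, hi⟩ := hv k hk
    exact ⟨⟨k, i⟩, hi⟩

theorem subset_stp (S : Set Ordinal.{0}) : S ⊆ stp fo e S := subset_union_left

theorem iter_mono (S : Set Ordinal.{0}) {k l : ℕ} (h : k ≤ l) :
    (stp fo e)^[k] S ⊆ (stp fo e)^[l] S := by
  induction l, h using Nat.le_induction with
  | base => exact subset_rfl
  | succ l _ ih =>
    rw [Function.iterate_succ_apply']
    exact ih.trans (subset_stp _)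

theorem subset_Cl (S : Set Ordinal.{0}) : S ⊆ Cl fo e S := fun _ ho =>
  mem_iUnion.2 ⟨0, ho⟩

theorem Cl_op {S : Set Ordinal.{0}} {a b : Ordinal.{0}} (ha : a ∈ Cl fo e S)
    (hb : b ∈ Cl fo e S) (n : ℕ) : fo n a b ∈ Cl fo e S ∧ e n a b ∈ Cl fo e S := by
  obtain ⟨k, hk⟩ := mem_iUnion.1 ha
  obtain ⟨l, hl⟩ := mem_iUnion.1 hb
  have h1 := iter_mono (fo := fo) (e := e) S (le_max_left k l) hk
  have h2 := iter_mono (fo := fo) (e := e) S (le_max_right k l) hl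
  constructor
  · refine mem_iUnion.2 ⟨max k l + 1, ?_⟩
    rw [Function.iterate_succ_apply']
    exact Or.inr ⟨n, a, h1, b, h2, Or.inl rfl⟩
  · refine mem_iUnion.2 ⟨max k l + 1, ?_⟩
    rw [Function.iterate_succ_apply']
    exact Or.inr ⟨n, a, h1, b, h2, Or.inr rfl⟩

theorem Cl_min {S T : Set Ordinal.{0}} (hST : S ⊆ T)
    (hT : ∀ a ∈ T, ∀ b ∈ T, ∀ n, fo n a b ∈ T ∧ e n a b ∈ T) : Cl fo e S ⊆ T := by
  have key : ∀ k : ℕ, ∀ o ∈ (stp fo e)^[k] S, o ∈ T := by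
    intro k
    induction k with
    | zero => exact fun o ho => hST ho
    | succ k ih =>
      intro o hk
      rw [Function.iterate_succ_apply'] at hk
      rcases hk with hk | ⟨n, a, ha, b, hb, h | h⟩
      · exact ih o hk
      · rw [h]
        exact (hT a (ih a ha) b (ih b hb) n).1
      · rw [h]
        exact (hT a (ih a ha) b (ih b hb) n).2
  intro o ho
  obtain ⟨k, hk⟩ := mem_iUnion.1 ho
  exact key k o hk

theorem Cl_mono {S T : Set Ordinal.{0}} (h : S ⊆ T) : Cl fo e S ⊆ Cl fo e T :=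
  Cl_min (h.trans (subset_Cl T)) fun _ ha _ hb n => Cl_op ha hb n

end

/-- a small set has a bound below `ω_i` -/
theorem Sz.exists_bound {κ : Cardinal.{0}} {S : Set Ordinal.{0}} (hS : Sz κ S) {i : ℕ}
    (hκ : κ < al i) : ∃ z < om i, ∀ o ∈ S, o < om i → o < z := by
  classical
  obtain ⟨ι, v, hι, hv⟩ := hS
  refine ⟨⨆ j : {j // v j < om i}, (v j.1 + 1), ?_, fun o ho hoi => ?_⟩
  · exact iSup_add_one_lt_om (((mk_subtype_le _).trans hι).trans_lt hκ) fun j => j.2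
  · obtain ⟨j, rfl⟩ := hv ho
    exact (Order.lt_add_one_iff.2 le_rfl).trans_le
      (Ordinal.le_iSup (fun j : {j // v j < om i} => v j.1 + 1) ⟨j, hoi⟩)

/-- **Covering lemma.** -/
theorem covering {A : Set ℕ} (hA : Gen A) {B : Type} (hBc : #B ≤ kp) (x : B → ℕ → Ordinal.{0})
    (gg : ℕ → ℕ) (hx : ∀ b n, x b n < om (gg n)) :
    ∃ H : ℕ → Set Ordinal.{0}, (∀ n, 1 ≤ n → Sz (al n) (H n)) ∧
      ∀ b, ∀ᶠ n in atTop, (∀ i, n < i → i ≤ gg n → i ∉ A) → n ≤ gg n → x b n ∈ H n := by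
  classical
  obtain ⟨fo, e, hcod⟩ := Cov.exists_coding
  let K := KT (al 1)
  have hreg : (al 1).IsRegular := al_regular 1
  have h01 : ℵ₀ < al 1 := by rw [← al_zero, al_lt]; exact Nat.zero_lt_one
  -- the sets of generators
  let S : (ξ : K) → ((ζ : K) → ζ < ξ → {f // InProd f}) → B → Set Ordinal.{0} := fun ξ r b =>
    range (x b) ∪ {o | ∃ (ζ : K) (h : ζ < ξ) (i : ℕ), o = (r ζ h).1 i}
  have key : ∀ (ξ : K) (r : (ζ : K) → ζ < ξ → {f // InProd f}), ∃ g : {f // InProd f},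
      ∀ b, ∀ᶠ i in atTop, i ∉ A → ∀ o ∈ Cl fo e (S ξ r b), o < om i → o < g.1 i := by
    intro ξ r
    have hS : ∀ b, Sz ℵ₀ (S ξ r b) := by
      intro b
      refine (Sz.range (by simp) (x b)).union le_rfl ?_
      refine ⟨Iio ξ × ℕ, fun p => (r p.1.1 p.1.2).1 p.2, ?_, ?_⟩
      · rw [mk_prod, Cardinal.lift_id, Cardinal.lift_id, mk_nat]
        have h1 : #(Iio ξ) < al 1 := mk_Iio_KT ξ
        have h2 : al 1 = Order.succ ℵ₀ := by rw [← al_zero, ← al_succ]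
        have h3 : #(Iio ξ) ≤ ℵ₀ := Order.lt_succ_iff.1 (h1.trans_eq h2)
        exact (mul_le_mul' h3 le_rfl).trans aleph0_mul_aleph0.le
      · rintro o ⟨ζ, h, i, rfl⟩
        exact ⟨(⟨ζ, h⟩, i), rfl⟩
    have hz : ∀ b i, ∃ z < om i, 1 ≤ i → ∀ o ∈ Cl fo e (S ξ r b), o < om i → o < z := by
      intro b i
      by_cases hi : 1 ≤ i
      · obtain ⟨z, hz1, hz2⟩ := ((hS b).cl (fo := fo) (e := e) le_rfl).exists_bound (i := i)
          (h01.trans_le (al_le.2 hi))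
        exact ⟨z, hz1, fun _ => hz2⟩
      · exact ⟨0, om_pos i, fun h => absurd h hi⟩
    choose z hz1 hz2 using hz
    obtain ⟨g, hg, hgz⟩ := hA.dir' hBc z hz1
    refine ⟨⟨g, hg⟩, fun b => ?_⟩
    filter_upwards [hgz b, eventually_ge_atTop 1] with i h1 h2 h3 o ho hoi
    exact (hz2 b i h2 o ho hoi).trans_le (h1 h3)
  choose N hN using key
  let h : K → {f // InProd f} := WellFounded.fix (wellFounded_lt) N
  have hh : ∀ ξ, h ξ = N ξ (fun ζ _ => h ζ) := fun ξ => WellFounded.fix_eq _ _ _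
  -- all generators
  let T : B → K → Set Ordinal.{0} := fun b ξ =>
    range (x b) ∪ {o | ∃ (ζ : K) (_ : ζ < ξ) (i : ℕ), o = (h ζ).1 i}
  let T' : B → Set Ordinal.{0} := fun b => range (x b) ∪ {o | ∃ (ζ : K) (i : ℕ), o = (h ζ).1 i}
  have hstep : ∀ ξ b, ∀ᶠ i in atTop, i ∉ A → ∀ o ∈ Cl fo e (T b ξ), o < om i →
      o < (h ξ).1 i := by
    intro ξ b
    have := hN ξ (fun ζ _ => h ζ) b
    rw [← hh] at this
    exact this
  have hTmono : ∀ b ξ ξ', ξ ≤ ξ' → T b ξ ⊆ T b ξ' := by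
    intro b ξ ξ' hle
    rintro o (ho | ⟨ζ, hζ, i, rfl⟩)
    · exact Or.inl ho
    · exact Or.inr ⟨ζ, hζ.trans_le hle, i, rfl⟩
  have hcomp : ∀ b, ∀ o ∈ Cl fo e (T' b), ∃ ξ, o ∈ Cl fo e (T b ξ) := by
    intro b
    have hne : Nonempty K := nonempty_KT hreg
    refine fun o ho => Cl_min (T := {o | ∃ ξ, o ∈ Cl fo e (T b ξ)}) ?_ ?_ ho
    · rintro o (ho | ⟨ζ, i, rfl⟩)
      · exact ⟨hne.some, subset_Cl _ (Or.inl ho)⟩
      · obtain ⟨ξ, hξ⟩ := exists_bound_KT hreg (ι := Unit) (by simpa using one_lt_aleph0.trans h01)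
          (fun _ => ζ)
        exact ⟨ξ, subset_Cl _ (Or.inr ⟨ζ, hξ (), i, rfl⟩)⟩
    · rintro a ⟨ξ, hξ⟩ b' ⟨ξ', hξ'⟩ n
      have h1 := Cl_mono (fo := fo) (e := e) (hTmono b ξ (max ξ ξ') (le_max_left _ _)) hξ
      have h2 := Cl_mono (fo := fo) (e := e) (hTmono b ξ' (max ξ ξ') (le_max_right _ _)) hξ'
      exact ⟨⟨_, (Cl_op h1 h2 n).1⟩, ⟨_, (Cl_op h1 h2 n).2⟩⟩
  let HS : ℕ → Set Ordinal.{0} := fun n => {o | o < om n} ∪ {o | ∃ (ζ : K) (i : ℕ), o = (h ζ).1 i}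
  refine ⟨fun n => Cl fo e (HS n), fun n hn => ?_, fun b => ?_⟩
  · refine Sz.cl (aleph0_le_al n) (Sz.union (aleph0_le_al n) ?_ ?_)
    · refine ⟨(om n).ToType, fun i => (ToType.mk.symm i).1, ?_, ?_⟩
      · rw [mk_toType, card_om]
      · intro o ho
        exact ⟨ToType.mk ⟨o, ho⟩, by simp⟩
    · refine ⟨K × ℕ, fun p => (h p.1).1 p.2, ?_, ?_⟩
      · rw [mk_prod, Cardinal.lift_id, Cardinal.lift_id, mk_KT, mk_nat]
        exact (mul_le_mul' (al_le.2 hn) (aleph0_le_al n)).trans (mul_eq_self (aleph0_le_al n)).le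
      · rintro o ⟨ζ, i, rfl⟩
        exact ⟨(ζ, i), rfl⟩
  · choose ib hib using fun ξ => eventually_atTop.1 (hstep ξ b)
    obtain ⟨m, hm⟩ := exists_cofinal_value_KT hreg (by rw [mk_nat]; exact h01) ib
    filter_upwards [eventually_ge_atTop m] with n hn hnA hng
    have claim : ∀ i, n ≤ i → i ≤ gg n → ∀ o ∈ Cl fo e (T' b), o < om i →
        o ∈ Cl fo e (HS n) := by
      intro i hi
      induction i, hi using Nat.le_induction with
      | base =>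
        intro _ o _ ho
        exact subset_Cl _ (Or.inl ho)
      | succ i hi ih =>
        intro hig o ho hoi
        obtain ⟨ξ0, hξ0⟩ := hcomp b o ho
        obtain ⟨ξ, hξ, hξm⟩ := hm ξ0
        have h1 := Cl_mono (fo := fo) (e := e) (hTmono b ξ0 ξ hξ.le) hξ0
        have h2 := hib ξ (i + 1) (by omega) (hnA _ (by omega) hig) o h1 hoi
        have h3 := hcod i _ o ((h ξ).2 (i + 1)) h2
        have hz1 : (h ξ).1 (i + 1) ∈ Cl fo e (T' b) := subset_Cl _ (Or.inr ⟨ξ, i + 1, rfl⟩)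
        have hz2 : (h ξ).1 (i + 1) ∈ Cl fo e (HS n) := subset_Cl _ (Or.inr ⟨ξ, i + 1, rfl⟩)
        have h4 := ih (by omega) _ (Cl_op hz1 ho i).1 h3.1
        have h5 := (Cl_op hz2 h4 i).2
        rwa [h3.2] at h5
    exact claim (gg n) hng le_rfl _ (subset_Cl _ (Or.inl ⟨n, rfl⟩)) (hx b n)

end

end Run7.h121
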