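import Pool.Agent.Run7.h121.Lub

/-!
# Ultrafilters of small character which are decomposable at every `ω_n`
-/

namespace Run7.h121

noncomputable section

open Cardinal Ordinal Set Filter

/-- the pcf data: `A` carries a cofinal family of size aleph_{omega+1}, and outside `A` all such
families are bounded; `A` and its complement are infinite. -/
structure Gen (A : Set ℕ) : Prop where
  cof : ∃ F : KK → ℕ → Ordinal.{0}, (∀ k, InProd (F k)) ∧
      ∀ f, InProd f → ∃ k, ∀ᶠ n in atTop, n ∈ A → f n ≤ F k n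
  dir : ∀ G : KK → ℕ → Ordinal.{0}, (∀ k, InProd (G k)) →
      ∃ g, InProd g ∧ ∀ k, ∀ᶠ n in atTop, n ∉ A → G k n ≤ g n
  inf : ∀ m, ∃ n ≥ m, n ∈ A
  coinf : ∀ m, ∃ n ≥ m, n ∉ A

theorem exists_gen (hSL : SL) (hpow : kp < (2 : Cardinal.{0}) ^ (ℵ_ ω)) : ∃ A, Gen A := by
  obtain ⟨A, ⟨F, hF1, hF2, hF3⟩, hdir⟩ := exists_generator hSL
  refine ⟨A, ⟨F, hF1, hF3⟩, hdir, ?_, ?_⟩
  · by_contra hcon
    push Not at hcon
    obtain ⟨m, hm⟩ := hcon
    refine not_dir hSL fun G hG => ?_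
    obtain ⟨g, hg, hgG⟩ := hdir G hG
    refine ⟨g, hg, fun k => ?_⟩
    filter_upwards [hgG k, eventually_ge_atTop m] with n h1 h2 using h1 (hm n h2)
  · by_contra hcon
    push Not at hcon
    obtain ⟨m, hm⟩ := hcon
    refine absurd (Cov.pow_le_of_scale hSL hF1 hF2 fun f hf => ?_) (not_le.2 hpow)
    obtain ⟨k, hk⟩ := hF3 f hf
    refine ⟨k, ?_⟩
    filter_upwards [hk, eventually_ge_atTop m] with n h1 h2 using h1 (hm n h2)

theorem Gen.dir' {A : Set ℕ} (hA : Gen A) {ι : Type} (hι : #ι ≤ kp) (G : ι → ℕ → Ordinal.{0})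
    (hG : ∀ i, InProd (G i)) :
    ∃ g, InProd g ∧ ∀ i, ∀ᶠ n in atTop, n ∉ A → G i n ≤ g n := by
  by_cases hne : Nonempty ι
  · obtain ⟨σ, hσ⟩ := exists_surj hι
    obtain ⟨g, hg, h⟩ := hA.dir (fun k => G (σ k)) (fun k => hG _)
    refine ⟨g, hg, fun i => ?_⟩
    obtain ⟨k, rfl⟩ := hσ i
    exact h k
  · exact ⟨fun _ => 0, fun n => om_pos n, fun i => absurd ⟨i⟩ hne⟩

variable {α : Type}

/-- `r` is a nonstandard natural number modulo `U` -/
def NS (U : Ultrafilter α) (r : α → ℕ) : Prop := ∀ m, ∀ᶠ x in (U : Filter α), m ≤ r x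

/-- the largest element of `E` below `n` -/
def fl (E : Set ℕ) (n : ℕ) : ℕ := by
  classical
  exact Nat.findGreatest (fun m => m ∈ E) n

theorem fl_le (E : Set ℕ) (n : ℕ) : fl E n ≤ n := by
  classical
  exact Nat.findGreatest_le _

theorem fl_mem {E : Set ℕ} {n m : ℕ} (hm : m ∈ E) (hmn : m ≤ n) : fl E n ∈ E := by
  classical
  exact Nat.findGreatest_spec (P := fun m => m ∈ E) hmn hm

theorem le_fl {E : Set ℕ} {n m : ℕ} (hm : m ∈ E) (hmn : m ≤ n) : m ≤ fl E n := by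
  classical
  exact Nat.le_findGreatest hmn hm

variable {U : Ultrafilter α}

theorem NS.fl {E : Set ℕ} (hE : ∀ m, ∃ n ≥ m, n ∈ E) {r : α → ℕ} (hr : NS U r) :
    NS U (fun x => fl E (r x)) := by
  intro m
  obtain ⟨n, hn, hnE⟩ := hE m
  filter_upwards [hr n] with x hx
  exact hn.trans (le_fl hnE hx)

theorem NS.fl_mem {E : Set ℕ} (hE : ∀ m, ∃ n ≥ m, n ∈ E) {r : α → ℕ} (hr : NS U r) :
    ∀ᶠ x in (U : Filter α), h121.fl E (r x) ∈ E := by
  obtain ⟨n, -, hnE⟩ := hE 0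
  filter_upwards [hr n] with x hx
  exact h121.fl_mem hnE hx

theorem NS.eventually {r : α → ℕ} (hr : NS U r) {P : ℕ → Prop} (h : ∀ᶠ n in atTop, P n) :
    ∀ᶠ x in (U : Filter α), P (r x) := by
  obtain ⟨m, hm⟩ := eventually_atTop.1 h
  filter_upwards [hr m] with x hx using hm _ hx

/-- the data of a small base and functions witnessing decomposability at all `ω_n` -/
structure Dat (U : Ultrafilter α) (B : Set (Set α)) (p : ℕ → α → Ordinal.{0}) (r0 : α → ℕ) :
    Prop where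
  hB : ∀ b ∈ B, b ∈ U
  base : ∀ A ∈ U, ∃ b ∈ B, b ⊆ A
  card : #B ≤ kp
  lt : ∀ m x, p m x < om m
  unif : ∀ m, ∀ ξ < om m, ∀ᶠ x in (U : Filter α), ξ ≤ p m x
  ns : NS U r0

variable {B : Set (Set α)} {p : ℕ → α → Ordinal.{0}} {r0 : α → ℕ} {A : Set ℕ}

/-- the length of agreement -/
def rg (E : Set ℕ) (p : ℕ → α → Ordinal.{0}) (r0 : α → ℕ) (g : ℕ → Ordinal.{0}) (x : α) : ℕ := by
  classical
  exact Nat.findGreatest (fun m => ∀ i ≤ m, i ∈ E → g i ≤ p i x) (r0 x)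

theorem rg_spec {E : Set ℕ} {g : ℕ → Ordinal.{0}} {x : α} {i : ℕ} (hi : 0 < i)
    (h : i ≤ rg E p r0 g x) (hiE : i ∈ E) : g i ≤ p i x := by
  classical
  have h1 : rg E p r0 g x ≠ 0 := by omega
  have h2 := Nat.findGreatest_of_ne_zero (P := fun m => ∀ i ≤ m, i ∈ E → g i ≤ p i x)
    (n := r0 x) rfl h1
  exact h2 i h hiE

theorem Dat.ns_rg (hd : Dat U B p r0) (E : Set ℕ) {g : ℕ → Ordinal.{0}} (hg : InProd g) :
    NS U (rg E p r0 g) := by
  classical
  intro m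
  have h1 : ∀ᶠ x in (U : Filter α), ∀ i ∈ Finset.range (m + 1), g i ≤ p i x :=
    (eventually_all_finset _).2 fun i _ => hd.unif i _ (hg i)
  filter_upwards [h1, hd.ns m] with x h2 h3
  refine Nat.le_findGreatest h3 fun i hi _ => h2 i ?_
  simpa [Finset.mem_range] using Nat.lt_succ_of_le hi

/-- a function is not strongly uniform on levels outside `A`: the levels outside `A` have
large cofinality -/
theorem Dat.exists_bound (hd : Dat U B p r0) (hA : Gen A) {r : α → ℕ} (hr : NS U r)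
    (hrA : ∀ᶠ x in (U : Filter α), r x ∉ A) (q : α → Ordinal.{0}) (hq : ∀ x, q x < om (r x)) :
    ∃ f, InProd f ∧ ∀ᶠ x in (U : Filter α), q x < f (r x) := by
  classical
  by_contra hcon
  push Not at hcon
  have hcon' : ∀ f, InProd f → ∃ b ∈ B, b ⊆ {x | f (r x) ≤ q x} := by
    intro f hf
    have h1 := hcon f hf
    exact hd.base _ h1
  let g : B → ℕ → Ordinal.{0} := fun b n =>
    if h : ∃ x, x ∈ b.1 ∧ r x = n then q h.choose else 0
  have hg : ∀ b, InProd (g b) := by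
    intro b n
    by_cases h : ∃ x, x ∈ b.1 ∧ r x = n
    · simp only [g, dif_pos h]
      have := hq h.choose
      rwa [h.choose_spec.2] at this
    · simp only [g, dif_neg h]; exact om_pos n
  obtain ⟨h, hh, hgh⟩ := hA.dir' hd.card g hg
  obtain ⟨b, hb, hbs⟩ := hcon' (fun n => h n + 1) (fun n => add_one_lt_om (hh n))
  obtain ⟨x, hx1, hx2, hx3⟩ := ((hr.eventually (hgh ⟨b, hb⟩)).and
    (hrA.and (hd.hB b hb))).exists
  have h1 := hx1 hx2
  have h2 : ∃ y, y ∈ b ∧ r y = r x := ⟨x, hx3, rfl⟩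
  simp only [g, dif_pos h2] at h1
  have h3 := hbs h2.choose_spec.1
  have h4 : h (r h2.choose) + 1 ≤ q h2.choose := h3
  rw [h2.choose_spec.2] at h4
  exact absurd (h4.trans h1) (not_le.2 (Order.lt_add_one_iff.2 le_rfl))

/-- Step A: `ω_{ω+1}` many nonstandard numbers have a nonstandard lower bound. -/
theorem Dat.exists_lower (hd : Dat U B p r0) (hA : Gen A) {ι : Type} (hι : #ι ≤ kp)
    (R : ι → α → ℕ) (hR : ∀ i, NS U (R i)) :
    ∃ r, NS U r ∧ ∀ i, ∀ᶠ x in (U : Filter α), r x ≤ R i x := by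
  classical
  by_contra hcon
  push Not at hcon
  have hE := hA.coinf
  -- move into the complement of `A`
  have hE' : ∀ m, ∃ n ≥ m, n ∈ Aᶜ := hE
  have hNS : ∀ i, NS U (fun x => fl Aᶜ (R i x)) := fun i => (hR i).fl hE'
  have hmem : ∀ i, ∀ᶠ x in (U : Filter α), fl Aᶜ (R i x) ∉ A := fun i => (hR i).fl_mem hE'
  choose f hf1 hf2 using fun i => hd.exists_bound hA (hNS i) (hmem i)
    (fun x => p (fl Aᶜ (R i x)) x) (fun x => hd.lt _ _)
  obtain ⟨g, hg, hfg⟩ := hA.dir' hι f hf1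
  obtain ⟨i, hi⟩ := hcon _ (hd.ns_rg Aᶜ hg)
  have hi' : ∀ᶠ x in (U : Filter α), R i x < rg Aᶜ p r0 g x := by
    rw [← Ultrafilter.frequently_iff_eventually] at *
    exact hi
  have h1 := (hNS i).eventually (hfg i)
  have h2 : ∀ᶠ x in (U : Filter α), False := by
    filter_upwards [hi', h1, hmem i, hf2 i, hNS i 1] with x h3 h4 h5 h6 h7
    have h8 := rg_spec (E := Aᶜ) (p := p) (r0 := r0) (g := g) (x := x) (i := fl Aᶜ (R i x))
      (by omega) ((fl_le _ _).trans h3.le) h5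
    exact absurd (h6.trans_le (h4 h5)) (not_lt.2 h8)
  exact h2.exists.elim fun _ h => h

/-- Step B: below some nonstandard number, the functions `p` are strongly uniform on the levels
in `A`. -/
theorem Dat.exists_strong (hd : Dat U B p r0) (hA : Gen A) :
    ∃ r, NS U r ∧ ∀ s : α → ℕ, NS U s → (∀ᶠ x in (U : Filter α), s x ≤ r x) →
      (∀ᶠ x in (U : Filter α), s x ∈ A) → ∀ f, InProd f →
      ∀ᶠ x in (U : Filter α), f (s x) ≤ p (s x) x := by
  obtain ⟨F, hF1, hF2⟩ := hA.cof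
  obtain ⟨r, hr, hrR⟩ := hd.exists_lower hA mk_KK.le (fun k => rg A p r0 (F k))
    (fun k => hd.ns_rg A (hF1 k))
  refine ⟨r, hr, fun s hs hsr hsA f hf => ?_⟩
  obtain ⟨k, hk⟩ := hF2 f hf
  filter_upwards [hsr, hsA, hrR k, hs.eventually hk, hs 1] with x h1 h2 h3 h4 h5
  exact (h4 h2).trans (rg_spec (by omega) (h1.trans h3) h2)

end

end Run7.h121
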