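import Pool.Agent.Run7.h121.Consec

/-!
# The alternative to indecomposability
-/

namespace Run7.h121

noncomputable section

open Cardinal Ordinal Set Filter

variable {α : Type} {U : Ultrafilter α} {B : Set (Set α)} {p : ℕ → α → Ordinal.{0}} {r0 : α → ℕ}
  {A : Set ℕ}

theorem Dat.exists_lev (hd : Dat U B p r0) {r : α → ℕ}
    (hstrong : ∀ s : α → ℕ, NS U s → (∀ᶠ x in (U : Filter α), s x ≤ r x) →
      (∀ᶠ x in (U : Filter α), s x ∈ A) → ∀ f, InProd f →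
      ∀ᶠ x in (U : Filter α), f (s x) ≤ p (s x) x) (hr : NS U r) {E : Set ℕ} (hE : E ⊆ A)
    (hinf : ∀ m, ∃ n ≥ m, n ∈ E) :
    Lev U B (fun x => fl E (r x)) (fun x => p (fl E (r x)) x) :=
  ⟨hd.hB, hd.base, hd.card, hr.fl hinf, fun _ => hd.lt _ _,
    hstrong _ (hr.fl hinf) (Eventually.of_forall fun _ => fl_le _ _)
      ((hr.fl_mem hinf).mono fun _ h => hE h)⟩

/-- closure of `A` under successors at which GCH holds -/
theorem Dat.succ_closed (hd : Dat U B p r0) (hA : Gen A) :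
    ∀ᶠ n in atTop, n ∈ A → (2 : Cardinal.{0}) ^ al n = al (n + 1) → n + 1 ∈ A := by
  obtain ⟨r, hr, hstrong⟩ := hd.exists_strong hA
  by_contra hcon
  let E : Set ℕ := {n | n ∈ A ∧ (2 : Cardinal.{0}) ^ al n = al (n + 1) ∧ n + 1 ∉ A}
  have hE : ∀ m, ∃ n ≥ m, n ∈ E := by
    intro m
    by_contra hno
    push Not at hno
    refine hcon ?_
    filter_upwards [eventually_ge_atTop m] with n hn h1 h2
    by_contra h3
    exact hno n hn ⟨h1, h2, h3⟩
  have hL := hd.exists_lev hstrong hr (E := E) (fun n hn => hn.1) hE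
  have hmem := hr.fl_mem hE
  have h1 := hL.succ_mem hA (hmem.mono fun x hx => hx.2.1)
  obtain ⟨x, h2, h3⟩ := (h1.and hmem).exists
  exact h3.2.2 h2

/-- closure of the complement of `A` under successors at which GCH holds -/
theorem Dat.pred_closed (hd : Dat U B p r0) (hA : Gen A) :
    ∀ᶠ n in atTop, n + 1 ∈ A → (2 : Cardinal.{0}) ^ al n = al (n + 1) → n ∈ A := by
  obtain ⟨r, hr, hstrong⟩ := hd.exists_strong hA
  by_contra hcon
  let E : Set ℕ := {n | ∃ m, n = m + 1 ∧ n ∈ A ∧ (2 : Cardinal.{0}) ^ al m = al (m + 1) ∧ m ∉ A}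
  have hE : ∀ m, ∃ n ≥ m, n ∈ E := by
    intro m
    by_contra hno
    push Not at hno
    refine hcon ?_
    filter_upwards [eventually_ge_atTop m] with n hn h1 h2
    by_contra h3
    exact hno (n + 1) (by omega) ⟨n, rfl, h1, h2, h3⟩
  have hL := hd.exists_lev hstrong hr (E := E) (fun n hn => hn.choose_spec.2.1) hE
  have hmem := hr.fl_mem hE
  obtain ⟨F, hF1, hF2⟩ := hL.pred_level (hmem.mono fun x hx => by
    obtain ⟨m, h1, -, h2, -⟩ := hx
    rw [h1]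
    simpa using h2)
  obtain ⟨g, hg, hgF⟩ := hA.dir' hd.card F hF1
  obtain ⟨b, hb⟩ := hF2 (fun n => g n + 1) (fun n => add_one_lt_om (hg n))
  have hns : NS U (fun x => fl E (r x) - 1) := by
    intro m
    filter_upwards [hr.fl hE (m + 1)] with x hx
    omega
  obtain ⟨x, h1, h2, m, h3, -, -, h4⟩ := (hb.and ((hns.eventually (hgF b)).and hmem)).exists
  have h5 : fl E (r x) - 1 = m := by omega
  rw [h5] at h1 h2
  exact absurd (h1.trans (h2 h4)) (not_le.2 (Order.lt_add_one_iff.2 le_rfl))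

/-- **Dichotomy.** -/
theorem dichotomy (hSL : SL) (hpow : kp < (2 : Cardinal.{0}) ^ (ℵ_ ω)) (hα : #α ≤ ℵ_ ω)
    (hU : ∀ A ∈ U, #A = ℵ_ ω)
    (hB : ∀ b ∈ B, b ∈ U) (hbase : ∀ A ∈ U, ∃ b ∈ B, b ⊆ A) (hBc : #B ≤ kp) :
    (∃ (J : Type) (π : α → J) (k : J → ℕ) (p : α → Ordinal.{0}), Fac U J π ∧
      (∀ m : ℕ, ∀ᶠ x in (U : Filter α), m ≤ k (π x)) ∧ (∀ x, p x < om (k (π x))) ∧
      (∀ f : J → Ordinal.{0}, (∀ j, f j < om (k j)) → ∀ᶠ x in (U : Filter α), f (π x) ≤ p x) ∧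
      ∀ (γ : J → Ordinal.{0}), (∀ j, γ j < om (k j)) → ∀ G : α → Ordinal.{0},
        (∀ᶠ x in (U : Filter α), G x < γ (π x)) →
        ∃ g : J → Ordinal.{0}, ∀ᶠ x in (U : Filter α), G x = g (π x)) ∨
    ((∀ n, DI U n) ∧ ∃ A, Gen A ∧
      (∀ᶠ n in atTop, n ∈ A → (2 : Cardinal.{0}) ^ al n = al (n + 1) → n + 1 ∈ A) ∧
      ∀ᶠ n in atTop, n + 1 ∈ A → (2 : Cardinal.{0}) ^ al n = al (n + 1) → n ∈ A) := by
  by_cases hDI : ∀ n, DI U n
  · right
    obtain ⟨p, r0, hd⟩ := exists_dat hα hU hB hbase hBc hDI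
    obtain ⟨A, hA⟩ := exists_gen hSL hpow
    exact ⟨hDI, A, hA, hd.succ_closed hA, hd.pred_closed hA⟩
  · left
    push Not at hDI
    obtain ⟨m0, hm0⟩ := hDI
    exact exists_structure hSL hα hU hm0

end

end Run7.h121
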