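import Pool.Agent.Run7.h121.Indec

/-!
# The finest small projection of an indecomposable ultrafilter
-/

namespace Run7.h121

noncomputable section

open Cardinal Ordinal Set Filter

variable {α : Type} {U : Ultrafilter α}

theorem exists_small_image {m0 : ℕ} (h : ¬ DI U m0) {β : Type} (hβ : #β < ℵ_ ω) (f : α → β) :
    ∃ A ∈ U, #(f '' A) < al m0 := by
  have hne : (fun A : Set α => #(f '' A)) '' {A | A ∈ U} |>.Nonempty :=
    ⟨_, univ, Filter.univ_mem, rfl⟩
  obtain ⟨c, ⟨A, hA, rfl⟩, hmin⟩ := WellFounded.has_min (wellFounded_lt (α := Cardinal.{0})) _ hne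
  refine ⟨A, hA, ?_⟩
  by_contra hlt
  have h1 : al m0 ≤ #(f '' A) := not_lt.1 hlt
  have h2 : #(f '' A) < ℵ_ ω := (mk_set_le _).trans_lt hβ
  obtain ⟨m, hm⟩ := exists_al_eq ((aleph0_le_al m0).trans h1) h2
  refine h (DI_of_le (n := m) ?_ (DI_of_min f hA hm.le fun C hC => ?_))
  · rwa [hm, al_le] at h1
  · rw [← hm]
    exact not_lt.1 (hmin _ ⟨C, hC, rfl⟩)

/-- `π` is a projection to a small set through which all functions to small sets factor. -/
structure Fac (U : Ultrafilter α) (J : Type) (π : α → J) : Prop where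
  small : #J < ℵ_ ω
  fac : ∀ (β : Type) (f : α → β), #β < ℵ_ ω → ∃ g : J → β, ∀ᶠ x in (U : Filter α), f x = g (π x)

theorem succ_lt_omega {c : Cardinal.{0}} (h : c < ℵ_ ω) : Order.succ c < ℵ_ ω := by
  obtain ⟨n, hn⟩ := exists_al_of_lt h
  exact (Order.succ_le_of_lt hn).trans_lt (al_lt_omega n)

theorem power_lt_omega (hSL : SL) {a b : Cardinal.{0}} (ha : a < ℵ_ ω) (hb : b < ℵ_ ω) :
    a ^ b < ℵ_ ω := by
  have h1 : a ^ b ≤ (2 ^ a) ^ b := power_le_power_right (cantor a).le
  rw [← power_mul] at h1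
  exact h1.trans_lt (two_pow_lt hSL (mul_lt_of_lt aleph0_le_omega ha hb))

theorem exists_fac (hSL : SL) {m0 : ℕ} (h : ¬ DI U m0) : ∃ (J : Type) (π : α → J), Fac U J π := by
  classical
  let T0 : Type := (om m0).ToType
  have hT0 : #T0 = al m0 := by rw [mk_toType, card_om]
  have hT0ne : Nonempty T0 := by
    rw [← mk_ne_zero_iff, hT0]; exact (al_regular m0).ne_zero
  let Q : Type := (U : Filter α).Germ T0
  have hrep : ∀ q : Q, ∃ f : α → T0, (f : (U : Filter α).Germ T0) = q := fun q =>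
    Filter.Germ.inductionOn q fun f => ⟨f, rfl⟩
  choose F hF using hrep
  let χ : Cardinal.{0} := 2 ^ al m0
  have hχ : χ < ℵ_ ω := hSL m0
  have hQ : #Q ≤ χ := by
    by_contra hcon
    have h1 : Order.succ χ ≤ #Q := Order.succ_le_of_lt (not_le.1 hcon)
    obtain ⟨I, hI⟩ := le_mk_iff_exists_set.1 h1
    have h2 : #(I → T0) < ℵ_ ω := by
      rw [← power_def, hT0, hI]
      exact power_lt_omega hSL (al_lt_omega m0) (succ_lt_omega hχ)
    obtain ⟨A, hA, hAc⟩ := exists_small_image h h2 (fun x (i : I) => F i.1 x)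
    have h3 : #I ≤ #(((fun x (i : I) => F i.1 x) '' A) → T0) := by
      refine mk_le_of_injective (f := fun (i : I) y => y.1 i) ?_
      intro i i' hii
      apply Subtype.ext
      rw [← hF i.1, ← hF i'.1]
      apply Filter.Germ.coe_eq.2
      filter_upwards [hA] with x hx
      exact congrFun hii ⟨_, mem_image_of_mem _ hx⟩
    rw [← power_def, hT0, hI] at h3
    have h4 : al m0 ^ #((fun x (i : I) => F i.1 x) '' A) ≤ χ :=
      calc al m0 ^ #((fun x (i : I) => F i.1 x) '' A) ≤ al m0 ^ al m0 :=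
            power_le_power_left (al_regular m0).ne_zero hAc.le
        _ = 2 ^ al m0 := power_self_eq (aleph0_le_al m0)
    exact absurd (h3.trans h4) (not_le.2 (Order.lt_succ χ))
  refine ⟨Q → T0, fun x q => F q x, ?_, ?_⟩
  · rw [← power_def, hT0]
    exact power_lt_omega hSL (al_lt_omega m0) (hQ.trans_lt hχ)
  · intro β f hβ
    obtain ⟨A, hA, hAc⟩ := exists_small_image h hβ f
    rw [← hT0] at hAc
    obtain ⟨e⟩ := hAc.le
    obtain ⟨x0⟩ : Nonempty α := by
      obtain ⟨x, -⟩ := (U.neBot.nonempty_of_mem hA)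
      exact ⟨x⟩
    let f' : α → T0 := fun x => if hx : x ∈ A then e ⟨f x, mem_image_of_mem f hx⟩ else
      Classical.arbitrary T0
    let q : Q := (f' : (U : Filter α).Germ T0)
    have hq : ∀ᶠ x in (U : Filter α), F q x = f' x := Filter.Germ.coe_eq.1 (hF q)
    refine ⟨fun y => if hy : ∃ z, e z = y q then (hy.choose).1 else f x0, ?_⟩
    filter_upwards [hq, hA] with x hx hxA
    have h1 : e ⟨f x, mem_image_of_mem f hxA⟩ = F q x := by
      rw [hx]; simp only [f', dif_pos hxA]
    have h2 : ∃ z, e z = F q x := ⟨_, h1⟩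
    simp only [dif_pos h2]
    have h4 := e.injective (h2.choose_spec.trans h1.symm)
    exact (congrArg Subtype.val h4).symm

end

end Run7.h121
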