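import Pool.Agent.Run7.h121.Dec

/-!
# Under GCH below aleph_omega, small character implies indecomposability
-/

namespace Run7.h121

noncomputable section

open Cardinal Ordinal Set Filter

variable {α : Type} {U : Ultrafilter α} {B : Set (Set α)} {p : ℕ → α → Ordinal.{0}} {r0 : α → ℕ}
  {A : Set ℕ}

theorem exists_enc (n : ℕ) : ∃ enc : Set (om n).ToType → Ordinal.{0},
    (∀ c, enc c < om (n + 1)) ∧
    ((2 : Cardinal.{0}) ^ al n = al (n + 1) → Function.Injective enc) := by
  by_cases h : (2 : Cardinal.{0}) ^ al n = al (n + 1)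
  · have h1 : #(Set (om n).ToType) ≤ (om (n + 1)).card := by
      rw [mk_set, mk_toType, card_om, card_om, h]
    obtain ⟨e, he, hlt⟩ := exists_inj h1
    exact ⟨e, hlt, fun _ => he⟩
  · exact ⟨fun _ => 0, fun _ => om_pos _, fun h' => absurd h' h⟩

/-- A strongly uniform function at levels `s` in `A` whose successors are outside `A`
contradicts a small base, under GCH. -/
theorem Dat.contra_level (hd : Dat U B p r0) (hA : Gen A)
    (hgch : ∀ᶠ n in atTop, (2 : Cardinal.{0}) ^ al n = al (n + 1))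
    {s : α → ℕ} (hs : NS U s) (hsA : ∀ᶠ x in (U : Filter α), s x + 1 ∉ A)
    {q : α → Ordinal.{0}} (hq : ∀ x, q x < om (s x))
    (hstrong : ∀ f, InProd f → ∀ᶠ x in (U : Filter α), f (s x) ≤ q x) : False := by
  classical
  choose enc henc1 henc2 using exists_enc
  let tr : B → (n : ℕ) → Set (om n).ToType := fun b n =>
    {i | ∃ x ∈ b.1, s x = n ∧ q x = (ToType.mk.symm i).1}
  let g : B → ℕ → Ordinal.{0} := fun b n => match n with
    | 0 => 0
    | n + 1 => enc n (tr b n)
  have hg : ∀ b, InProd (g b) := by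
    intro b n
    match n with
    | 0 => exact om_pos 0
    | n + 1 => exact henc1 n _
  obtain ⟨h, hh, hgh⟩ := hA.dir' hd.card g hg
  let FF : (n : ℕ) → Type := fun n =>
    {c : Set (om n).ToType // enc n c ≤ h (n + 1) ∧ al n ≤ #c}
  have hFF : ∀ n, (2 : Cardinal.{0}) ^ al n = al (n + 1) → #(FF n) ≤ al n := by
    intro n hn
    have h1 := mk_le_of_inj (o := h (n + 1) + 1) (fun c : FF n => enc n c.1)
      (fun c c' hcc => Subtype.ext (henc2 n hn hcc)) (fun c => Order.lt_add_one_iff.2 c.2.1)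
    have h2 := lt_om_iff.1 (add_one_lt_om (hh (n + 1)))
    rw [al_succ] at h2
    exact h1.trans (Order.lt_succ_iff.1 h2)
  have hX : ∀ n, ∃ X : Set (om n).ToType, (2 : Cardinal.{0}) ^ al n = al (n + 1) →
      ∀ c : FF n, (∃ t ∈ c.1, t ∈ X) ∧ ∃ t ∈ c.1, t ∉ X := by
    intro n
    by_cases hn : (2 : Cardinal.{0}) ^ al n = al (n + 1)
    · obtain ⟨X, hX⟩ := exists_split (aleph0_le_al n) (hFF n hn) (fun c : FF n => c.1)
        (fun c => c.2.2)
      exact ⟨X, fun _ => hX⟩
    · exact ⟨∅, fun h' => absurd h' hn⟩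
  choose X hX using hX
  have hmain : ∀ b : B, ∃ n, (∃ t ∈ tr b n, t ∈ X n) ∧ ∃ t ∈ tr b n, t ∉ X n := by
    intro b
    let f : ℕ → Ordinal.{0} := fun n =>
      if #(tr b n) < al n then ⨆ i : tr b n, ((ToType.mk.symm i.1).1 + 1) else 0
    have hf : InProd f := by
      intro n
      by_cases hn : #(tr b n) < al n
      · simp only [f, if_pos hn]
        exact iSup_add_one_lt_om hn fun i => (ToType.mk.symm i.1).2
      · simp only [f, if_neg hn]; exact om_pos n
    have hbU : ∀ᶠ x in (U : Filter α), x ∈ b.1 := hd.hB _ b.2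
    obtain ⟨x, h1, h2, h3, h4, h5⟩ := ((hstrong f hf).and (hsA.and (hbU.and
      ((hs.eventually hgch).and (hs.eventually ((tendsto_add_atTop_nat 1).eventually
        (hgh b))))))).exists
    have hmem : ToType.mk ⟨q x, hq x⟩ ∈ tr b (s x) := by
      refine ⟨x, h3, rfl, ?_⟩
      rw [OrderIso.symm_apply_apply]
    have h6 : al (s x) ≤ #(tr b (s x)) := by
      by_contra hlt
      have hlt' := not_le.1 hlt
      simp only [f, if_pos hlt'] at h1
      have h7 := Ordinal.le_iSup (fun i : tr b (s x) => (ToType.mk.symm i.1).1 + 1)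
        ⟨_, hmem⟩
      simp only [OrderIso.symm_apply_apply] at h7
      exact absurd (h7.trans h1) (not_le.2 (Order.lt_add_one_iff.2 le_rfl))
    exact ⟨s x, hX (s x) h4 ⟨tr b (s x), h5 h2, h6⟩⟩
  rcases U.mem_or_compl_mem {x | ToType.mk ⟨q x, hq x⟩ ∈ X (s x)} with hU | hU
  · obtain ⟨b, hb, hbX⟩ := hd.base _ hU
    obtain ⟨n, -, t, ⟨y, hy, rfl, hyt⟩, ht'⟩ := hmain ⟨b, hb⟩
    refine ht' ?_
    have h1 := hbX hy
    have h2 : ToType.mk ⟨q y, hq y⟩ = t := by
      rw [← OrderIso.eq_symm_apply]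
      exact Subtype.ext hyt
    rw [← h2]
    exact h1
  · obtain ⟨b, hb, hbX⟩ := hd.base _ hU
    obtain ⟨n, ⟨t, ⟨y, hy, rfl, hyt⟩, ht'⟩, -⟩ := hmain ⟨b, hb⟩
    have h1 := hbX hy
    have h2 : ToType.mk ⟨q y, hq y⟩ = t := by
      rw [← OrderIso.eq_symm_apply]
      exact Subtype.ext hyt
    rw [← h2] at ht'
    exact h1 ht'

theorem Dat.contra (hd : Dat U B p r0) (hA : Gen A)
    (hgch : ∀ᶠ n in atTop, (2 : Cardinal.{0}) ^ al n = al (n + 1)) : False := by
  classical
  obtain ⟨r, hr, hstrong⟩ := hd.exists_strong hA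
  let E : Set ℕ := {n | n ∉ A ∧ ∃ m ∈ A, n = m + 1}
  have hE : ∀ m, ∃ n ≥ m, n ∈ E := by
    intro m
    obtain ⟨a, ham, haA⟩ := hA.inf m
    have hex : ∃ c, a ≤ c ∧ c ∉ A := hA.coinf a
    have h1 := Nat.find_spec hex
    have h2 : a < Nat.find hex := by
      rcases h1.1.lt_or_eq with h | h
      · exact h
      · exact absurd (h ▸ haA) h1.2
    obtain ⟨c, hc⟩ : ∃ c, Nat.find hex = c + 1 := ⟨Nat.find hex - 1, by omega⟩
    have h3 : c ∈ A := by
      by_contra hcA
      have := Nat.find_min hex (m := c) (by omega)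
      exact this ⟨by omega, hcA⟩
    exact ⟨Nat.find hex, by omega, h1.2, c, h3, hc⟩
  have hns : NS U (fun x => fl E (r x) - 1) := by
    intro m
    filter_upwards [hr.fl hE (m + 1)] with x hx
    omega
  have hmem := hr.fl_mem hE
  have hp1 : ∀ᶠ x in (U : Filter α), fl E (r x) - 1 ∈ A := by
    filter_upwards [hmem] with x hx
    obtain ⟨-, m, hm, hm'⟩ := hx
    rw [hm']
    simpa using hm
  have hp2 : ∀ᶠ x in (U : Filter α), fl E (r x) - 1 + 1 ∉ A := by
    filter_upwards [hmem] with x hx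
    obtain ⟨hn, m, hm, hm'⟩ := hx
    have : fl E (r x) - 1 + 1 = fl E (r x) := by omega
    rwa [this]
  exact hd.contra_level hA hgch hns hp2 (q := fun x => p (fl E (r x) - 1) x)
    (fun x => hd.lt _ _)
    (hstrong _ hns (Eventually.of_forall fun x => (Nat.sub_le _ _).trans (fl_le _ _)) hp1)

end

end Run7.h121
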