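import Pool.Agent.Run7.h121.Cov

/-!
# Descending incompleteness goes down: the Kunen and Prikry theorem below aleph_omega
-/

namespace Run7.h121

noncomputable section

open Cardinal Ordinal Set Filter

/-- The ultrafilter `U` is `ω_n`-descendingly incomplete. -/
def DI {X : Type} (U : Ultrafilter X) (n : ℕ) : Prop :=
  ∃ p : X → Ordinal.{0}, (∀ x, p x < om n) ∧ ∀ ξ < om n, ∀ᶠ x in (U : Filter X), ξ ≤ p x

variable {X : Type} {U : Ultrafilter X}

theorem DI_of_DI_succ {n : ℕ} (h : DI U (n + 1)) : DI U n := by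
  classical
  by_contra hnot
  obtain ⟨p, hp, hpU⟩ := h
  obtain ⟨fo, e, hcod⟩ := Cov.exists_coding
  have hgt : ∀ β < om (n + 1), ∀ᶠ x in (U : Filter X), β < p x := by
    intro β hβ
    filter_upwards [hpU _ (add_one_lt_om hβ)] with x hx
    exact (Order.lt_add_one_iff.2 le_rfl).trans_le hx
  have hξ : ∀ β : (om (n + 1)).ToType, ∃ ξ : (om n).ToType, ∀ᶠ x in (U : Filter X),
      fo n (p x) (ToType.mk.symm β).1 < (ToType.mk.symm ξ).1 := by
    intro β
    by_contra hcon
    push Not at hcon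
    refine hnot ⟨fun x => if (ToType.mk.symm β).1 < p x then fo n (p x) (ToType.mk.symm β).1 else 0,
      fun x => ?_, fun ξ hξ => ?_⟩
    · by_cases hx : (ToType.mk.symm β).1 < p x
      · simp only [if_pos hx]; exact (hcod n _ _ (hp x) hx).1
      · simp only [if_neg hx]; exact om_pos n
    · have h1 := hcon (ToType.mk ⟨ξ, hξ⟩)
      simp only [OrderIso.symm_apply_apply] at h1
      filter_upwards [h1, hgt (ToType.mk.symm β).1 (ToType.mk.symm β).2] with x h3 h4
      simp only [if_pos h4]; exact h3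
  choose ξ hξ using hξ
  obtain ⟨ξ0, hξ0⟩ := infinite_pigeonhole_card ξ (al (n + 1))
    (by rw [mk_toType, card_om]) (aleph0_le_al _)
    (by rw [mk_toType, card_om, ord_al, cof_om, al_lt]; exact Nat.lt_succ_self n)
  have h3 : #(om n).ToType ≤ #(ξ ⁻¹' {ξ0}) := by
    rw [mk_toType, card_om]
    exact (al_le.2 (Nat.le_succ n)).trans hξ0
  obtain ⟨s⟩ := h3
  let b : (om n).ToType → Ordinal.{0} := fun i => (ToType.mk.symm (s i).1).1
  have hb : ∀ i, b i < om (n + 1) := fun i => (ToType.mk.symm (s i).1).2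
  have hbinj : Function.Injective b := by
    intro i j hij
    have h4 : ToType.mk.symm (s i).1 = ToType.mk.symm (s j).1 := Subtype.ext hij
    exact s.injective (Subtype.ext (ToType.mk.symm.injective h4))
  have hbU : ∀ i, ∀ᶠ x in (U : Filter X), fo n (p x) (b i) < (ToType.mk.symm ξ0).1 := by
    intro i
    have h4 : ξ (s i).1 = ξ0 := (s i).2
    have h5 := hξ (s i).1
    rwa [h4] at h5
  refine hnot ⟨fun x => ⨆ i : {i // b i < p x ∧ fo n (p x) (b i) < (ToType.mk.symm ξ0).1},
    ((ToType.mk.symm i.1).1 + 1), fun x => ?_, fun η hη => ?_⟩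
  · refine iSup_add_one_lt_om ?_ fun i => (ToType.mk.symm i.1).2
    have h4 := mk_le_of_inj (o := (ToType.mk.symm ξ0).1)
      (fun i : {i // b i < p x ∧ fo n (p x) (b i) < (ToType.mk.symm ξ0).1} =>
        fo n (p x) (b i.1)) ?_ (fun i => i.2.2)
    · exact h4.trans_lt (lt_om_iff.1 (ToType.mk.symm ξ0).2)
    · intro i j hij
      have h5 := (hcod n _ _ (hp x) i.2.1).2
      have h6 := (hcod n _ _ (hp x) j.2.1).2
      simp only at hij
      rw [hij, h6] at h5
      exact Subtype.ext (hbinj h5.symm)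
  · filter_upwards [hbU (ToType.mk ⟨η, hη⟩), hgt _ (hb (ToType.mk ⟨η, hη⟩))] with x h4 h5
    have h6 := Ordinal.le_iSup
      (fun i : {i // b i < p x ∧ fo n (p x) (b i) < (ToType.mk.symm ξ0).1} =>
        (ToType.mk.symm i.1).1 + 1) ⟨ToType.mk ⟨η, hη⟩, h5, h4⟩
    simp only [OrderIso.symm_apply_apply] at h6
    exact (le_add_right le_rfl).trans h6

theorem DI_of_le {m n : ℕ} (hmn : m ≤ n) (h : DI U n) : DI U m := by
  induction n with
  | zero =>
    have : m = 0 := by omega
    rwa [this]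
  | succ n ih =>
    rcases hmn.lt_or_eq with h1 | h1
    · exact ih (by omega) (DI_of_DI_succ h)
    · rwa [h1]

/-- an ultrafilter which does not concentrate on a set of size less than `ℵ_n`, but does
concentrate on a set of size `ℵ_n`, is `ω_n`-descendingly incomplete. More generally for an image. -/
theorem DI_of_min {Y : Type} (f : X → Y) {n : ℕ} {A : Set X} (hA : A ∈ U)
    (hcard : #(f '' A) ≤ al n) (hmin : ∀ B ∈ U, al n ≤ #(f '' B)) : DI U n := by
  classical
  rw [← card_om] at hcard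
  obtain ⟨e, he, hlt⟩ := exists_inj hcard
  refine ⟨fun x => if h : x ∈ A then e ⟨f x, mem_image_of_mem f h⟩ else 0, fun x => ?_,
    fun ξ hξ => ?_⟩
  · by_cases hx : x ∈ A
    · simp only [dif_pos hx]; exact hlt _
    · simp only [dif_neg hx]; exact om_pos n
  · by_contra hcon
    rw [← Ultrafilter.eventually_not] at hcon
    have hB : {x | x ∈ A ∧ ∀ h : x ∈ A, e ⟨f x, mem_image_of_mem f h⟩ < ξ} ∈ U := by
      filter_upwards [hcon, hA] with x h1 h2
      refine ⟨h2, fun h => ?_⟩
      simp only [dif_pos h] at h1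
      exact not_le.1 h1
    have h1 := hmin _ hB
    have h2 : #(f '' {x | x ∈ A ∧ ∀ h : x ∈ A, e ⟨f x, mem_image_of_mem f h⟩ < ξ}) ≤ ξ.card := by
      have hmem : ∀ y : f '' {x | x ∈ A ∧ ∀ h : x ∈ A, e ⟨f x, mem_image_of_mem f h⟩ < ξ},
          ∃ h : y.1 ∈ f '' A, e ⟨y.1, h⟩ < ξ := by
        rintro ⟨y, x, ⟨hx, hx'⟩, rfl⟩
        exact ⟨mem_image_of_mem f hx, hx' hx⟩
      choose g hg using hmem
      refine mk_le_of_inj (fun y => e ⟨y.1, g y⟩) ?_ hg
      intro y z hyz
      have := he hyz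
      simpa [Subtype.ext_iff] using this
    exact absurd (h1.trans h2) (not_le.2 (lt_om_iff.1 hξ))

end

end Run7.h121
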