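import Pool.Agent.Run7.h121.PcfG

/-!
# Cofinalities of restricted products
-/

namespace Run7.h121

noncomputable section

open Cardinal Ordinal Set Filter

/-- the least size of a family cofinal on `X` -/
def lam (X : Set ℕ) : Cardinal.{0} := sInf {c | Sm (Order.succ c) X}

theorem Sm_full (X : Set ℕ) : Sm (Order.succ #((n : ℕ) → (om n).ToType)) X := by
  refine ⟨(n : ℕ) → (om n).ToType, fun i n => (ToType.mk.symm (i n)).1, Order.lt_succ _,
    fun i n => (ToType.mk.symm (i n)).2, fun f hf => ⟨fun n => ToType.mk ⟨f n, hf n⟩, ?_⟩⟩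
  filter_upwards with n _
  simp

theorem Sm_iff {κ : Cardinal.{0}} {X : Set ℕ} : Sm κ X ↔ lam X < κ := by
  constructor
  · rintro ⟨ι, F, hι, hF, hc⟩
    refine lt_of_le_of_lt ?_ hι
    exact csInf_le' ⟨ι, F, Order.lt_succ _, hF, hc⟩
  · intro h
    have hne : {c | Sm (Order.succ c) X}.Nonempty := ⟨_, Sm_full X⟩
    have h1 : Sm (Order.succ (lam X)) X := csInf_mem hne
    exact h1.mono_card (Order.succ_le_of_lt h)

theorem lam_mono {X Y : Set ℕ} (h : ∀ᶠ n in atTop, n ∈ X → n ∈ Y) : lam X ≤ lam Y := by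
  rw [← Order.lt_succ_iff, ← Sm_iff]
  exact (Sm_iff.2 (Order.lt_succ _)).mono h

theorem lt_lam {X : Set ℕ} (h : ¬ ∀ᶠ n in atTop, n ∉ X) : ℵ_ ω < lam X := by
  by_contra hcon
  obtain ⟨ι, F, hι, hF, hc⟩ := (Sm_iff (X := X)).2 (Order.lt_succ_of_le (not_lt.1 hcon))
  obtain ⟨g, hg, hgF⟩ := exists_sbound (Order.lt_succ_iff.1 hι) F hF
  obtain ⟨i, hi⟩ := hc g hg
  refine h ?_
  filter_upwards [hi, hgF i] with n h1 h2 h3
  exact absurd (h2.trans_le (h1 h3)) (lt_irrefl _)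

theorem lam_regular (hSL : SL) {X : Set ℕ} (h : ¬ ∀ᶠ n in atTop, n ∉ X) :
    (lam X).IsRegular := by
  by_contra hreg
  have h0 : ℵ₀ ≤ lam X := aleph0_le_omega.trans (lt_lam h).le
  obtain ⟨ι, F, hι, hF, hc⟩ := (Sm_iff (X := X)).2 (Order.lt_succ (lam X))
  obtain ⟨g, hg, hgF⟩ := (dir_FF hSL _ h0).succ_of_not_regular h0 hreg ι F hι hF
  obtain ⟨i, hi⟩ := hc (fun n => g n + 1) (fun n => add_one_lt_om (hg n))
  have h1 : Sm (lam X) {n | F i n ≤ g n}ᶜ := (mem_FF h0).1 (hgF i)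
  have h2 : Sm (lam X) X := by
    refine h1.mono ?_
    filter_upwards [hi] with n hn hnX h3
    exact absurd ((hn hnX).trans h3) (not_le.2 (Order.lt_add_one_iff.2 le_rfl))
  exact absurd (Sm_iff.1 h2) (lt_irrefl _)

/-- scales modulo the ideals -/
theorem exists_sc (hSL : SL) (X : Set ℕ) : ∃ (κ : Cardinal.{0}) (F : KT κ → ℕ → Ordinal.{0}),
    κ.IsRegular ∧ ℵ_ ω < κ ∧ (∀ k, InProd (F k)) ∧
    (∀ k k', k < k' → ∀ᶠ n in FF κ, F k n < F k' n) ∧
    (∀ f, InProd f → ∃ k, ∀ᶠ n in FF κ, n ∈ X → f n ≤ F k n) ∧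
    ((¬ ∀ᶠ n in atTop, n ∉ X) → κ = lam X) := by
  by_cases h : ∀ᶠ n in atTop, n ∉ X
  · have h1 : ℵ_ ω < kp := lt_kp.2 le_rfl
    have h0 : ℵ₀ ≤ kp := kp_regular.aleph0_le
    obtain ⟨F, hF1, hF2, -⟩ := (dir_FF hSL kp h0).exists_scale h0 (ι := Empty)
      (by rw [mk_eq_zero]; exact kp_regular.pos) (fun i => i.elim) (fun i => i.elim)
    obtain ⟨k0⟩ := nonempty_KT kp_regular
    exact ⟨kp, F, kp_regular, h1, hF1, hF2,
      fun f _ => ⟨k0, Eventually.mono (FF_le h0 h) fun n hn hnX => absurd hnX hn⟩, fun h' => absurd h h'⟩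
  · have hreg := lam_regular hSL h
    have h0 := hreg.aleph0_le
    obtain ⟨ι, G, hι, hG, hc⟩ := (Sm_iff (X := X)).2 (Order.lt_succ (lam X))
    have hne : Nonempty ι := by
      obtain ⟨i, -⟩ := hc (fun _ => 0) (fun n => om_pos n)
      exact ⟨i⟩
    obtain ⟨e⟩ : Nonempty (ι ↪ KT (lam X)) := by
      rw [← Cardinal.le_def, mk_KT]
      exact Order.lt_succ_iff.1 hι
    obtain ⟨F, hF1, hF2, hF3⟩ := (dir_FF hSL _ h0).exists_scale h0 (ι := Unit)
      (by simpa using one_lt_aleph0.trans_le h0)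
      (fun _ k => G (Function.invFun e k)) (fun _ k => hG _)
    refine ⟨lam X, F, hreg, lt_lam h, hF1, hF2, fun f hf => ?_, fun _ => rfl⟩
    obtain ⟨i, hi⟩ := hc f hf
    refine ⟨e i, ?_⟩
    filter_upwards [FF_le h0 hi, hF3 () (e i)] with n h1 h2 h3
    rw [Function.leftInverse_invFun e.injective i] at h2
    exact (h1 h3).trans h2.le

end

end Run7.h121
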