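import Pool.Agent.Run7.h121.Struct

/-!
# Every uniform ultrafilter of small character has a strongly uniform level
-/

namespace Run7.h121

noncomputable section

open Cardinal Ordinal Set Filter

variable {α : Type} {U : Ultrafilter α}

/-- functions witnessing decomposability at all levels give the data `Dat` -/
theorem exists_dat (hα : #α ≤ ℵ_ ω) (hU : ∀ A ∈ U, #A = ℵ_ ω) {B : Set (Set α)}
    (hB : ∀ b ∈ B, b ∈ U) (hbase : ∀ A ∈ U, ∃ b ∈ B, b ⊆ A) (hBc : #B ≤ kp)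
    (hDI : ∀ n, DI U n) : ∃ p r0, Dat U B p r0 := by
  choose p hp1 hp2 using hDI
  obtain ⟨ρ, hρ⟩ := exists_rank hα
  refine ⟨p, ρ, hB, hbase, hBc, hp1, hp2, fun m => ?_⟩
  by_contra hcon
  have h1 : {x | ρ x < m} ∈ U := by
    have h2 : ∀ᶠ x in (U : Filter α), ¬ m ≤ ρ x := Ultrafilter.eventually_not.2 hcon
    filter_upwards [h2] with x hx using not_le.1 hx
  have h2 := hU _ h1
  have h3 : #{x | ρ x < m} < al m := hρ m
  rw [h2] at h3
  exact absurd h3 (not_lt.2 (al_lt_omega m).le)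

theorem exists_level (hSL : SL) (hpow : kp < (2 : Cardinal.{0}) ^ (ℵ_ ω)) (hα : #α ≤ ℵ_ ω)
    (hU : ∀ A ∈ U, #A = ℵ_ ω) {B : Set (Set α)}
    (hB : ∀ b ∈ B, b ∈ U) (hbase : ∀ A ∈ U, ∃ b ∈ B, b ⊆ A) (hBc : #B ≤ kp) :
    ∃ (s : α → ℕ) (q : α → Ordinal.{0}), NS U s ∧ (∀ x, q x < om (s x)) ∧
      ∀ f, InProd f → ∀ᶠ x in (U : Filter α), f (s x) ≤ q x := by
  by_cases hDI : ∀ n, DI U n
  · obtain ⟨p, r0, hd⟩ := exists_dat hα hU hB hbase hBc hDI
    obtain ⟨A, hA⟩ := exists_gen hSL hpow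
    obtain ⟨r, hr, hstrong⟩ := hd.exists_strong hA
    have hE : ∀ m, ∃ n ≥ m, n ∈ A := hA.inf
    exact ⟨fun x => fl A (r x), fun x => p (fl A (r x)) x, hr.fl hE, fun x => hd.lt _ _,
      hstrong _ (hr.fl hE) (Eventually.of_forall fun x => fl_le _ _) (hr.fl_mem hE)⟩
  · push Not at hDI
    obtain ⟨m0, hm0⟩ := hDI
    obtain ⟨J, π, hF⟩ := exists_fac hSL hm0
    obtain ⟨s, p, h1, h2, h3⟩ := TT_nonempty hSL hF hα hU
    exact ⟨fun x => s (π x), p, h1, h2, h3⟩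

end

end Run7.h121
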