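import Pool.Agent.Run7.h121.CovG

/-!
# Limits of few small ultrafilters have maximal character
-/

namespace Run7.h121

noncomputable section

open Cardinal Ordinal Set Filter

/-- A uniform ultrafilter which is a limit of fewer than aleph_omega non-uniform ultrafilters has
no base of size less than `2 ^ ℵ_ω`. -/
theorem lim_characterG {α : Type} (hSL : SL) (U : Ultrafilter α)
    (hU : ∀ A ∈ U, #A = ℵ_ ω) (S : Set (Ultrafilter α)) (hS : #S < ℵ_ ω)
    (hSn : ∀ V ∈ S, ∃ A ∈ V, #A < ℵ_ ω) (hcl : U ∈ closure S) (B : Set (Set α))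
    (hB : ∀ b ∈ B, b ∈ U) (hbase : ∀ A ∈ U, ∃ b ∈ B, b ⊆ A) :
    (2 : Cardinal.{0}) ^ (ℵ_ ω) ≤ #B := by
  classical
  choose A hA1 hA2 using fun V : Ultrafilter α => exists_min_mem V
  have hA3 : ∀ V ∈ S, #(A V) < ℵ_ ω := by
    intro V hV
    obtain ⟨C, hC, hlt⟩ := hSn V hV
    exact (hA2 V C hC).trans_lt hlt
  have hp : ∀ (V : Ultrafilter α) (j : ℕ), ∃ p : α → Ordinal.{0}, (∀ x, p x < om j) ∧
      (V ∈ S → al j ≤ #(A V) → ∀ ξ < om j, ∀ᶠ x in (V : Filter α), ξ ≤ p x) := by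
    intro V j
    by_cases h : V ∈ S ∧ al j ≤ #(A V)
    · obtain ⟨p, h1, h2⟩ := DI_of_le_min (hA1 V) (hA2 V) (hA3 V h.1) h.2
      exact ⟨p, h1, fun _ _ => h2⟩
    · exact ⟨fun _ => 0, fun _ => om_pos j, fun h1 h2 => absurd ⟨h1, h2⟩ h⟩
  choose p hp1 hp2 using hp
  -- the set attached to a function
  have hAf : ∀ f, InProd f →
      {x | ∃ V ∈ S, x ∈ A V ∧ ∀ j, al j ≤ #(A V) → f j ≤ p V j x} ∈ U := by
    intro f hf
    by_contra hcon
    have h1 : {x | ∃ V ∈ S, x ∈ A V ∧ ∀ j, al j ≤ #(A V) → f j ≤ p V j x}ᶜ ∈ U :=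
      Ultrafilter.compl_mem_iff_notMem.2 hcon
    obtain ⟨V, hV1, hV2⟩ := mem_closure_iff.1 hcl _
      (ultrafilter_isOpen_basic
        {x | ∃ V ∈ S, x ∈ A V ∧ ∀ j, al j ≤ #(A V) → f j ≤ p V j x}ᶜ) h1
    have hfin : {j : ℕ | al j ≤ #(A V)}.Finite := by
      obtain ⟨n, hn⟩ := exists_al_of_lt (hA3 V hV2)
      refine (Set.finite_lt_nat n).subset fun j hj => ?_
      exact al_lt.1 (lt_of_le_of_lt hj hn)
    have h2 : ∀ᶠ x in (V : Filter α), ∀ j ∈ {j : ℕ | al j ≤ #(A V)}, f j ≤ p V j x :=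
      (eventually_all_finite hfin).2 fun j hj => hp2 V j hV2 hj _ (hf j)
    have h3 : ∀ᶠ x in (V : Filter α), False := by
      filter_upwards [h2, hA1 V, hV1] with x h4 h5 h6
      exact h6 ⟨V, hV2, h5, h4⟩
    exact h3.exists.elim fun _ h => h
  -- points of members of `U` outside small pieces
  have hx : ∀ (b : B) (j : ℕ), ∃ x ∈ b.1, ∀ V ∈ S, #(A V) < al j → x ∉ A V := by
    intro b j
    by_contra hcon
    push Not at hcon
    have h1 : b.1 ⊆ ⋃ V : {V : S // #(A V.1) < al j}, A V.1.1 := by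
      intro x hxb
      obtain ⟨V, hV, hVj, hxV⟩ := hcon x hxb
      exact mem_iUnion.2 ⟨⟨⟨V, hV⟩, hVj⟩, hxV⟩
    have h2 : #b.1 ≤ #S * al j := by
      refine (mk_le_mk_of_subset h1).trans ?_
      refine (mk_iUnion_le _).trans ?_
      refine mul_le_mul' (mk_subtype_le _) ?_
      exact ciSup_le' fun V => V.2.le
    rw [hU _ (hB _ b.2)] at h2
    have h3 : #S * al j < ℵ_ ω := mul_lt_of_lt aleph0_le_omega hS (al_lt_omega j)
    exact absurd h2 (not_le.2 h3)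
  choose x hx1 hx2 using hx
  let g : B → ℕ → Ordinal.{0} := fun b j => ⨆ V : S, p V.1 j (x b j)
  have hg : ∀ᶠ j in atTop, ∀ b, g b j < om j := by
    obtain ⟨n, hn⟩ := exists_al_of_lt hS
    filter_upwards [eventually_ge_atTop n] with j hj b
    exact iSup_lt_om (hn.trans_le (al_le.2 hj)) fun V => hp1 V.1 j _
  refine pow_le_of_dominatingG hSL (fun b j => if g b j < om j then g b j else 0)
    (fun b j => ?_) fun f hf => ?_
  · by_cases h : g b j < om j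
    · simp only [if_pos h]; exact h
    · simp only [if_neg h]; exact om_pos j
  · obtain ⟨b, hb, hbf⟩ := hbase _ (hAf f hf)
    refine ⟨⟨b, hb⟩, ?_⟩
    filter_upwards [hg] with j hj
    simp only [if_pos (hj ⟨b, hb⟩)]
    obtain ⟨V, hV, hxV, hall⟩ := hbf (hx1 ⟨b, hb⟩ j)
    have h1 : al j ≤ #(A V) := by
      by_contra hlt
      exact hx2 ⟨b, hb⟩ j V hV (not_le.1 hlt) hxV
    exact (hall j h1).trans (Ordinal.le_iSup (fun V : S => p V.1 j (x ⟨b, hb⟩ j)) ⟨V, hV⟩)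

end

end Run7.h121
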