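import Pool.Agent.Run7.h121.Split

/-!
# Least upper bounds modulo an ultrafilter, and the failure of directedness
-/

namespace Run7.h121

noncomputable section

open Cardinal Ordinal Set Filter

/-- a small family closed under a unary operation and under diagonals -/
theorem exists_closed (h0 : ℕ → Ordinal.{0}) (nx : (ℕ → Ordinal.{0}) → (ℕ → Ordinal.{0})) :
    ∃ (T : Type) (v : T → ℕ → Ordinal.{0}), #T ≤ 2 ^ ℵ₀ ∧ (∃ t, v t = h0) ∧
      (∀ t, ∃ t', v t' = nx (v t)) ∧ ∀ s : ℕ → T, ∃ t, ∀ n, v t n = v (s n) n := by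
  classical
  let T : Type := WType (fun i : Fin 3 => (![Empty, Unit, ℕ] i : Type))
  let opn : (Σ i : Fin 3, (![Empty, Unit, ℕ] i : Type) → (ℕ → Ordinal.{0})) →
      (ℕ → Ordinal.{0}) := fun a => match a with
    | ⟨0, _⟩ => h0
    | ⟨1, f⟩ => nx (f ())
    | ⟨2, f⟩ => fun n => f n n
  refine ⟨T, WType.elim _ opn, ?_, ?_, ?_, ?_⟩
  · refine WType.cardinalMk_le_of_le ?_
    have h1 : ∀ a : Fin 3, ((2 : Cardinal.{0}) ^ ℵ₀) ^ #(![Empty, Unit, ℕ] a : Type) ≤ 2 ^ ℵ₀ := by
      intro a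
      fin_cases a
      · simp
        exact one_le_aleph0.trans (cantor ℵ₀).le
      · simp
      · simp
    refine (sum_le_sum _ _ h1).trans ?_
    rw [sum_const]
    have h2 : #(Fin 3) ≤ ℵ₀ := by
      rw [mk_le_aleph0_iff]
      infer_instance
    simp only [Cardinal.lift_id]
    refine (mul_le_mul_left h2 _).trans ?_
    rw [mul_eq_max le_rfl (cantor ℵ₀).le]
    exact max_le (cantor ℵ₀).le le_rfl
  · exact ⟨WType.mk (0 : Fin 3) Empty.elim, rfl⟩
  · intro t
    exact ⟨WType.mk (1 : Fin 3) (fun _ : Unit => t), rfl⟩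
  · intro s
    exact ⟨WType.mk (2 : Fin 3) (fun n : ℕ => s n), fun n => rfl⟩

/-- Least upper bounds modulo an ultrafilter exist for sequences of length `ω_{ω+1}`. -/
theorem exists_lub (hSL : SL) (D : Ultrafilter ℕ) (F : KK → ℕ → Ordinal.{0})
    (hmono : ∀ k k', k < k' → ∀ᶠ n in (D : Filter ℕ), F k n ≤ F k' n)
    (h0 : ℕ → Ordinal.{0}) (hh0 : ∀ k n, F k n ≤ h0 n) :
    ∃ h : ℕ → Ordinal.{0}, (∀ k, ∀ᶠ n in (D : Filter ℕ), F k n ≤ h n) ∧
      ∀ h' : ℕ → Ordinal.{0}, (∀ k, ∀ᶠ n in (D : Filter ℕ), F k n ≤ h' n) →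
        ∀ᶠ n in (D : Filter ℕ), h n ≤ h' n := by
  classical
  by_contra hcon
  push Not at hcon
  choose! nx hnx1 hnx2 using hcon
  obtain ⟨T, v, hT, ⟨t0, ht0⟩, hnx, hdiag⟩ := exists_closed h0 nx
  -- projections
  have hP : ∀ k n, ∃ t, F k n ≤ v t n ∧ ∀ t', F k n ≤ v t' n → v t n ≤ v t' n := by
    intro k n
    have hne : {o : Ordinal.{0} | ∃ t, F k n ≤ v t n ∧ o = v t n}.Nonempty :=
      ⟨_, t0, by rw [ht0]; exact hh0 k n, rfl⟩
    obtain ⟨o, ⟨t, ht1, ht2⟩, hmin⟩ :=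
      WellFounded.has_min (wellFounded_lt (α := Ordinal.{0})) _ hne
    refine ⟨t, ht1, fun t' ht' => ?_⟩
    rw [← ht2]
    exact not_lt.1 (hmin _ ⟨t', ht', rfl⟩)
  choose s hs1 hs2 using hP
  choose P hP using fun k => hdiag (s k)
  have hTle : #T ≤ ℵ_ ω := by
    refine hT.trans ?_
    have := (hSL 0).le
    rwa [al_zero] at this
  obtain ⟨t, ht⟩ := exists_cofinal_value hTle P
  have hub : ∀ k, ∀ᶠ n in (D : Filter ℕ), F k n ≤ v t n := by
    intro k
    obtain ⟨k', hkk, hk'⟩ := ht k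
    filter_upwards [hmono k k' hkk] with n hn
    rw [← hk', hP k' n]
    exact hn.trans (hs1 k' n)
  obtain ⟨t', ht'⟩ := hnx t
  obtain ⟨k0⟩ : Nonempty KK := inferInstance
  obtain ⟨k, -, hk⟩ := ht k0
  have h1 := hnx2 _ hub
  have h2 := hnx1 _ hub k
  have h3 : ∀ᶠ n in (D : Filter ℕ), False := by
    filter_upwards [h1, h2] with n h4 h5
    rw [← ht'] at h4 h5
    have h6 := hs2 k n t' h5
    rw [← hP k n, hk] at h6
    exact absurd h6 (not_le.2 h4)
  exact h3.exists.elim fun _ h => h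

/-- cofinal sequences in limit ordinals below `ω_n` -/
theorem exists_cof_seq {o : Ordinal.{0}} {n : ℕ} (ho : Order.IsSuccLimit o) (hlt : o < om n) :
    ∃ (t : ℕ) (C : Ordinal.{0} → Ordinal.{0}), (∀ ξ < om t, C ξ < o) ∧
      (∀ ξ η, ξ ≤ η → η < om t → C ξ ≤ C η) ∧ ∀ z < o, ∃ ξ < om t, z ≤ C ξ := by
  classical
  have h1 : ℵ₀ ≤ o.cof := aleph0_le_cof_iff.2 (one_lt_cof_iff.2 ho)
  have h2 : o.cof < ℵ_ ω := (cof_le_card o).trans_lt ((lt_om_iff.1 hlt).trans (al_lt_omega n))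
  obtain ⟨t, ht⟩ := exists_al_eq h1 h2
  have h3 : o.cof.ord = om t := by rw [ht, ord_al]
  obtain ⟨f, hf⟩ := exists_isFundamentalSeq h3
  refine ⟨t, fun ξ => if h : ξ < om t then (f ⟨ξ, h⟩).1 else 0, ?_, ?_, ?_⟩
  · intro ξ hξ
    simp only [dif_pos hξ]
    exact (f ⟨ξ, hξ⟩).2
  · intro ξ η hξη hη
    have hξ : ξ < om t := hξη.trans_lt hη
    simp only [dif_pos hξ, dif_pos hη]
    exact hf.strictMono.monotone (show (⟨ξ, hξ⟩ : Iio (om t)) ≤ ⟨η, hη⟩ from hξη)
  · intro z hz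
    obtain ⟨_, ⟨ξ, rfl⟩, hξ⟩ := hf.isCofinal_range ⟨z, hz⟩
    refine ⟨ξ.1, ξ.2, ?_⟩
    have : ξ.1 < om t := ξ.2
    simp only [dif_pos this]
    exact hξ

/-- The product of the `ω_n` modulo finite is not directed for families of size
aleph_{omega+1}. -/
theorem not_dir (hSL : SL) (hdir : ∀ G : KK → ℕ → Ordinal.{0}, (∀ k, InProd (G k)) →
    ∃ g, InProd g ∧ ∀ k, ∀ᶠ n in atTop, G k n ≤ g n) : False := by
  classical
  obtain ⟨F, hF1, hF2, -⟩ := exists_scale (ι := Empty) (by simp) (fun i => i.elim)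
    (fun i => i.elim)
  have hinf : ¬ ∀ᶠ n in atTop, n ∉ (univ : Set ℕ) := by
    intro h
    obtain ⟨n, hn⟩ := h.exists
    exact hn (mem_univ n)
  obtain ⟨D, hD, -⟩ := exists_ultra hinf
  obtain ⟨h, hub, hlub⟩ := exists_lub hSL D F (fun k k' hk => hD ((hF2 k k' hk).mono
    fun n hn => hn.le)) om (fun k n => (hF1 k n).le)
  obtain ⟨g, hg, hgF⟩ := hdir F hF1
  have hlt : ∀ᶠ n in (D : Filter ℕ), h n < om n := by
    filter_upwards [hlub g (fun k => hD (hgF k))] with n hn using hn.trans_lt (hg n)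
  have hslt : ∀ k, ∀ᶠ n in (D : Filter ℕ), F k n < h n := by
    intro k
    obtain ⟨k', hk'⟩ := exists_gt_KK k
    filter_upwards [hD (hF2 k k' hk'), hub k'] with n h1 h2 using h1.trans_le h2
  have hlim : ∀ᶠ n in (D : Filter ℕ), Order.IsSuccLimit (h n) := by
    by_contra hcon
    rw [← Ultrafilter.eventually_not] at hcon
    -- then the predecessors bound the sequence
    let pr : Ordinal.{0} → Ordinal.{0} := fun o => if h : ∃ x, o = x + 1 then h.choose else 0
    have hpr : ∀ o, o ≠ 0 → ¬ Order.IsSuccLimit o → o = pr o + 1 := by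
      intro o h1 h2
      have h3 : ∃ x, o = x + 1 := by
        by_contra hno
        push Not at hno
        refine h2 ⟨?_, ?_⟩
        · intro hmin
          exact h1 (by simpa using hmin.eq_bot)
        · rw [Order.isSuccPrelimit_iff_succ_ne]
          intro x hx
          exact hno x (by rw [← hx]; simp)
      simp only [pr, dif_pos h3]
      exact h3.choose_spec
    have h1 : ∀ᶠ n in (D : Filter ℕ), h n ≤ pr (h n) := by
      refine hlub (fun n => pr (h n)) fun k => ?_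
      filter_upwards [hslt k, hcon] with n hn h4
      have h5 := hpr (h n) (by rintro h0; rw [h0] at hn; exact not_lt_bot hn) h4
      rw [h5] at hn
      exact Order.lt_add_one_iff.1 hn
    obtain ⟨k0⟩ : Nonempty KK := inferInstance
    have h2 : ∀ᶠ n in (D : Filter ℕ), False := by
      filter_upwards [h1, hcon, hslt k0] with n h3 h4 h5
      have h6 := hpr (h n) (by rintro h0; rw [h0] at h5; exact not_lt_bot h5) h4
      have h7 : pr (h n) < h n := by
        conv_rhs => rw [h6]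
        exact Order.lt_add_one_iff.2 le_rfl
      exact absurd h3 (not_le.2 h7)
    exact h2.exists.elim fun _ h => h
  -- cofinal sequences
  have hseq : ∀ n, ∃ (t : ℕ) (C : Ordinal.{0} → Ordinal.{0}), Order.IsSuccLimit (h n) →
      h n < om n → (∀ ξ < om t, C ξ < h n) ∧
      (∀ ξ η, ξ ≤ η → η < om t → C ξ ≤ C η) ∧ ∀ z < h n, ∃ ξ < om t, z ≤ C ξ := by
    intro n
    by_cases hn : Order.IsSuccLimit (h n) ∧ h n < om n
    · obtain ⟨t, C, hC⟩ := exists_cof_seq hn.1 hn.2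
      exact ⟨t, C, fun _ _ => hC⟩
    · exact ⟨0, id, fun h1 h2 => absurd ⟨h1, h2⟩ hn⟩
  choose t C hC using hseq
  have hξ : ∀ k n, ∃ ξ : Ordinal.{0}, ξ < om (t n) ∧ (Order.IsSuccLimit (h n) → h n < om n →
      F k n < h n → F k n ≤ C n ξ) := by
    intro k n
    by_cases hn : Order.IsSuccLimit (h n) ∧ h n < om n ∧ F k n < h n
    · obtain ⟨ξ, h1, h2⟩ := (hC n hn.1 hn.2.1).2.2 _ hn.2.2
      exact ⟨ξ, h1, fun _ _ _ => h2⟩
    · exact ⟨0, om_pos _, fun h1 h2 h3 => absurd ⟨h1, h2, h3⟩ hn⟩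
  choose ξ hξ1 hξ2 using hξ
  have hξD : ∀ k, ∀ᶠ n in (D : Filter ℕ), F k n ≤ C n (ξ k n) := by
    intro k
    filter_upwards [hlim, hlt, hslt k] with n h1 h2 h3 using hξ2 k n h1 h2 h3
  -- a contradiction from a bound of the right form
  have final : ∀ η : ℕ → Ordinal.{0}, (∀ n, η n < om (t n)) →
      ¬ ∀ k, ∀ᶠ n in (D : Filter ℕ), F k n ≤ C n (η n) := by
    intro η hη hb
    have h1 := hlub _ hb
    have h2 : ∀ᶠ n in (D : Filter ℕ), False := by
      filter_upwards [h1, hlim, hlt] with n h3 h4 h5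
      exact absurd h3 (not_le.2 ((hC n h4 h5).1 _ (hη n)))
    exact h2.exists.elim fun _ h => h
  by_cases hns : ∀ m, ∀ᶠ n in (D : Filter ℕ), m ≤ t n
  · -- the cofinalities tend to infinity
    let G : KK → ℕ → Ordinal.{0} := fun k l =>
      if l = 0 then 0 else ⨆ n : {n // t n = l}, ξ k n.1
    have hG : ∀ k, InProd (G k) := by
      intro k l
      by_cases hl : l = 0
      · simp only [G, if_pos hl]; exact om_pos _
      · simp only [G, if_neg hl]
        refine iSup_lt_om ?_ fun n => ?_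
        · refine lt_of_le_of_lt (mk_subtype_le _) ?_
          rw [mk_nat, ← al_zero, al_lt]
          omega
        · have := hξ1 k n.1
          rwa [n.2] at this
    obtain ⟨g', hg', hgG⟩ := hdir G hG
    refine final (fun n => g' (t n)) (fun n => hg' _) fun k => ?_
    obtain ⟨m, hm⟩ := eventually_atTop.1 (hgG k)
    filter_upwards [hξD k, hns (m + 1), hlim, hlt] with n h1 h2 h3 h4
    refine h1.trans ((hC n h3 h4).2.1 _ _ ?_ (hg' _))
    have h5 := hm (t n) (by omega)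
    have h6 : t n ≠ 0 := by omega
    simp only [G, if_neg h6] at h5
    exact (Ordinal.le_iSup (fun n' : {n' // t n' = t n} => ξ k n'.1) ⟨n, rfl⟩).trans h5
  · -- the cofinalities are bounded
    push Not at hns
    obtain ⟨m, hm⟩ := hns
    have hm' : ∀ᶠ n in (D : Filter ℕ), t n < m := hm
    have hcard : #(ℕ → (om m).ToType) ≤ ℵ_ ω := by
      rw [← power_def, mk_nat, mk_toType, card_om]
      calc al m ^ ℵ₀ ≤ al m ^ al m := power_le_power_left (al_regular m).ne_zero (aleph0_le_al m)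
        _ = 2 ^ al m := power_self_eq (aleph0_le_al m)
        _ ≤ ℵ_ ω := (hSL m).le
    obtain ⟨η, hη⟩ := exists_cofinal_value hcard (fun k n =>
      if hn : ξ k n < om m then ToType.mk ⟨ξ k n, hn⟩ else ToType.mk ⟨0, om_pos m⟩)
    refine final (fun n => if (ToType.mk.symm (η n)).1 < om (t n) then (ToType.mk.symm (η n)).1
      else 0) (fun n => ?_) fun k => ?_
    · by_cases hn : (ToType.mk.symm (η n)).1 < om (t n)
      · simp only [if_pos hn]; exact hn
      · simp only [if_neg hn]; exact om_pos _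
    · obtain ⟨k', hkk, hk'⟩ := hη k
      filter_upwards [hξD k', hm', hD (hF2 k k' hkk)] with n h1 h2 h3
      have h4 : ξ k' n < om m := (hξ1 k' n).trans (om_lt.2 h2)
      have h5 : (ToType.mk.symm (η n)).1 = ξ k' n := by
        rw [← hk']
        simp only [dif_pos h4, OrderIso.symm_apply_apply]
      have h6 : ξ k' n < om (t n) := hξ1 k' n
      simp only [h5, if_pos h6]
      exact h3.le.trans h1

end

end Run7.h121
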