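import Pool.Agent.Run7.h121.Factor

/-!
# The minimal internal size of the range of a function
-/

namespace Run7.h121

noncomputable section

open Cardinal Ordinal Set Filter

variable {α : Type} {U : Ultrafilter α} {J : Type} {π : α → J}

theorem mk_RR (hSL : SL) (hF : Fac U J π) : #(J → ℕ) < ℵ_ ω := by
  rw [← power_def, mk_nat]
  exact power_lt_omega hSL (by rw [← al_zero]; exact al_lt_omega 0) hF.small

/-- `s` is a level at which there is a strongly uniform function -/
def Strong (U : Ultrafilter α) (π : α → J) (s : J → ℕ) (p : α → Ordinal.{0}) : Prop :=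
  NS U (fun x => s (π x)) ∧ (∀ x, p x < om (s (π x))) ∧
    ∀ f, InProd f → ∀ᶠ x in (U : Filter α), f (s (π x)) ≤ p x

/-- the fibre of `A` over `j` -/
def fib (π : α → J) (A : Set α) (j : J) : Set α := {x | x ∈ A ∧ π x = j}

/-- `s` bounds the internal size of the range of `G` on some member of `U` -/
def Bd {Y : Type} (U : Ultrafilter α) (π : α → J) (G : α → Y) (s : J → ℕ) (A : Set α) : Prop :=
  A ∈ U ∧ ∀ j, #(G '' fib π A j) ≤ al (s j)

/-- the small-range case: `G` factors through `π` -/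
theorem fac_of_bounded (hF : Fac U J π) {Y : Type} [Nonempty Y] (G : α → Y) {A : Set α}
    (hA : A ∈ U) {c : Cardinal.{0}} (hc : c < ℵ_ ω) (h : ∀ j, #(G '' fib π A j) ≤ c) :
    ∃ g : J → Y, ∀ᶠ x in (U : Filter α), G x = g (π x) := by
  classical
  obtain ⟨C, hC⟩ : ∃ C : Type, #C = c := ⟨c.out, mk_out c⟩
  have h' : ∀ j, Nonempty (G '' fib π A j ↪ C) := by
    intro j
    have := h j
    rw [← hC] at this
    exact this
  let e := fun j => (h' j).some
  have hmem : ∀ x (hx : x ∈ A), G x ∈ G '' fib π A (π x) := fun x hx =>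
    mem_image_of_mem G ⟨hx, rfl⟩
  let G' : α → Option C := fun x => if hx : x ∈ A then some (e (π x) ⟨G x, hmem x hx⟩) else none
  have hOC : #(Option C) < ℵ_ ω := by
    rw [mk_option, hC]
    exact add_lt_of_lt aleph0_le_omega hc (one_lt_aleph0.trans_le aleph0_le_omega)
  obtain ⟨g', hg'⟩ := hF.fac _ G' hOC
  refine ⟨fun j => if hj : ∃ z, some (e j z) = g' j then (hj.choose).1 else
    Classical.arbitrary Y, ?_⟩
  filter_upwards [hg', hA] with x hx hxA
  have h1 : some (e (π x) ⟨G x, hmem x hxA⟩) = g' (π x) := by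
    rw [← hx]; simp only [G', dif_pos hxA]
  have h2 : ∃ z, some (e (π x) z) = g' (π x) := ⟨_, h1⟩
  simp only [dif_pos h2]
  have h3 := (e (π x)).injective (Option.some_injective _ (h2.choose_spec.trans h1.symm))
  exact (congrArg Subtype.val h3).symm

/-- **Minimal range lemma.** -/
theorem min_range (hSL : SL) (hF : Fac U J π) {Y : Type} [Nonempty Y] (G : α → Y)
    (hne : ∃ s A, Bd U π G s A) :
    (∃ g : J → Y, ∀ᶠ x in (U : Filter α), G x = g (π x)) ∨
    ∃ (t : J → ℕ) (p : α → Ordinal.{0}), Strong U π t p ∧ (∃ A, Bd U π G t A) ∧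
      ∀ s, (∃ A, Bd U π G s A) → ∀ᶠ x in (U : Filter α), t (π x) ≤ s (π x) := by
  classical
  obtain ⟨n0, hn0⟩ := exists_al_of_lt (mk_RR hSL hF)
  let SS : Set (J → ℕ) := {s | ∃ A, Bd U π G s A}
  have hSS : ∀ s : SS, ∃ A, Bd U π G s.1 A := fun s => s.2
  choose A hA using hSS
  let T : α → Set ℕ := fun x => {n | ∃ s : SS, x ∈ A s ∧ s.1 (π x) = n}
  let t : α → ℕ := fun x => sInf (T x)
  obtain ⟨s0, hs0⟩ := hne
  have hTne : ∀ᶠ x in (U : Filter α), (T x).Nonempty := by
    filter_upwards [(hA ⟨s0, hs0⟩).1] with x hx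
    exact ⟨_, ⟨s0, hs0⟩, hx, rfl⟩
  have ht : ∀ s : SS, ∀ᶠ x in (U : Filter α), t x ≤ s.1 (π x) := by
    intro s
    filter_upwards [(hA s).1] with x hx
    exact Nat.sInf_le ⟨s, hx, rfl⟩
  have hω : #ℕ < ℵ_ ω := by rw [mk_nat, ← al_zero]; exact al_lt_omega 0
  obtain ⟨t', ht'⟩ := hF.fac ℕ t hω
  -- the set on which `t'` is computed
  let A' : Set α := {x | (T x).Nonempty ∧ t x = t' (π x)}
  have hA'U : A' ∈ U := by
    filter_upwards [hTne, ht'] with x h1 h2 using ⟨h1, h2⟩
  have hcov : ∀ j, G '' fib π A' j ⊆ ⋃ s : SS, {y | y ∈ G '' fib π (A s) j ∧ s.1 j = t' j} := by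
    rintro j _ ⟨x, ⟨⟨hx1, hx2⟩, rfl⟩, rfl⟩
    obtain ⟨s, hs, hs'⟩ := Nat.sInf_mem hx1
    refine mem_iUnion.2 ⟨s, ⟨x, ⟨hs, rfl⟩, rfl⟩, ?_⟩
    rw [hs']
    exact hx2
  have hcard : ∀ j, #(G '' fib π A' j) ≤ #(J → ℕ) * al (t' j) := by
    intro j
    refine (mk_le_mk_of_subset (hcov j)).trans ((mk_iUnion_le _).trans ?_)
    refine mul_le_mul' (mk_subtype_le _) (ciSup_le' fun s => ?_)
    by_cases hs : s.1 j = t' j
    · refine (mk_le_mk_of_subset (t := G '' fib π (A s) j) fun y hy => hy.1).trans ?_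
      rw [← hs]
      exact (hA s).2 j
    · have : {y | y ∈ G '' fib π (A s) j ∧ s.1 j = t' j} = ∅ := by
        ext y; simp [hs]
      rw [this, mk_eq_zero]
      exact zero_le
  by_cases hns : NS U (fun x => t' (π x))
  · right
    let A2 : Set α := {x | x ∈ A' ∧ n0 ≤ t' (π x)}
    have hA2U : A2 ∈ U := by
      filter_upwards [hA'U, hns n0] with x h1 h2 using ⟨h1, h2⟩
    have hBd : Bd U π G t' A2 := by
      refine ⟨hA2U, fun j => ?_⟩
      by_cases hj : n0 ≤ t' j
      · refine (mk_le_mk_of_subset (t := G '' fib π A' j) ?_).trans ((hcard j).trans ?_)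
        · rintro _ ⟨x, ⟨hx, rfl⟩, rfl⟩
          exact ⟨x, ⟨hx.1, rfl⟩, rfl⟩
        · refine (mul_le_mul' (hn0.le.trans (al_le.2 hj)) le_rfl).trans ?_
          rw [mul_eq_self (aleph0_le_al _)]
      · have : G '' fib π A2 j = ∅ := by
          rw [eq_empty_iff_forall_notMem]
          rintro _ ⟨x, ⟨hx, rfl⟩, rfl⟩
          exact hj hx.2
        rw [this, mk_eq_zero]
        exact zero_le
    have hinj : ∀ j, ∃ e : G '' fib π A2 j → Ordinal.{0}, Function.Injective e ∧
        ∀ i, e i < om (t' j) := by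
      intro j
      apply exists_inj
      rw [card_om]
      exact hBd.2 j
    choose e he1 he2 using hinj
    have hmem : ∀ x (hx : x ∈ A2), G x ∈ G '' fib π A2 (π x) := fun x hx =>
      mem_image_of_mem G ⟨hx, rfl⟩
    let p : α → Ordinal.{0} := fun x => if hx : x ∈ A2 then e (π x) ⟨G x, hmem x hx⟩ else 0
    refine ⟨t', p, ⟨hns, fun x => ?_, fun f hf => ?_⟩, ⟨A2, hBd⟩, fun s hs => ?_⟩
    · by_cases hx : x ∈ A2
      · simp only [p, dif_pos hx]; exact he2 _ _
      · simp only [p, dif_neg hx]; exact om_pos _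
    · by_contra hcon
      rw [← Ultrafilter.eventually_not] at hcon
      let A3 : Set α := {x | x ∈ A2 ∧ p x < f (t' (π x))}
      have hA3U : A3 ∈ U := by
        filter_upwards [hA2U, hcon] with x h1 h2 using ⟨h1, not_le.1 h2⟩
      have hBd3 : Bd U π G (fun j => t' j - 1) A3 := by
        refine ⟨hA3U, fun j => ?_⟩
        have h1 : #(G '' fib π A3 j) ≤ (f (t' j)).card := by
          have hm : ∀ y : G '' fib π A3 j, ∃ h : y.1 ∈ G '' fib π A2 j,
              e j ⟨y.1, h⟩ < f (t' j) := by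
            rintro ⟨_, x, ⟨hx, rfl⟩, rfl⟩
            refine ⟨hmem x hx.1, ?_⟩
            have h2 := hx.2
            have h3 : x ∈ A2 := hx.1
            simp only [p, dif_pos h3] at h2
            exact h2
          choose i hi using hm
          refine mk_le_of_inj (fun y => e j ⟨y.1, i y⟩) ?_ hi
          intro y z hyz
          have := he1 j hyz
          simpa [Subtype.ext_iff] using this
        have h2 := lt_om_iff.1 (hf (t' j))
        have h3 := h1.trans_lt h2
        obtain ⟨u, hu⟩ : ∃ u, u = t' j - 1 := ⟨_, rfl⟩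
        by_cases h0 : t' j = 0
        · refine h3.le.trans (al_le.2 ?_)
          omega
        · have h4 : t' j = t' j - 1 + 1 := by omega
          rw [h4, al_succ] at h3
          exact Order.lt_succ_iff.1 h3
      have h1 := ht ⟨_, A3, hBd3⟩
      have h2 : ∀ᶠ x in (U : Filter α), False := by
        filter_upwards [h1, ht', hns 1] with x h3 h4 h5
        rw [h4] at h3
        have h6 : t' (π x) ≤ t' (π x) - 1 := h3
        omega
      exact h2.exists.elim fun _ h => h
    · filter_upwards [ht ⟨s, hs⟩, ht'] with x h1 h2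
      rw [← h2]
      exact h1
  · left
    simp only [NS] at hns
    push Not at hns
    obtain ⟨m, hm⟩ := hns
    have hm' : ∀ᶠ x in (U : Filter α), t' (π x) < m := hm
    have hA4 : {x | x ∈ A' ∧ t' (π x) < m} ∈ U := by
      filter_upwards [hA'U, hm'] with x h1 h2 using ⟨h1, h2⟩
    refine fac_of_bounded hF G hA4 (c := #(J → ℕ) * al m)
      (mul_lt_of_lt aleph0_le_omega (mk_RR hSL hF) (al_lt_omega m)) fun j => ?_
    by_cases hj : t' j < m
    · refine (mk_le_mk_of_subset (t := G '' fib π A' j) ?_).trans ((hcard j).trans ?_)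
      · rintro _ ⟨x, ⟨hx, rfl⟩, rfl⟩
        exact ⟨x, ⟨hx.1, rfl⟩, rfl⟩
      · exact mul_le_mul' le_rfl (al_le.2 hj.le)
    · have : G '' fib π {x | x ∈ A' ∧ t' (π x) < m} j = ∅ := by
        rw [eq_empty_iff_forall_notMem]
        rintro _ ⟨x, ⟨hx, rfl⟩, rfl⟩
        exact hj hx.2
      rw [this, mk_eq_zero]
      exact zero_le

/-- functions into a set of size at most aleph_omega have bounded range sizes -/
theorem exists_Bd (hF : Fac U J π) {Y : Type} (hY : #Y ≤ ℵ_ ω) (G : α → Y) :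
    ∃ s A, Bd U π G s A := by
  obtain ⟨ρ, hρ⟩ := exists_rank hY
  have hω : #ℕ < ℵ_ ω := by rw [mk_nat, ← al_zero]; exact al_lt_omega 0
  obtain ⟨s, hs⟩ := hF.fac ℕ (fun x => ρ (G x)) hω
  refine ⟨s, {x | ρ (G x) = s (π x)}, hs, fun j => ?_⟩
  have h1 : #(G '' fib π {x | ρ (G x) = s (π x)} j) ≤ #{y // ρ y < s j + 1} := by
    refine mk_le_mk_of_subset (t := {y | ρ y < s j + 1}) ?_
    rintro _ ⟨x, ⟨hx, rfl⟩, rfl⟩
    have : ρ (G x) = s (π x) := hx
    show ρ (G x) < s (π x) + 1
    omega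
  have h2 := h1.trans_lt (hρ (s j + 1))
  rw [al_succ] at h2
  exact Order.lt_succ_iff.1 h2

end

end Run7.h121
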