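import Pool.Agent.Run7.h121.LimG

/-!
# The fully decomposable case
-/

namespace Run7.h121

noncomputable section

open Cardinal Ordinal Set Filter

theorem Dir.mono_card {ℱ : Filter ℕ} {κ κ' : Cardinal.{0}} (h : κ ≤ κ') (hd : Dir ℱ κ') :
    Dir ℱ κ := fun ι G hι hG => hd ι G (hι.trans_le h) hG

/-- Least upper bounds modulo an ultrafilter. -/
theorem exists_lubG (hSL : SL) {κ : Cardinal.{0}} (hκ : κ.IsRegular) (hκω : ℵ_ ω < κ)
    (D : Ultrafilter ℕ) (F : KT κ → ℕ → Ordinal.{0})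
    (hmono : ∀ k k', k < k' → ∀ᶠ n in (D : Filter ℕ), F k n ≤ F k' n)
    (h0 : ℕ → Ordinal.{0}) (hh0 : ∀ k n, F k n ≤ h0 n) :
    ∃ h : ℕ → Ordinal.{0}, (∀ k, ∀ᶠ n in (D : Filter ℕ), F k n ≤ h n) ∧
      ∀ h' : ℕ → Ordinal.{0}, (∀ k, ∀ᶠ n in (D : Filter ℕ), F k n ≤ h' n) →
        ∀ᶠ n in (D : Filter ℕ), h n ≤ h' n := by
  classical
  by_contra hcon
  push Not at hcon
  choose! nx hnx1 hnx2 using hcon
  obtain ⟨T, v, hT, ⟨t0, ht0⟩, hnx, hdiag⟩ := exists_closed h0 nx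
  have hP : ∀ k n, ∃ t, F k n ≤ v t n ∧ ∀ t', F k n ≤ v t' n → v t n ≤ v t' n := by
    intro k n
    have hne : {o : Ordinal.{0} | ∃ t, F k n ≤ v t n ∧ o = v t n}.Nonempty :=
      ⟨_, t0, by rw [ht0]; exact hh0 k n, rfl⟩
    obtain ⟨o, ⟨t, ht1, ht2⟩, hmin⟩ :=
      WellFounded.has_min (wellFounded_lt (α := Ordinal.{0})) _ hne
    refine ⟨t, ht1, fun t' ht' => ?_⟩
    rw [← ht2]
    exact not_lt.1 (hmin _ ⟨t', ht', rfl⟩)
  choose s hs1 hs2 using hP
  choose P hP using fun k => hdiag (s k)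
  have hTle : #T < κ := by
    refine (hT.trans ?_).trans_lt hκω
    have := (hSL 0).le
    rwa [al_zero] at this
  obtain ⟨t, ht⟩ := exists_cofinal_value_KT hκ hTle P
  have hub : ∀ k, ∀ᶠ n in (D : Filter ℕ), F k n ≤ v t n := by
    intro k
    obtain ⟨k', hkk, hk'⟩ := ht k
    filter_upwards [hmono k k' hkk] with n hn
    rw [← hk', hP k' n]
    exact hn.trans (hs1 k' n)
  obtain ⟨t', ht'⟩ := hnx t
  obtain ⟨k0⟩ := nonempty_KT hκ
  obtain ⟨k, -, hk⟩ := ht k0
  have h1 := hnx2 _ hub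
  have h2 := hnx1 _ hub k
  have h3 : ∀ᶠ n in (D : Filter ℕ), False := by
    filter_upwards [h1, h2] with n h4 h5
    rw [← ht'] at h4 h5
    have h6 := hs2 k n t' h5
    rw [← hP k n, hk] at h6
    exact absurd h6 (not_le.2 h4)
  exact h3.exists.elim fun _ h => h

/-- **No hole.** If `A` carries a cofinal family of size `ℵ_(ω+1)` then off `A` not all families of
size `ℵ_(ω+2)` are bounded. -/
theorem no_hole (hSL : SL) {A : Set ℕ} (hA : Gen A)
    (hdir : Dir (atTop ⊓ 𝓟 Aᶜ) (Order.succ (Order.succ kp))) : False := by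
  classical
  obtain ⟨κ, hκdef⟩ : ∃ κ, κ = Order.succ kp := ⟨_, rfl⟩
  rw [← hκdef] at hdir
  have hκ : κ.IsRegular := by rw [hκdef]; exact isRegular_succ kp_regular.aleph0_le
  have hkκ : kp < κ := by rw [hκdef]; exact Order.lt_succ _
  have hκω : ℵ_ ω < κ := (lt_kp.2 le_rfl).trans hkκ
  have hκ0 := hκ.aleph0_le
  obtain ⟨ℱ, hℱdef⟩ : ∃ ℱ : Filter ℕ, ℱ = atTop ⊓ 𝓟 Aᶜ := ⟨_, rfl⟩
  rw [← hℱdef] at hdir
  have hℱ : ∀ {P : ℕ → Prop}, (∀ᶠ n in ℱ, P n) ↔ ∀ᶠ n in atTop, n ∉ A → P n := by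
    intro P
    rw [hℱdef, eventually_inf_principal]
    rfl
  obtain ⟨F, hF1, hF2, -⟩ := (hdir.mono_card (Order.le_succ κ)).exists_scale hκ0
    (ι := Empty) (by rw [mk_eq_zero]; exact hκ.pos) (fun i => i.elim) (fun i => i.elim)
  have hinf : ¬ ∀ᶠ n in ℱ, n ∉ (univ : Set ℕ) := by
    intro h
    rw [hℱ] at h
    obtain ⟨m, hm⟩ := eventually_atTop.1 h
    obtain ⟨n, hn, hnA⟩ := hA.coinf m
    exact hm n hn hnA (mem_univ n)
  obtain ⟨D, hD, -⟩ := exists_ultraG hinf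
  obtain ⟨h, hub, hlub⟩ := exists_lubG hSL hκ hκω D F (fun k k' hk => hD ((hF2 k k' hk).mono
    fun n hn => hn.le)) om (fun k n => (hF1 k n).le)
  obtain ⟨g, hg, hgF⟩ := hdir (KT κ) F (by rw [mk_KT]; exact Order.lt_succ κ) hF1
  have hlt : ∀ᶠ n in (D : Filter ℕ), h n < om n := by
    filter_upwards [hlub g (fun k => hD (hgF k))] with n hn using hn.trans_lt (hg n)
  have hgt : ∀ k : KT κ, ∃ k', k < k' := by
    intro k
    obtain ⟨k', hk'⟩ := exists_bound_KT hκ (ι := Unit)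
      (by simpa using one_lt_aleph0.trans_le hκ0) (fun _ => k)
    exact ⟨k', hk' ()⟩
  have hslt : ∀ k, ∀ᶠ n in (D : Filter ℕ), F k n < h n := by
    intro k
    obtain ⟨k', hk'⟩ := hgt k
    filter_upwards [hD (hF2 k k' hk'), hub k'] with n h1 h2 using h1.trans_le h2
  obtain ⟨k0⟩ := nonempty_KT hκ
  have hlim : ∀ᶠ n in (D : Filter ℕ), Order.IsSuccLimit (h n) := by
    by_contra hcon
    rw [← Ultrafilter.eventually_not] at hcon
    let pr : Ordinal.{0} → Ordinal.{0} := fun o => if h : ∃ x, o = x + 1 then h.choose else 0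
    have hpr : ∀ o, o ≠ 0 → ¬ Order.IsSuccLimit o → o = pr o + 1 := by
      intro o h1 h2
      have h3 : ∃ x, o = x + 1 := by
        by_contra hno
        push Not at hno
        refine h2 ⟨?_, ?_⟩
        · intro hmin
          exact h1 (by simpa using hmin.eq_bot)
        · rw [Order.isSuccPrelimit_iff_succ_ne]
          intro x hx
          exact hno x (by rw [← hx]; simp)
      simp only [pr, dif_pos h3]
      exact h3.choose_spec
    have h1 : ∀ᶠ n in (D : Filter ℕ), h n ≤ pr (h n) := by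
      refine hlub (fun n => pr (h n)) fun k => ?_
      filter_upwards [hslt k, hcon] with n hn h4
      have h5 := hpr (h n) (by rintro h0; rw [h0] at hn; exact not_lt_bot hn) h4
      rw [h5] at hn
      exact Order.lt_add_one_iff.1 hn
    have h2 : ∀ᶠ n in (D : Filter ℕ), False := by
      filter_upwards [h1, hcon, hslt k0] with n h3 h4 h5
      have h6 := hpr (h n) (by rintro h0; rw [h0] at h5; exact not_lt_bot h5) h4
      have h7 : pr (h n) < h n := by
        conv_rhs => rw [h6]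
        exact Order.lt_add_one_iff.2 le_rfl
      exact absurd h3 (not_le.2 h7)
    exact h2.exists.elim fun _ h => h
  have hseq : ∀ n, ∃ (t : ℕ) (C : Ordinal.{0} → Ordinal.{0}), Order.IsSuccLimit (h n) →
      h n < om n → (∀ ξ < om t, C ξ < h n) ∧
      (∀ ξ η, ξ ≤ η → η < om t → C ξ ≤ C η) ∧ ∀ z < h n, ∃ ξ < om t, z ≤ C ξ := by
    intro n
    by_cases hn : Order.IsSuccLimit (h n) ∧ h n < om n
    · obtain ⟨t, C, hC⟩ := exists_cof_seq hn.1 hn.2
      exact ⟨t, C, fun _ _ => hC⟩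
    · exact ⟨0, id, fun h1 h2 => absurd ⟨h1, h2⟩ hn⟩
  choose t C hC using hseq
  have hξ : ∀ k n, ∃ ξ : Ordinal.{0}, ξ < om (t n) ∧ (Order.IsSuccLimit (h n) → h n < om n →
      F k n < h n → F k n ≤ C n ξ) := by
    intro k n
    by_cases hn : Order.IsSuccLimit (h n) ∧ h n < om n ∧ F k n < h n
    · obtain ⟨ξ, h1, h2⟩ := (hC n hn.1 hn.2.1).2.2 _ hn.2.2
      exact ⟨ξ, h1, fun _ _ _ => h2⟩
    · exact ⟨0, om_pos _, fun h1 h2 h3 => absurd ⟨h1, h2, h3⟩ hn⟩
  choose ξ hξ1 hξ2 using hξ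
  have hξD : ∀ k, ∀ᶠ n in (D : Filter ℕ), F k n ≤ C n (ξ k n) := by
    intro k
    filter_upwards [hlim, hlt, hslt k] with n h1 h2 h3 using hξ2 k n h1 h2 h3
  have final : ∀ η : ℕ → Ordinal.{0}, (∀ n, η n < om (t n)) →
      ¬ ∀ k, ∀ᶠ n in (D : Filter ℕ), F k n ≤ C n (η n) := by
    intro η hη hb
    have h1 := hlub _ hb
    have h2 : ∀ᶠ n in (D : Filter ℕ), False := by
      filter_upwards [h1, hlim, hlt] with n h3 h4 h5
      exact absurd h3 (not_le.2 ((hC n h4 h5).1 _ (hη n)))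
    exact h2.exists.elim fun _ h => h
  by_cases hns : ∀ m, ∀ᶠ n in (D : Filter ℕ), m ≤ t n
  · let G : KT κ → ℕ → Ordinal.{0} := fun k l =>
      if l = 0 then 0 else ⨆ n : {n // t n = l}, ξ k n.1
    have hG : ∀ k, InProd (G k) := by
      intro k l
      by_cases hl : l = 0
      · simp only [G, if_pos hl]; exact om_pos _
      · simp only [G, if_neg hl]
        refine iSup_lt_om ?_ fun n => ?_
        · refine lt_of_le_of_lt (mk_subtype_le _) ?_
          rw [mk_nat, ← al_zero, al_lt]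
          omega
        · have := hξ1 k n.1
          rwa [n.2] at this
    have hGle : ∀ k n, 1 ≤ t n → ξ k n ≤ G k (t n) := by
      intro k n hn
      have h6 : t n ≠ 0 := by omega
      simp only [G, if_neg h6]
      exact Ordinal.le_iSup (fun n' : {n' // t n' = t n} => ξ k n'.1) ⟨n, rfl⟩
    have hev : ∀ {P : ℕ → Prop}, (∀ᶠ l in atTop, P l) → ∀ᶠ n in (D : Filter ℕ), P (t n) := by
      intro P hP
      obtain ⟨m, hm⟩ := eventually_atTop.1 hP
      filter_upwards [hns m] with n hn using hm _ hn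
    rcases D.mem_or_compl_mem {n | t n ∈ A} with hDA | hDA
    · obtain ⟨FA, hFA1, hFA2⟩ := hA.cof
      choose j hj using fun k => hFA2 (G k) (hG k)
      obtain ⟨j0, hj0⟩ := exists_cofinal_value_KT hκ (by rw [mk_KK]; exact hkκ) j
      refine final (fun n => FA j0 (t n)) (fun n => hFA1 _ _) fun k => ?_
      obtain ⟨k', hkk, hk'⟩ := hj0 k
      have h7 := hj k'
      rw [hk'] at h7
      filter_upwards [hξD k', hns 1, hlim, hlt, hDA, hev h7, hD (hF2 k k' hkk)]
        with n h1 h2 h3 h4 h5 h6 h8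
      exact h8.le.trans (h1.trans ((hC n h3 h4).2.1 _ _ ((hGle k' n h2).trans (h6 h5))
        (hFA1 _ _)))
    · obtain ⟨g', hg', hgG⟩ := hdir (KT κ) G (by rw [mk_KT]; exact Order.lt_succ κ) hG
      refine final (fun n => g' (t n)) (fun n => hg' _) fun k => ?_
      have h7 := hℱ.1 (hgG k)
      filter_upwards [hξD k, hns 1, hlim, hlt, hDA, hev h7] with n h1 h2 h3 h4 h5 h6
      exact h1.trans ((hC n h3 h4).2.1 _ _ ((hGle k n h2).trans (h6 h5)) (hg' _))
  · push Not at hns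
    obtain ⟨m, hm⟩ := hns
    have hm' : ∀ᶠ n in (D : Filter ℕ), t n < m := hm
    have hcard : #(ℕ → (om m).ToType) < κ := by
      refine lt_of_le_of_lt ?_ hκω
      rw [← power_def, mk_nat, mk_toType, card_om]
      calc al m ^ ℵ₀ ≤ al m ^ al m := power_le_power_left (al_regular m).ne_zero (aleph0_le_al m)
        _ = 2 ^ al m := power_self_eq (aleph0_le_al m)
        _ ≤ ℵ_ ω := (hSL m).le
    obtain ⟨η, hη⟩ := exists_cofinal_value_KT hκ hcard (fun k n =>
      if hn : ξ k n < om m then ToType.mk ⟨ξ k n, hn⟩ else ToType.mk ⟨0, om_pos m⟩)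
    refine final (fun n => if (ToType.mk.symm (η n)).1 < om (t n) then (ToType.mk.symm (η n)).1
      else 0) (fun n => ?_) fun k => ?_
    · by_cases hn : (ToType.mk.symm (η n)).1 < om (t n)
      · simp only [if_pos hn]; exact hn
      · simp only [if_neg hn]; exact om_pos _
    · obtain ⟨k', hkk, hk'⟩ := hη k
      filter_upwards [hξD k', hm', hD (hF2 k k' hkk)] with n h1 h2 h3
      have h4 : ξ k' n < om m := (hξ1 k' n).trans (om_lt.2 h2)
      have h5 : (ToType.mk.symm (η n)).1 = ξ k' n := by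
        rw [← hk']
        simp only [dif_pos h4, OrderIso.symm_apply_apply]
      have h6 : ξ k' n < om (t n) := hξ1 k' n
      simp only [h5, if_pos h6]
      exact h3.le.trans h1

/-! ### The lower bound numbers -/

variable {α : Type} {U : Ultrafilter α} {B : Set (Set α)} {p : ℕ → α → Ordinal.{0}} {r0 : α → ℕ}
  {A : Set ℕ}

/-- some family of nonstandard numbers without nonstandard lower bound, of least size -/
theorem exists_coinit (U : Ultrafilter α) : ∃ (ι : Type) (R : ι → α → ℕ), (∀ i, NS U (R i)) ∧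
    (¬ ∃ r, NS U r ∧ ∀ i, ∀ᶠ x in (U : Filter α), r x ≤ R i x) ∧
    ∀ (ι' : Type) (R' : ι' → α → ℕ), #ι' < #ι → (∀ i, NS U (R' i)) →
      ∃ r, NS U r ∧ ∀ i, ∀ᶠ x in (U : Filter α), r x ≤ R' i x := by
  let P : Set Cardinal.{0} := {c | ∃ (ι : Type) (R : ι → α → ℕ), #ι = c ∧ (∀ i, NS U (R i)) ∧
    ¬ ∃ r, NS U r ∧ ∀ i, ∀ᶠ x in (U : Filter α), r x ≤ R i x}
  have hne : P.Nonempty := by
    refine ⟨_, {R : α → ℕ // NS U R}, fun R => R.1, rfl, fun R => R.2, ?_⟩
    rintro ⟨r, hr, h⟩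
    have h1 : NS U (fun x => r x - 1) := by
      intro m
      filter_upwards [hr (m + 1)] with x hx
      omega
    obtain ⟨x, h2, h3⟩ := ((h ⟨_, h1⟩).and (hr 1)).exists
    simp only at h2
    omega
  obtain ⟨c, ⟨ι, R, hι, hR, hno⟩, hmin⟩ :=
    WellFounded.has_min (wellFounded_lt (α := Cardinal.{0})) P hne
  refine ⟨ι, R, hR, hno, fun ι' R' hι' hR' => ?_⟩
  by_contra hcon
  rw [hι] at hι'
  exact hmin _ ⟨ι', R', rfl, hR', hcon⟩ hι'

/-- In the fully decomposable case, off `A` all families of size less than `2 ^ ℵ_ω` are bounded. -/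
theorem Dat.dir_compl (hSL : SL) (hd : Dat U B p r0) (hA : Gen A) :
    Dir (atTop ⊓ 𝓟 Aᶜ) ((2 : Cardinal.{0}) ^ (ℵ_ ω)) := by
  classical
  obtain ⟨ι, R, hR, hno, hmin⟩ := exists_coinit U
  have hkι : kp < #ι := by
    by_contra hcon
    exact hno (hd.exists_lower hA (not_lt.1 hcon) R hR)
  have h0 : ℵ₀ ≤ #ι := kp_regular.aleph0_le.trans hkι.le
  -- small cofinality is impossible off `A`
  have hSm : ∀ X : Set ℕ, X ⊆ Aᶜ → Sm #ι X → ∀ᶠ n in atTop, n ∉ X := by
    rintro X hXA ⟨ι', F, hι', hF, hc⟩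
    by_contra hcon
    have hX : ∀ m, ∃ n ≥ m, n ∈ X := by
      intro m
      by_contra hno'
      push Not at hno'
      exact hcon (eventually_atTop.2 ⟨m, hno'⟩)
    obtain ⟨r, hr, hrR⟩ := hmin ι' (fun i => rg X p r0 (F i)) hι' (fun i => hd.ns_rg X (hF i))
    have hs := hr.fl hX
    have hsX := hr.fl_mem hX
    obtain ⟨f, hf, hfq⟩ := hd.exists_bound hA hs (hsX.mono fun x hx => hXA hx)
      (fun x => p (fl X (r x)) x) (fun x => hd.lt _ _)
    obtain ⟨i, hi⟩ := hc f hf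
    obtain ⟨x, h1, h2, h3, h4, h5⟩ :=
      (hfq.and (hsX.and ((hs.eventually hi).and ((hrR i).and (hs 1))))).exists
    have h5' : 1 ≤ fl X (r x) := h5
    have h6 := rg_spec (E := X) (p := p) (r0 := r0) (g := F i) (x := x) (i := fl X (r x))
      (by omega) ((fl_le _ _).trans h4) h2
    exact absurd ((h1.trans_le (h3 h2)).trans_le h6) (lt_irrefl _)
  have hle : atTop ⊓ 𝓟 Aᶜ ≤ FF #ι := by
    intro Y hY
    rw [mem_FF h0] at hY
    have h1 := hSm (Yᶜ ∩ Aᶜ) inter_subset_right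
      (hY.mono (Eventually.of_forall fun n hn => hn.1))
    rw [mem_inf_principal]
    filter_upwards [h1] with n hn hnA
    by_contra hnY
    exact hn ⟨hnY, hnA⟩
  have hdir : Dir (atTop ⊓ 𝓟 Aᶜ) #ι := (dir_FF hSL _ h0).mono hle
  -- a dominating family
  refine hdir.mono_card ?_
  have hx : ∀ (b : B) (i : ι) (j : ℕ), ∃ x ∈ b.1, j ≤ R i x := by
    intro b i j
    obtain ⟨x, h1, h2⟩ := ((hR i j).and (hd.hB _ b.2)).exists
    exact ⟨x, h2, h1⟩
  choose x hx1 hx2 using hx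
  have h1 := pow_le_of_dominatingG hSL (ι := B × ι) (fun q j => p j (x q.1 q.2 j))
    (fun q j => hd.lt _ _) (fun f hf => by
      have hr := hd.ns_rg univ hf
      have h2 : ∃ i, ¬ ∀ᶠ x in (U : Filter α), rg univ p r0 f x ≤ R i x := by
        by_contra hcon
        push Not at hcon
        exact hno ⟨_, hr, hcon⟩
      obtain ⟨i, hi⟩ := h2
      rw [← Ultrafilter.eventually_not] at hi
      obtain ⟨b, hb, hbX⟩ := hd.base _ hi
      refine ⟨(⟨b, hb⟩, i), ?_⟩
      filter_upwards [eventually_ge_atTop 1] with j hj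
      have h3 := hbX (hx1 ⟨b, hb⟩ i j)
      have h4 := hx2 ⟨b, hb⟩ i j
      have h5 : ¬ rg univ p r0 f (x ⟨b, hb⟩ i j) ≤ R i (x ⟨b, hb⟩ i j) := h3
      exact rg_spec (E := univ) (p := p) (r0 := r0) (g := f) (by omega) (by omega) (mem_univ _))
  refine h1.trans ?_
  rw [mk_prod, Cardinal.lift_id, Cardinal.lift_id]
  exact (mul_le_mul' (hd.card.trans hkι.le) le_rfl).trans (mul_eq_self h0).le

/-- In the fully decomposable case `2 ^ ℵ_ω = ℵ_(ω+2)`. -/
theorem Dat.pow_eq (hSL : SL) (hpow : kp < (2 : Cardinal.{0}) ^ (ℵ_ ω)) (hd : Dat U B p r0)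
    (hA : Gen A) : (2 : Cardinal.{0}) ^ (ℵ_ ω) = Order.succ kp := by
  refine le_antisymm ?_ (Order.succ_le_of_lt hpow)
  by_contra hcon
  have h1 : Order.succ (Order.succ kp) ≤ (2 : Cardinal.{0}) ^ (ℵ_ ω) :=
    Order.succ_le_of_lt (not_le.1 hcon)
  exact no_hole hSL hA ((hd.dir_compl hSL hA).mono_card h1)

end

end Run7.h121
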