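import Pool.Agent.Run7.h121.Basic

/-!
# Elementary pcf theory of the alephs, at a strong limit aleph_omega
-/

namespace Run7.h121

noncomputable section

open Cardinal Ordinal Set Filter

/-- A function in the product of the `ω_n`. -/
def InProd (f : ℕ → Ordinal.{0}) : Prop := ∀ n, f n < om n

/-- aleph_omega is a strong limit cardinal -/
def SL : Prop := ∀ n : ℕ, (2 : Cardinal.{0}) ^ al n < ℵ_ ω

/-- a well-ordered type of order type `ω_{ω+1}` -/
abbrev KK : Type := kp.ord.ToType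

theorem mk_KK : #KK = kp := by simp [KK]

theorem mk_Iio_KK (k : KK) : #(Iio k) ≤ ℵ_ ω := by
  have h := mk_Iio_lt k (by simp)
  rw [mk_KK] at h
  exact lt_kp.1 h

theorem exists_bound_KK {ι : Type} (h : #ι ≤ ℵ_ ω) (f : ι → KK) : ∃ k, ∀ i, f i < k := by
  by_contra hcon
  push Not at hcon
  have h1 : IsCofinal (range f) := by
    intro k
    obtain ⟨i, hi⟩ := hcon k
    exact ⟨f i, mem_range_self i, hi⟩
  have h2 := Order.cof_le h1
  rw [Ordinal.cof_toType, kp_regular.cof_ord] at h2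
  have h3 : kp ≤ ℵ_ ω := (h2.trans mk_range_le).trans h
  exact absurd h3 (not_le.2 (by rw [kp_succ]; exact Order.lt_succ _))

instance : Nonempty KK := by
  rw [← mk_ne_zero_iff, mk_KK]
  exact kp_regular.ne_zero

theorem exists_gt_KK (k : KK) : ∃ k', k < k' := by
  obtain ⟨k', h⟩ := exists_bound_KK (ι := Unit) (by simpa using one_le_aleph0.trans aleph0_le_omega)
    (fun _ => k)
  exact ⟨k', h ()⟩

/-- a function from `KK` to a small set takes some value cofinally often -/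
theorem exists_cofinal_value {β : Type} (h : #β ≤ ℵ_ ω) (C : KK → β) :
    ∃ b, ∀ k, ∃ k', k < k' ∧ C k' = b := by
  by_contra hcon
  push Not at hcon
  choose f hf using hcon
  obtain ⟨k, hk⟩ := exists_bound_KK h f
  exact hf (C k) k (hk _) rfl

theorem mk_setNat (hSL : SL) : #(Set ℕ) ≤ ℵ_ ω := by
  rw [mk_set]
  have := (hSL 0).le
  rw [al_zero] at this
  simpa using this

theorem two_pow_lt (hSL : SL) {c : Cardinal.{0}} (h : c < ℵ_ ω) : (2 : Cardinal.{0}) ^ c < ℵ_ ω := by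
  obtain ⟨n, hn⟩ := exists_al_of_lt h
  exact (power_le_power_left two_ne_zero hn.le).trans_lt (hSL n)

theorem mk_ultrafilterNat (hSL : SL) : #(Ultrafilter ℕ) ≤ ℵ_ ω := by
  have h1 : #(Ultrafilter ℕ) ≤ #(Set (Set ℕ)) := by
    refine mk_le_of_injective (f := fun D : Ultrafilter ℕ => {A | A ∈ D}) ?_
    intro D D' h
    refine Ultrafilter.coe_injective (Filter.ext fun A => ?_)
    exact Set.ext_iff.1 h A
  refine h1.trans ?_
  rw [mk_set]
  refine (two_pow_lt hSL ?_).le
  rw [mk_set, mk_nat]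
  have := hSL 0
  rwa [al_zero] at this

/-- the product of the `ω_n` is directed modulo finite for families of size aleph_omega -/
theorem exists_bound {ι : Type} (h : #ι ≤ ℵ_ ω) (F : ι → ℕ → Ordinal.{0})
    (hF : ∀ i, InProd (F i)) : ∃ g, InProd g ∧ ∀ i, ∀ᶠ n in atTop, F i n ≤ g n := by
  obtain ⟨ρ, hρ⟩ := exists_rank h
  refine ⟨fun n => ⨆ i : {i // ρ i < n}, F i.1 n, fun n => ?_, fun i => ?_⟩
  · exact iSup_lt_om (hρ n) fun i => hF i.1 n
  · filter_upwards [eventually_gt_atTop (ρ i)] with n hn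
    exact Ordinal.le_iSup (fun i : {i // ρ i < n} => F i.1 n) ⟨i, hn⟩

theorem exists_sbound {ι : Type} (h : #ι ≤ ℵ_ ω) (F : ι → ℕ → Ordinal.{0})
    (hF : ∀ i, InProd (F i)) : ∃ g, InProd g ∧ ∀ i, ∀ᶠ n in atTop, F i n < g n := by
  obtain ⟨g, hg, h⟩ := exists_bound h F hF
  refine ⟨fun n => g n + 1, fun n => add_one_lt_om (hg n), fun i => ?_⟩
  filter_upwards [h i] with n hn
  exact Order.lt_add_one_iff.2 hn

/-- universal increasing sequences of length `ω_{ω+1}` -/
theorem exists_scale {ι : Type} (hι : #ι ≤ ℵ_ ω) (G : ι → KK → ℕ → Ordinal.{0})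
    (hG : ∀ i k, InProd (G i k)) :
    ∃ F : KK → ℕ → Ordinal.{0}, (∀ k, InProd (F k)) ∧
      (∀ k k', k < k' → ∀ᶠ n in atTop, F k n < F k' n) ∧
      ∀ i k, ∀ᶠ n in atTop, G i k n < F k n := by
  have key : ∀ (k : KK) (r : ∀ k', k' < k → {f // InProd f}), ∃ g : {f // InProd f},
      (∀ k' (h : k' < k), ∀ᶠ n in atTop, (r k' h).1 n < g.1 n) ∧
      ∀ i, ∀ᶠ n in atTop, G i k n < g.1 n := by
    intro k r
    obtain ⟨g, hg, h⟩ := exists_sbound (ι := ι ⊕ Iio k) (by
        rw [mk_sum, Cardinal.lift_id, Cardinal.lift_id]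
        exact (add_le_add hι (mk_Iio_KK k)).trans (add_eq_self aleph0_le_omega).le)
      (Sum.elim (fun i => G i k) (fun k' => (r k'.1 k'.2).1))
      (by
        rintro (i | k')
        · exact hG i k
        · exact (r k'.1 k'.2).2)
    exact ⟨⟨g, hg⟩, fun k' hk' => h (Sum.inr ⟨k', hk'⟩), fun i => h (Sum.inl i)⟩
  choose N hN1 hN2 using key
  let F : KK → {f // InProd f} := WellFounded.fix (wellFounded_lt) N
  have hF : ∀ k, F k = N k (fun k' _ => F k') := fun k => WellFounded.fix_eq _ _ _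
  refine ⟨fun k => (F k).1, fun k => (F k).2, ?_, ?_⟩
  · intro k k' hk
    have := hN1 k' (fun k' _ => F k') k hk
    rw [← hF] at this
    exact this
  · intro i k
    have := hN2 k (fun k' _ => F k') i
    rw [← hF] at this
    exact this

/-- the ultrafilter `D` has a product of cofinality at most aleph_{omega+1} -/
def CS (D : Ultrafilter ℕ) : Prop :=
  ∃ F : KK → ℕ → Ordinal.{0}, (∀ k, InProd (F k)) ∧
    ∀ f, InProd f → ∃ k, ∀ᶠ n in (D : Filter ℕ), f n ≤ F k n

/-- the ideal of sets all of whose nonprincipal ultrafilters have small cofinality -/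
def JJ (A : Set ℕ) : Prop := ∀ D : Ultrafilter ℕ, (D : Filter ℕ) ≤ atTop → A ∈ D → CS D

theorem JJ_mono {A B : Set ℕ} (h : ∀ᶠ n in atTop, n ∈ A → n ∈ B) (hB : JJ B) : JJ A := by
  intro D hD hA
  refine hB D hD ?_
  filter_upwards [hD h, hA] with n h1 h2 using h1 h2

theorem exists_bound_of_not_CS {D : Ultrafilter ℕ} (h : ¬ CS D) {F : KK → ℕ → Ordinal.{0}}
    (hF : ∀ k, InProd (F k)) : ∃ f, InProd f ∧ ∀ k, ∀ᶠ n in (D : Filter ℕ), F k n < f n := by
  simp only [CS] at h
  push Not at h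
  obtain ⟨f, hf, h⟩ := h F hF
  exact ⟨f, hf, h⟩

/-- increasing families of size aleph_{omega+1} are bounded modulo the ideal `JJ` -/
theorem exists_bound_JJ (hSL : SL) {F : KK → ℕ → Ordinal.{0}}
    (hF : ∀ k, InProd (F k)) (hmono : ∀ k k', k < k' → ∀ᶠ n in atTop, F k n ≤ F k' n) :
    ∃ g, InProd g ∧ ∃ A, JJ A ∧ ∀ k, ∀ᶠ n in atTop, g n < F k n → n ∈ A := by
  classical
  choose φ hφ using fun g : ℕ → Ordinal.{0} =>
    exists_cofinal_value (mk_setNat hSL) (fun k => {n | g n < F k n})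
  -- comparison
  have comp : ∀ g g' : ℕ → Ordinal.{0}, (∀ᶠ n in atTop, g n ≤ g' n) →
      ∀ᶠ n in atTop, n ∈ φ g' → n ∈ φ g := by
    intro g g' h
    obtain ⟨k0⟩ : Nonempty KK := inferInstance
    obtain ⟨k, -, hk⟩ := hφ g' k0
    obtain ⟨k', hkk, hk'⟩ := hφ g k
    filter_upwards [h, hmono k k' hkk] with n h1 h2 h3
    rw [← hk] at h3
    rw [← hk']
    exact h1.trans_lt (lt_of_lt_of_le h3 h2)
  let γ : Set ℕ → ℕ → Ordinal.{0} := fun S =>
    if h : ∃ g, InProd g ∧ φ g = S then h.choose else fun _ => 0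
  have hγ1 : ∀ S, InProd (γ S) := by
    intro S
    by_cases h : ∃ g, InProd g ∧ φ g = S
    · simp only [γ, dif_pos h]; exact h.choose_spec.1
    · simp only [γ, dif_neg h]; exact fun n => om_pos n
  have hγ2 : ∀ g, InProd g → φ (γ (φ g)) = φ g := by
    intro g hg
    have h : ∃ g', InProd g' ∧ φ g' = φ g := ⟨g, hg, rfl⟩
    simp only [γ, dif_pos h]; exact h.choose_spec.2
  obtain ⟨g, hg, hb⟩ := exists_bound (mk_setNat hSL) γ hγ1
  refine ⟨g, hg, φ g, ?_, ?_⟩
  · intro D hD hgD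
    by_contra hcs
    obtain ⟨f, hf, hfb⟩ := exists_bound_of_not_CS hcs hF
    have h1 : ∀ᶠ n in atTop, n ∈ φ g → n ∈ φ f := by
      have := comp (γ (φ f)) g (hb _)
      rwa [hγ2 f hf] at this
    obtain ⟨k0⟩ : Nonempty KK := inferInstance
    obtain ⟨k, -, hk⟩ := hφ f k0
    have h2 : ∀ᶠ n in (D : Filter ℕ), False := by
      filter_upwards [hD h1, hgD, hfb k] with n h3 h4 h5
      have h6 := h3 h4
      rw [← hk] at h6
      exact absurd h6 (not_lt.2 h5.le)
    exact h2.exists.elim fun _ h => h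
  · intro k
    obtain ⟨k', hkk, hk'⟩ := hφ g k
    filter_upwards [hmono k k' hkk] with n h1 h2
    rw [← hk']
    exact h2.trans_le h1

/-- Existence of an ultrafilter concentrating on an infinite set -/
theorem exists_ultra {A : Set ℕ} (h : ¬ ∀ᶠ n in atTop, n ∉ A) :
    ∃ D : Ultrafilter ℕ, (D : Filter ℕ) ≤ atTop ∧ A ∈ D := by
  have hne : NeBot (atTop ⊓ 𝓟 A) := by
    rw [Filter.inf_principal_neBot_iff]
    intro U hU
    by_contra hcon
    refine h ?_
    filter_upwards [hU] with n hn hA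
    exact hcon ⟨n, hn, hA⟩
  refine ⟨Ultrafilter.of (atTop ⊓ 𝓟 A), (Ultrafilter.of_le _).trans inf_le_left, ?_⟩
  exact (Ultrafilter.of_le _) (mem_inf_of_right (mem_principal_self A))

/-- The basic pcf dichotomy: a set `A` carrying a cofinal family of size aleph_{omega+1}, outside
of which all such families are bounded. -/
theorem exists_generator (hSL : SL) : ∃ A : Set ℕ,
    (∃ F : KK → ℕ → Ordinal.{0}, (∀ k, InProd (F k)) ∧
      (∀ k k', k < k' → ∀ᶠ n in atTop, F k n < F k' n) ∧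
      ∀ f, InProd f → ∃ k, ∀ᶠ n in atTop, n ∈ A → f n ≤ F k n) ∧
    (∀ G : KK → ℕ → Ordinal.{0}, (∀ k, InProd (G k)) →
      ∃ g, InProd g ∧ ∀ k, ∀ᶠ n in atTop, n ∉ A → G k n ≤ g n) := by
  classical
  -- a universal sequence
  let G : Ultrafilter ℕ → KK → ℕ → Ordinal.{0} := fun D =>
    if h : CS D then h.choose else fun _ _ => 0
  have hG1 : ∀ D k, InProd (G D k) := by
    intro D k
    by_cases h : CS D
    · simp only [G, dif_pos h]; exact h.choose_spec.1 k
    · simp only [G, dif_neg h]; exact fun n => om_pos n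
  have hG2 : ∀ D, CS D → ∀ f, InProd f → ∃ k, ∀ᶠ n in (D : Filter ℕ), f n ≤ G D k n := by
    intro D h
    simp only [G, dif_pos h]; exact h.choose_spec.2
  obtain ⟨F, hF1, hF2, hF3⟩ := exists_scale (mk_ultrafilterNat hSL) G hG1
  have hFcof : ∀ D : Ultrafilter ℕ, (D : Filter ℕ) ≤ atTop → CS D → ∀ f, InProd f →
      ∃ k, ∀ᶠ n in (D : Filter ℕ), f n < F k n := by
    intro D hD hcs f hf
    obtain ⟨k, hk⟩ := hG2 D hcs f hf
    refine ⟨k, ?_⟩
    filter_upwards [hk, hD (hF3 D k)] with n h1 h2 using h1.trans_lt h2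
  obtain ⟨g, hg, A, hA, hgA⟩ := exists_bound_JJ hSL hF1
    (fun k k' h => (hF2 k k' h).mono fun n hn => hn.le)
  refine ⟨A, ⟨F, hF1, hF2, ?_⟩, ?_⟩
  · intro f hf
    obtain ⟨C, hC⟩ := exists_cofinal_value (mk_setNat hSL) (fun k => {n | n ∈ A ∧ F k n < f n})
    by_cases hfin : ∀ᶠ n in atTop, n ∉ C
    · obtain ⟨k0⟩ : Nonempty KK := inferInstance
      obtain ⟨k, -, hk⟩ := hC k0
      refine ⟨k, ?_⟩
      filter_upwards [hfin] with n hn hnA
      rw [← hk] at hn
      by_contra hlt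
      exact hn ⟨hnA, not_le.1 hlt⟩
    · exfalso
      obtain ⟨D, hD, hCD⟩ := exists_ultra hfin
      obtain ⟨k0⟩ : Nonempty KK := inferInstance
      have hAD : A ∈ D := by
        obtain ⟨k, -, hk⟩ := hC k0
        filter_upwards [hCD] with n hn
        rw [← hk] at hn
        exact hn.1
      obtain ⟨k1, hk1⟩ := hFcof D hD (hA D hD hAD) f hf
      obtain ⟨k, hkk, hk⟩ := hC k1
      have : ∀ᶠ n in (D : Filter ℕ), False := by
        filter_upwards [hCD, hk1, hD (hF2 _ _ hkk)] with n h1 h2 h3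
        rw [← hk] at h1
        exact absurd (h2.trans h3) (not_lt.2 h1.2.le)
      exact this.exists.elim fun _ h => h
  · intro G' hG'
    obtain ⟨H, hH1, hH2, hH3⟩ := exists_scale (ι := Unit)
      (by simpa using one_le_aleph0.trans aleph0_le_omega) (fun _ => G') (fun _ => hG')
    obtain ⟨g', hg', B, hB, hgB⟩ := exists_bound_JJ hSL hH1
      (fun k k' h => (hH2 k k' h).mono fun n hn => hn.le)
    have hBA : ∀ᶠ n in atTop, n ∈ B → n ∈ A := by
      by_contra hcon
      have : ¬ ∀ᶠ n in atTop, n ∉ B \ A := by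
        intro h
        refine hcon (h.mono fun n hn hnB => ?_)
        by_contra hnA
        exact hn ⟨hnB, hnA⟩
      obtain ⟨D, hD, hBD⟩ := exists_ultra this
      have hBD' : B ∈ D := D.toFilter.mem_of_superset hBD sdiff_subset
      obtain ⟨k, hk⟩ := hFcof D hD (hB D hD hBD') g hg
      have : ∀ᶠ n in (D : Filter ℕ), False := by
        filter_upwards [hBD, hk, hD (hgA k)] with n h1 h2 h3
        exact h1.2 (h3 h2)
      exact this.exists.elim fun _ h => h
    refine ⟨g', hg', fun k => ?_⟩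
    filter_upwards [hBA, hgB k, hH3 () k] with n h1 h2 h3 h4
    by_contra hlt
    exact h4 (h1 (h2 ((not_le.1 hlt).trans h3)))

end

end Run7.h121
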