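import Pool.Agent.Run7.h121.Dich

/-!
# Pcf theory at a strong limit aleph_omega: directedness modulo the ideals
-/

namespace Run7.h121

noncomputable section

open Cardinal Ordinal Set Filter

/-- a well-ordered type of order type `κ` -/
abbrev KT (κ : Cardinal.{0}) : Type := κ.ord.ToType

variable {κ : Cardinal.{0}}

theorem mk_KT (κ : Cardinal.{0}) : #(KT κ) = κ := by simp [KT]

theorem mk_Iio_KT (k : KT κ) : #(Iio k) < κ := by
  have h := mk_Iio_lt k (by simp)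
  rwa [mk_KT] at h

theorem exists_bound_KT (hκ : κ.IsRegular) {ι : Type} (h : #ι < κ) (f : ι → KT κ) :
    ∃ k, ∀ i, f i < k := by
  by_contra hcon
  push Not at hcon
  have h1 : IsCofinal (range f) := by
    intro k
    obtain ⟨i, hi⟩ := hcon k
    exact ⟨f i, mem_range_self i, hi⟩
  have h2 := Order.cof_le h1
  rw [Ordinal.cof_toType, hκ.cof_ord] at h2
  exact absurd (h2.trans mk_range_le) (not_le.2 h)

theorem nonempty_KT (hκ : κ.IsRegular) : Nonempty (KT κ) := by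
  rw [← mk_ne_zero_iff, mk_KT]
  exact hκ.ne_zero

theorem exists_cofinal_value_KT (hκ : κ.IsRegular) {β : Type} (h : #β < κ) (C : KT κ → β) :
    ∃ b, ∀ k, ∃ k', k < k' ∧ C k' = b := by
  by_contra hcon
  push Not at hcon
  choose f hf using hcon
  obtain ⟨k, hk⟩ := exists_bound_KT hκ h f
  exact hf (C k) k (hk _) rfl

/-- families of size less than `κ` are bounded modulo `ℱ` -/
def Dir (ℱ : Filter ℕ) (κ : Cardinal.{0}) : Prop :=
  ∀ (ι : Type) (G : ι → ℕ → Ordinal.{0}), #ι < κ → (∀ i, InProd (G i)) →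
    ∃ g, InProd g ∧ ∀ i, ∀ᶠ n in ℱ, G i n ≤ g n

theorem Dir.mono {ℱ 𝒢 : Filter ℕ} (h : 𝒢 ≤ ℱ) (hd : Dir ℱ κ) : Dir 𝒢 κ := by
  intro ι G hι hG
  obtain ⟨g, hg, hgG⟩ := hd ι G hι hG
  exact ⟨g, hg, fun i => h (hgG i)⟩

theorem Dir.sbound {ℱ : Filter ℕ} (hd : Dir ℱ κ) {ι : Type} {G : ι → ℕ → Ordinal.{0}}
    (hι : #ι < κ) (hG : ∀ i, InProd (G i)) :
    ∃ g, InProd g ∧ ∀ i, ∀ᶠ n in ℱ, G i n < g n := by
  obtain ⟨g, hg, h⟩ := hd ι G hι hG
  refine ⟨fun n => g n + 1, fun n => add_one_lt_om (hg n), fun i => ?_⟩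
  filter_upwards [h i] with n hn
  exact Order.lt_add_one_iff.2 hn

/-- universal increasing sequences -/
theorem Dir.exists_scale {ℱ : Filter ℕ} (hd : Dir ℱ κ) (hκ0 : ℵ₀ ≤ κ) {ι : Type} (hι : #ι < κ)
    (G : ι → KT κ → ℕ → Ordinal.{0}) (hG : ∀ i k, InProd (G i k)) :
    ∃ F : KT κ → ℕ → Ordinal.{0}, (∀ k, InProd (F k)) ∧
      (∀ k k', k < k' → ∀ᶠ n in ℱ, F k n < F k' n) ∧
      ∀ i k, ∀ᶠ n in ℱ, G i k n < F k n := by
  have key : ∀ (k : KT κ) (r : ∀ k', k' < k → {f // InProd f}), ∃ g : {f // InProd f},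
      (∀ k' (h : k' < k), ∀ᶠ n in ℱ, (r k' h).1 n < g.1 n) ∧
      ∀ i, ∀ᶠ n in ℱ, G i k n < g.1 n := by
    intro k r
    obtain ⟨g, hg, h⟩ := hd.sbound (ι := ι ⊕ Iio k)
      (G := Sum.elim (fun i => G i k) (fun k' => (r k'.1 k'.2).1))
      (by
        rw [mk_sum, Cardinal.lift_id, Cardinal.lift_id]
        exact add_lt_of_lt hκ0 hι (mk_Iio_KT k))
      (by
        rintro (i | k')
        · exact hG i k
        · exact (r k'.1 k'.2).2)
    exact ⟨⟨g, hg⟩, fun k' hk' => h (Sum.inr ⟨k', hk'⟩), fun i => h (Sum.inl i)⟩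
  choose N hN1 hN2 using key
  let F : KT κ → {f // InProd f} := WellFounded.fix (wellFounded_lt) N
  have hF : ∀ k, F k = N k (fun k' _ => F k') := fun k => WellFounded.fix_eq _ _ _
  refine ⟨fun k => (F k).1, fun k => (F k).2, ?_, ?_⟩
  · intro k k' hk
    have := hN1 k' (fun k' _ => F k') k hk
    rw [← hF] at this
    exact this
  · intro i k
    have := hN2 k (fun k' _ => F k') i
    rw [← hF] at this
    exact this

/-- the product has cofinality at most `κ` modulo `D` -/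
def CSG (κ : Cardinal.{0}) (D : Ultrafilter ℕ) : Prop :=
  ∃ F : KT κ → ℕ → Ordinal.{0}, (∀ k, InProd (F k)) ∧
    ∀ f, InProd f → ∃ k, ∀ᶠ n in (D : Filter ℕ), f n ≤ F k n

def JJG (ℱ : Filter ℕ) (κ : Cardinal.{0}) (A : Set ℕ) : Prop :=
  ∀ D : Ultrafilter ℕ, (D : Filter ℕ) ≤ ℱ → A ∈ D → CSG κ D

theorem exists_bound_of_not_CSG {D : Ultrafilter ℕ} (h : ¬ CSG κ D) {F : KT κ → ℕ → Ordinal.{0}}
    (hF : ∀ k, InProd (F k)) : ∃ f, InProd f ∧ ∀ k, ∀ᶠ n in (D : Filter ℕ), F k n < f n := by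
  simp only [CSG] at h
  push Not at h
  obtain ⟨f, hf, h⟩ := h F hF
  exact ⟨f, hf, h⟩

theorem exists_bound_JJG (hSL : SL) (hκ : κ.IsRegular) (hκω : ℵ_ ω < κ) {ℱ : Filter ℕ}
    (hℱ : ℱ ≤ atTop) {F : KT κ → ℕ → Ordinal.{0}}
    (hF : ∀ k, InProd (F k)) (hmono : ∀ k k', k < k' → ∀ᶠ n in ℱ, F k n ≤ F k' n) :
    ∃ g, InProd g ∧ ∃ A, JJG ℱ κ A ∧ ∀ k, ∀ᶠ n in ℱ, g n < F k n → n ∈ A := by
  classical
  have hS : #(Set ℕ) < κ := (mk_setNat hSL).trans_lt hκω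
  choose φ hφ using fun g : ℕ → Ordinal.{0} =>
    exists_cofinal_value_KT hκ hS (fun k => {n | g n < F k n})
  have comp : ∀ g g' : ℕ → Ordinal.{0}, (∀ᶠ n in ℱ, g n ≤ g' n) →
      ∀ᶠ n in ℱ, n ∈ φ g' → n ∈ φ g := by
    intro g g' h
    obtain ⟨k0⟩ := nonempty_KT hκ
    obtain ⟨k, -, hk⟩ := hφ g' k0
    obtain ⟨k', hkk, hk'⟩ := hφ g k
    filter_upwards [h, hmono k k' hkk] with n h1 h2 h3
    rw [← hk] at h3
    rw [← hk']
    exact h1.trans_lt (lt_of_lt_of_le h3 h2)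
  let γ : Set ℕ → ℕ → Ordinal.{0} := fun S =>
    if h : ∃ g, InProd g ∧ φ g = S then h.choose else fun _ => 0
  have hγ1 : ∀ S, InProd (γ S) := by
    intro S
    by_cases h : ∃ g, InProd g ∧ φ g = S
    · simp only [γ, dif_pos h]; exact h.choose_spec.1
    · simp only [γ, dif_neg h]; exact fun n => om_pos n
  have hγ2 : ∀ g, InProd g → φ (γ (φ g)) = φ g := by
    intro g hg
    have h : ∃ g', InProd g' ∧ φ g' = φ g := ⟨g, hg, rfl⟩
    simp only [γ, dif_pos h]; exact h.choose_spec.2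
  obtain ⟨g, hg, hb⟩ := exists_bound (mk_setNat hSL) γ hγ1
  refine ⟨g, hg, φ g, ?_, ?_⟩
  · intro D hD hgD
    by_contra hcs
    obtain ⟨f, hf, hfb⟩ := exists_bound_of_not_CSG hcs hF
    have h1 : ∀ᶠ n in ℱ, n ∈ φ g → n ∈ φ f := by
      have := comp (γ (φ f)) g (hℱ (hb _))
      rwa [hγ2 f hf] at this
    obtain ⟨k0⟩ := nonempty_KT hκ
    obtain ⟨k, -, hk⟩ := hφ f k0
    have h2 : ∀ᶠ n in (D : Filter ℕ), False := by
      filter_upwards [hD h1, hgD, hfb k] with n h3 h4 h5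
      have h6 := h3 h4
      rw [← hk] at h6
      exact absurd h6 (not_lt.2 h5.le)
    exact h2.exists.elim fun _ h => h
  · intro k
    obtain ⟨k', hkk, hk'⟩ := hφ g k
    filter_upwards [hmono k k' hkk] with n h1 h2
    rw [← hk']
    exact h2.trans_le h1

theorem exists_ultraG {ℱ : Filter ℕ} {A : Set ℕ} (h : ¬ ∀ᶠ n in ℱ, n ∉ A) :
    ∃ D : Ultrafilter ℕ, (D : Filter ℕ) ≤ ℱ ∧ A ∈ D := by
  have hne : NeBot (ℱ ⊓ 𝓟 A) := by
    rw [Filter.inf_principal_neBot_iff]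
    intro U hU
    by_contra hcon
    refine h ?_
    filter_upwards [hU] with n hn hA
    exact hcon ⟨n, hn, hA⟩
  refine ⟨Ultrafilter.of (ℱ ⊓ 𝓟 A), (Ultrafilter.of_le _).trans inf_le_left, ?_⟩
  exact (Ultrafilter.of_le _) (mem_inf_of_right (mem_principal_self A))

/-- generators modulo a filter -/
theorem exists_generatorG (hSL : SL) (hκ : κ.IsRegular) (hκω : ℵ_ ω < κ) {ℱ : Filter ℕ}
    (hℱ : ℱ ≤ atTop) (hd : Dir ℱ κ) : ∃ A : Set ℕ,
    (∃ F : KT κ → ℕ → Ordinal.{0}, (∀ k, InProd (F k)) ∧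
      (∀ k k', k < k' → ∀ᶠ n in ℱ, F k n < F k' n) ∧
      ∀ f, InProd f → ∃ k, ∀ᶠ n in ℱ, n ∈ A → f n ≤ F k n) ∧
    (∀ G : KT κ → ℕ → Ordinal.{0}, (∀ k, InProd (G k)) →
      ∃ g, InProd g ∧ ∀ k, ∀ᶠ n in ℱ, n ∉ A → G k n ≤ g n) := by
  classical
  have hS : #(Set ℕ) < κ := (mk_setNat hSL).trans_lt hκω
  have hκ0 : ℵ₀ ≤ κ := hκ.aleph0_le
  let G : Ultrafilter ℕ → KT κ → ℕ → Ordinal.{0} := fun D =>
    if h : CSG κ D then h.choose else fun _ _ => 0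
  have hG1 : ∀ D k, InProd (G D k) := by
    intro D k
    by_cases h : CSG κ D
    · simp only [G, dif_pos h]; exact h.choose_spec.1 k
    · simp only [G, dif_neg h]; exact fun n => om_pos n
  have hG2 : ∀ D, CSG κ D → ∀ f, InProd f → ∃ k, ∀ᶠ n in (D : Filter ℕ), f n ≤ G D k n := by
    intro D h
    simp only [G, dif_pos h]; exact h.choose_spec.2
  obtain ⟨F, hF1, hF2, hF3⟩ := hd.exists_scale hκ0 ((mk_ultrafilterNat hSL).trans_lt hκω) G hG1
  have hFcof : ∀ D : Ultrafilter ℕ, (D : Filter ℕ) ≤ ℱ → CSG κ D → ∀ f, InProd f →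
      ∃ k, ∀ᶠ n in (D : Filter ℕ), f n < F k n := by
    intro D hD hcs f hf
    obtain ⟨k, hk⟩ := hG2 D hcs f hf
    refine ⟨k, ?_⟩
    filter_upwards [hk, hD (hF3 D k)] with n h1 h2 using h1.trans_lt h2
  obtain ⟨g, hg, A, hA, hgA⟩ := exists_bound_JJG hSL hκ hκω hℱ hF1
    (fun k k' h => (hF2 k k' h).mono fun n hn => hn.le)
  refine ⟨A, ⟨F, hF1, hF2, ?_⟩, ?_⟩
  · intro f hf
    obtain ⟨C, hC⟩ := exists_cofinal_value_KT hκ hS (fun k => {n | n ∈ A ∧ F k n < f n})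
    by_cases hfin : ∀ᶠ n in ℱ, n ∉ C
    · obtain ⟨k0⟩ := nonempty_KT hκ
      obtain ⟨k, -, hk⟩ := hC k0
      refine ⟨k, ?_⟩
      filter_upwards [hfin] with n hn hnA
      rw [← hk] at hn
      by_contra hlt
      exact hn ⟨hnA, not_le.1 hlt⟩
    · exfalso
      obtain ⟨D, hD, hCD⟩ := exists_ultraG hfin
      obtain ⟨k0⟩ := nonempty_KT hκ
      have hAD : A ∈ D := by
        obtain ⟨k, -, hk⟩ := hC k0
        filter_upwards [hCD] with n hn
        rw [← hk] at hn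
        exact hn.1
      obtain ⟨k1, hk1⟩ := hFcof D hD (hA D hD hAD) f hf
      obtain ⟨k, hkk, hk⟩ := hC k1
      have : ∀ᶠ n in (D : Filter ℕ), False := by
        filter_upwards [hCD, hk1, hD (hF2 _ _ hkk)] with n h1 h2 h3
        rw [← hk] at h1
        exact absurd (h2.trans h3) (not_lt.2 h1.2.le)
      exact this.exists.elim fun _ h => h
  · intro G' hG'
    obtain ⟨H, hH1, hH2, hH3⟩ := hd.exists_scale (ι := Unit) hκ0
      (by simpa using one_lt_aleph0.trans_le hκ0) (fun _ => G') (fun _ => hG')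
    obtain ⟨g', hg', B, hB, hgB⟩ := exists_bound_JJG hSL hκ hκω hℱ hH1
      (fun k k' h => (hH2 k k' h).mono fun n hn => hn.le)
    have hBA : ∀ᶠ n in ℱ, n ∈ B → n ∈ A := by
      by_contra hcon
      have : ¬ ∀ᶠ n in ℱ, n ∉ B \ A := by
        intro h
        refine hcon (h.mono fun n hn hnB => ?_)
        by_contra hnA
        exact hn ⟨hnB, hnA⟩
      obtain ⟨D, hD, hBD⟩ := exists_ultraG this
      have hBD' : B ∈ D := D.toFilter.mem_of_superset hBD sdiff_subset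
      obtain ⟨k, hk⟩ := hFcof D hD (hB D hD hBD') g hg
      have : ∀ᶠ n in (D : Filter ℕ), False := by
        filter_upwards [hBD, hk, hD (hgA k)] with n h1 h2 h3
        exact h1.2 (h3 h2)
      exact this.exists.elim fun _ h => h
    refine ⟨g', hg', fun k => ?_⟩
    filter_upwards [hBA, hgB k, hH3 () k] with n h1 h2 h3 h4
    by_contra hlt
    exact h4 (h1 (h2 ((not_le.1 hlt).trans h3)))

/-! ### The ideals -/

/-- fewer than `κ` functions are cofinal on `X` modulo finite -/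
def Sm (κ : Cardinal.{0}) (X : Set ℕ) : Prop :=
  ∃ (ι : Type) (F : ι → ℕ → Ordinal.{0}), #ι < κ ∧ (∀ i, InProd (F i)) ∧
    ∀ f, InProd f → ∃ i, ∀ᶠ n in atTop, n ∈ X → f n ≤ F i n

theorem Sm.mono {X Y : Set ℕ} (h : ∀ᶠ n in atTop, n ∈ X → n ∈ Y) (hY : Sm κ Y) : Sm κ X := by
  obtain ⟨ι, F, hι, hF, hc⟩ := hY
  refine ⟨ι, F, hι, hF, fun f hf => ?_⟩
  obtain ⟨i, hi⟩ := hc f hf
  refine ⟨i, ?_⟩
  filter_upwards [h, hi] with n h1 h2 h3 using h2 (h1 h3)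

theorem Sm.mono_card {κ' : Cardinal.{0}} (h : κ ≤ κ') {X : Set ℕ} (hX : Sm κ X) : Sm κ' X := by
  obtain ⟨ι, F, hι, hF, hc⟩ := hX
  exact ⟨ι, F, hι.trans_le h, hF, hc⟩

theorem Sm.union (hκ : ℵ₀ ≤ κ) {X Y : Set ℕ} (hX : Sm κ X) (hY : Sm κ Y) : Sm κ (X ∪ Y) := by
  obtain ⟨ι, F, hι, hF, hc⟩ := hX
  obtain ⟨ι', F', hι', hF', hc'⟩ := hY
  refine ⟨ι × ι', fun p n => max (F p.1 n) (F' p.2 n), ?_, fun p n => max_lt (hF _ n) (hF' _ n),
    fun f hf => ?_⟩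
  · rw [mk_prod, Cardinal.lift_id, Cardinal.lift_id]
    exact mul_lt_of_lt hκ hι hι'
  · obtain ⟨i, hi⟩ := hc f hf
    obtain ⟨j, hj⟩ := hc' f hf
    refine ⟨(i, j), ?_⟩
    filter_upwards [hi, hj] with n h1 h2 h3
    rcases h3 with h3 | h3
    · exact (h1 h3).trans (le_max_left _ _)
    · exact (h2 h3).trans (le_max_right _ _)

theorem Sm.of_fin (hκ : ℵ₀ ≤ κ) {X : Set ℕ} (h : ∀ᶠ n in atTop, n ∉ X) : Sm κ X := by
  refine ⟨Unit, fun _ _ => 0, ?_, fun _ n => om_pos n, fun f _ => ⟨(), ?_⟩⟩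
  · simpa using one_lt_aleph0.trans_le hκ
  · filter_upwards [h] with n h1 h2 using absurd h2 h1

/-- the filter dual to the ideal of sets with small cofinality -/
def FF (κ : Cardinal.{0}) : Filter ℕ := ⨅ X : {X : Set ℕ // Sm κ X}, 𝓟 X.1ᶜ

theorem mem_FF (hκ : ℵ₀ ≤ κ) {Y : Set ℕ} : Y ∈ FF κ ↔ Sm κ Yᶜ := by
  have hne : Nonempty {X : Set ℕ // Sm κ X} := ⟨⟨∅, Sm.of_fin hκ (by simp)⟩⟩
  rw [FF, mem_iInf_of_directed]
  · constructor
    · rintro ⟨X, hX⟩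
      rw [mem_principal] at hX
      refine Sm.mono (Eventually.of_forall fun n hn => ?_) X.2
      by_contra hcon
      exact hn (hX hcon)
    · intro h
      exact ⟨⟨_, h⟩, by simp⟩
  · intro X Y
    refine ⟨⟨X.1 ∪ Y.1, X.2.union hκ Y.2⟩, ?_, ?_⟩
    · simp
    · simp

theorem FF_le (hκ : ℵ₀ ≤ κ) : FF κ ≤ atTop := by
  intro Y hY
  rw [mem_FF hκ]
  exact Sm.of_fin hκ (by filter_upwards [hY] with n hn using not_not.2 hn)

theorem FF_anti {κ' : Cardinal.{0}} (hκ : ℵ₀ ≤ κ) (h : κ ≤ κ') : FF κ' ≤ FF κ := by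
  intro Y hY
  rw [mem_FF hκ] at hY
  rw [mem_FF (hκ.trans h)]
  exact hY.mono_card h

/-- directedness passes singular cardinals -/
theorem Dir.succ_of_not_regular {ℱ : Filter ℕ} {c : Cardinal.{0}} (hdir : Dir ℱ c)
    (h0 : ℵ₀ ≤ c) (hreg : ¬ c.IsRegular) : Dir ℱ (Order.succ c) := by
  intro ι G hι hG
  obtain ⟨τ⟩ : Nonempty (ι ↪ KT c) := by
    rw [← Cardinal.le_def, mk_KT]
    exact Order.lt_succ_iff.1 hι
  obtain ⟨S, hS, hSc⟩ := Order.exists_cof_eq (KT c)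
  have hScard : #S < c := by
    rw [hSc, Ordinal.cof_toType]
    by_contra hcon
    exact hreg ⟨h0, not_lt.1 hcon⟩
  have hpiece : ∀ s : S, ∃ g, InProd g ∧ ∀ i : {i // τ i ≤ s.1}, ∀ᶠ n in ℱ, G i.1 n ≤ g n := by
    intro s
    refine hdir {i // τ i ≤ s.1} (fun i => G i.1) ?_ (fun i => hG _)
    have h1 : #{i // τ i ≤ s.1} ≤ #(Iic s.1) :=
      mk_le_of_injective (f := fun i => (⟨τ i.1, i.2⟩ : Iic s.1)) fun i j hij =>
        Subtype.ext (τ.injective (by simpa using hij))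
    refine h1.trans_lt ?_
    have h2 : (Iic s.1) = insert s.1 (Iio s.1) := by
      ext k
      simp [le_iff_eq_or_lt]
    rw [h2]
    refine (mk_insert_le).trans_lt ?_
    exact add_lt_of_lt h0 (mk_Iio_KT _) (one_lt_aleph0.trans_le h0)
  choose g hg1 hg2 using hpiece
  obtain ⟨g', hg', h⟩ := hdir S g hScard hg1
  refine ⟨g', hg', fun i => ?_⟩
  obtain ⟨s, hs, hks⟩ := hS (τ i)
  filter_upwards [hg2 ⟨s, hs⟩ ⟨i, hks⟩, h ⟨s, hs⟩] with n h1 h2 using h1.trans h2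

/-- **Directedness modulo the ideals.** -/
theorem dir_FF (hSL : SL) : ∀ κ : Cardinal.{0}, ℵ₀ ≤ κ → Dir (FF κ) κ := by
  intro κ
  induction κ using WellFoundedLT.induction with
  | ind κ ih =>
  intro hκ ι G hι hG
  by_cases hsm : #ι ≤ ℵ_ ω
  · obtain ⟨g, hg, h⟩ := exists_bound hsm G hG
    exact ⟨g, hg, fun i => FF_le hκ (h i)⟩
  have hbig := not_le.1 hsm
  have h0 : ℵ₀ ≤ #ι := aleph0_le_omega.trans hbig.le
  obtain ⟨c, hc⟩ : ∃ c, c = #ι := ⟨_, rfl⟩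
  rw [← hc] at hbig h0 hι
  have h0' : ℵ₀ ≤ Order.succ c := h0.trans (Order.le_succ c)
  -- it is enough to treat the successor of `c`
  suffices h : ∃ g, InProd g ∧ ∀ i, ∀ᶠ n in FF (Order.succ c), G i n ≤ g n by
    obtain ⟨g, hg, h⟩ := h
    exact ⟨g, hg, fun i => FF_anti h0' (Order.succ_le_of_lt hι) (h i)⟩
  have hdir : Dir (FF c) c := ih c hι h0
  -- reindex
  obtain ⟨σ⟩ : Nonempty (KT c ≃ ι) := by
    rw [← Cardinal.eq, mk_KT, hc]
  suffices h : ∃ g, InProd g ∧ ∀ k, ∀ᶠ n in FF (Order.succ c), G (σ k) n ≤ g n by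
    obtain ⟨g, hg, h⟩ := h
    refine ⟨g, hg, fun i => ?_⟩
    have := h (σ.symm i)
    rwa [Equiv.apply_symm_apply] at this
  by_cases hreg : c.IsRegular
  · obtain ⟨A, ⟨F, hF1, -, hF3⟩, hA⟩ := exists_generatorG hSL hreg hbig (FF_le h0) hdir
    obtain ⟨g, hg, hgG⟩ := hA (fun k => G (σ k)) (fun k => hG _)
    have hSmA : Sm (Order.succ c) A := by
      let XT : Type := {X : Set ℕ // Sm c X}
      choose T H hT hH1 hH2 using fun X : XT => X.2
      classical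
      refine ⟨KT c × (Σ X : XT, T X), fun p n => if n ∈ p.2.1.1 then H p.2.1 p.2.2 n else F p.1 n,
        ?_, fun p n => ?_, fun f hf => ?_⟩
      · rw [mk_prod, Cardinal.lift_id, Cardinal.lift_id, mk_KT, mk_sigma, Order.lt_succ_iff]
        have h1 : sum (fun X : XT => #(T X)) ≤ c := by
          refine (sum_le_sum _ (fun _ => c) fun X => (hT X).le).trans ?_
          rw [sum_const, Cardinal.lift_id, Cardinal.lift_id]
          have h2 : #XT ≤ c := ((mk_subtype_le _).trans (mk_setNat hSL)).trans hbig.le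
          exact (mul_le_mul' h2 le_rfl).trans (mul_eq_self h0).le
        exact (mul_le_mul' le_rfl h1).trans (mul_eq_self h0).le
      · by_cases hn : n ∈ p.2.1.1
        · simp only [if_pos hn]; exact hH1 _ _ n
        · simp only [if_neg hn]; exact hF1 _ n
      · obtain ⟨k, hk⟩ := hF3 f hf
        have hk' : {n | n ∈ A → f n ≤ F k n} ∈ FF c := hk
        rw [mem_FF h0] at hk'
        obtain ⟨i, hi⟩ := hH2 ⟨_, hk'⟩ f hf
        refine ⟨(k, ⟨⟨_, hk'⟩, i⟩), ?_⟩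
        filter_upwards [hi] with n h1 h2
        by_cases h3 : f n ≤ F k n
        · have h4 : n ∉ {n | n ∈ A → f n ≤ F k n}ᶜ := fun h5 => h5 fun _ => h3
          simp only [if_neg h4]
          exact h3
        · have h4 : n ∈ {n | n ∈ A → f n ≤ F k n}ᶜ := fun h5 => h3 (h5 h2)
          simp only [if_pos h4]
          exact h1 h4
    refine ⟨g, hg, fun k => ?_⟩
    have h1 : ∀ᶠ n in FF (Order.succ c), n ∉ A := by
      show {n | n ∉ A} ∈ FF (Order.succ c)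
      rw [mem_FF h0']
      refine hSmA.mono (Eventually.of_forall fun n hn => ?_)
      by_contra h
      exact hn h
    filter_upwards [h1, FF_anti h0 (Order.le_succ c) (hgG k)] with n h2 h3 using h3 h2
  · -- the singular case
    obtain ⟨g, hg, h⟩ := hdir.succ_of_not_regular h0 hreg (KT c) (fun k => G (σ k))
      (by rw [mk_KT]; exact Order.lt_succ c) (fun k => hG _)
    exact ⟨g, hg, fun k => FF_anti h0 (Order.le_succ c) (h k)⟩

end

end Run7.h121
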