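import Pool.Agent.Run7.h121.Lim

/-!
# Splitting few large sets
-/

namespace Run7.h121

noncomputable section

open Cardinal Ordinal Set Filter

/-- `μ` many sets of size `μ` are split by one set. -/
theorem exists_split {T ι : Type} {μ : Cardinal.{0}} (hμ : ℵ₀ ≤ μ) (hι : #ι ≤ μ)
    (c : ι → Set T) (hc : ∀ i, μ ≤ #(c i)) :
    ∃ X : Set T, ∀ i, (∃ t ∈ c i, t ∈ X) ∧ ∃ t ∈ c i, t ∉ X := by
  classical
  have hI : #(ι × Bool) ≤ μ := by
    rw [mk_prod, Cardinal.lift_id, Cardinal.lift_id]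
    refine (mul_le_mul' hι (?_ : #Bool ≤ μ)).trans (mul_eq_self hμ).le
    simpa using (natCast_lt_aleph0 (n := 2)).le.trans hμ
  rw [← mk_ord_toType μ] at hI
  obtain ⟨e⟩ := hI
  have key : ∀ (i : ι × Bool) (r : ∀ i', e i' < e i → T), ∃ t ∈ c i.1, ∀ i' (h : e i' < e i),
      r i' h ≠ t := by
    intro i r
    by_contra hcon
    push Not at hcon
    have h1 : c i.1 ⊆ range (fun i' : {i' // e i' < e i} => r i'.1 i'.2) := by
      intro t ht
      obtain ⟨i', h, h'⟩ := hcon t ht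
      exact ⟨⟨i', h⟩, h'⟩
    have h2 : #(c i.1) ≤ #{i' // e i' < e i} := (mk_le_mk_of_subset h1).trans mk_range_le
    have h3 : #{i' // e i' < e i} ≤ #(Iio (e i)) := by
      refine mk_le_of_injective (f := fun i' : {i' // e i' < e i} => (⟨e i'.1, i'.2⟩ : Iio (e i))) ?_
      intro i' i'' h
      exact Subtype.ext (e.injective (by simpa using h))
    have h4 := mk_Iio_lt (e i) (by simp)
    rw [mk_ord_toType] at h4
    exact absurd ((hc i.1).trans (h2.trans h3)) (not_le.2 h4)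
  choose N hN1 hN2 using key
  have wf : WellFounded (InvImage (· < ·) e) := InvImage.wf e wellFounded_lt
  let P : ι × Bool → T := WellFounded.fix wf N
  have hP : ∀ i, P i = N i (fun i' _ => P i') := fun i => WellFounded.fix_eq _ _ _
  have hP1 : ∀ i, P i ∈ c i.1 := fun i => by rw [hP]; exact hN1 _ _
  have hP2 : ∀ i i', e i' < e i → P i' ≠ P i := by
    intro i i' h
    have := hN2 i (fun i' _ => P i') i' h
    rwa [← hP] at this
  have hinj : Function.Injective P := by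
    intro i i' h
    by_contra hne
    rcases lt_or_gt_of_ne (e.injective.ne hne) with h1 | h1
    · exact hP2 _ _ h1 h
    · exact hP2 _ _ h1 h.symm
  refine ⟨range (fun j : ι => P (j, true)), fun j => ⟨⟨P (j, true), hP1 (j, true), ⟨j, rfl⟩⟩,
    ⟨P (j, false), hP1 (j, false), ?_⟩⟩⟩
  rintro ⟨j', hj'⟩
  have := hinj hj'
  simp at this

/-- A uniform ultrafilter is not generated by few sets. -/
theorem lt_mk_base {α : Type} (hα : ℵ₀ ≤ #α) (U : Ultrafilter α) (hU : ∀ A ∈ U, #A = #α)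
    (B : Set (Set α)) (hB : ∀ b ∈ B, b ∈ U) (hbase : ∀ A ∈ U, ∃ b ∈ B, b ⊆ A) : #α < #B := by
  by_contra hcon
  obtain ⟨X, hX⟩ := exists_split hα (not_lt.1 hcon) (fun b : B => b.1)
    (fun b => (hU _ (hB _ b.2)).ge)
  rcases U.mem_or_compl_mem X with h | h
  · obtain ⟨b, hb, hbX⟩ := hbase _ h
    obtain ⟨-, t, ht, ht'⟩ := hX ⟨b, hb⟩
    exact ht' (hbX ht)
  · obtain ⟨b, hb, hbX⟩ := hbase _ h
    obtain ⟨⟨t, ht, ht'⟩, -⟩ := hX ⟨b, hb⟩
    exact hbX ht ht'

end

end Run7.h121
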