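import Pool.Agent.Run7.h121.MinRange

/-!
# The structure of an indecomposable uniform ultrafilter on aleph_omega
-/

namespace Run7.h121

noncomputable section

open Cardinal Ordinal Set Filter

variable {α : Type} {U : Ultrafilter α} {J : Type} {π : α → J}

/-- the levels carrying a strongly uniform function -/
def TT (U : Ultrafilter α) (π : α → J) : Set (J → ℕ) := {s | ∃ p, Strong U π s p}

theorem TT_nonempty (hSL : SL) (hF : Fac U J π) (hα : #α ≤ ℵ_ ω) (hU : ∀ A ∈ U, #A = ℵ_ ω) :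
    (TT U π).Nonempty := by
  classical
  have : Nonempty α := by
    obtain ⟨x, -⟩ := (U.neBot.nonempty_of_mem Filter.univ_mem)
    exact ⟨x⟩
  rcases min_range hSL hF (fun x : α => x) (exists_Bd hF hα _) with ⟨g, hg⟩ | ⟨t, p, hp, -⟩
  · exfalso
    have h1 : #{x | x = g (π x)} = ℵ_ ω := hU _ hg
    have h2 : #{x | x = g (π x)} ≤ #J := by
      refine mk_le_of_injective (f := fun x => π x.1) ?_
      intro x y hxy
      have hx : x.1 = g (π x.1) := x.2
      have hy : y.1 = g (π y.1) := y.2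
      apply Subtype.ext
      rw [hx, hy]
      exact congrArg g hxy
    exact absurd (h1 ▸ h2) (not_le.2 hF.small)
  · exact ⟨t, p, hp⟩

/-- there is a least level carrying a strongly uniform function -/
theorem exists_min (hSL : SL) (hF : Fac U J π) (hne : (TT U π).Nonempty) :
    ∃ k ∈ TT U π, ∀ t ∈ TT U π, ∀ᶠ x in (U : Filter α), k (π x) ≤ t (π x) := by
  classical
  obtain ⟨n0, hn0⟩ := exists_al_of_lt (mk_RR hSL hF)
  obtain ⟨n1, hn1⟩ := exists_al_of_lt hF.small
  choose P hP using fun s : TT U π => s.2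
  let pt : ℕ → α → Ordinal.{0} := fun l x => ⨆ s : {s : TT U π // s.1 (π x) = l}, P s.1 x
  have hpt : ∀ l x, n0 ≤ l → pt l x < om l := by
    intro l x hl
    refine iSup_lt_om ?_ fun s => ?_
    · exact ((mk_subtype_le _).trans (mk_set_le _)).trans_lt (hn0.trans_le (al_le.2 hl))
    · have := (hP s.1).2.1 x
      rwa [s.2] at this
  have hle : ∀ (s : TT U π) x, P s x ≤ pt (s.1 (π x)) x := fun s x =>
    Ordinal.le_iSup (fun s' : {s' : TT U π // s'.1 (π x) = s.1 (π x)} => P s'.1 x) ⟨s, rfl⟩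
  -- functions for the levels without strongly uniform functions
  have hf : ∀ s : J → ℕ, ∃ f, InProd f ∧ (NS U (fun x => s (π x)) → s ∉ TT U π →
      ∀ᶠ x in (U : Filter α), pt (s (π x)) x < f (s (π x))) := by
    intro s
    by_cases hs : NS U (fun x => s (π x)) ∧ s ∉ TT U π
    · obtain ⟨hs1, hs2⟩ := hs
      let q : α → Ordinal.{0} := fun x => if n0 ≤ s (π x) then pt (s (π x)) x else 0
      have hq : ∀ x, q x < om (s (π x)) := by
        intro x
        by_cases h : n0 ≤ s (π x)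
        · simp only [q, if_pos h]; exact hpt _ _ h
        · simp only [q, if_neg h]; exact om_pos _
      have h1 : ¬ ∀ f, InProd f → ∀ᶠ x in (U : Filter α), f (s (π x)) ≤ q x := fun h =>
        hs2 ⟨q, hs1, hq, h⟩
      push Not at h1
      obtain ⟨f, hf, hfU⟩ := h1
      refine ⟨f, hf, fun _ _ => ?_⟩
      have h2 : ∀ᶠ x in (U : Filter α), ¬ f (s (π x)) ≤ q x := Ultrafilter.eventually_not.2
        (by simpa [Filter.not_eventually] using hfU)
      filter_upwards [h2, hs1 n0] with x h3 h4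
      simp only [q, if_pos h4] at h3
      exact not_le.1 h3
    · exact ⟨fun _ => 0, fun n => om_pos n, fun h1 h2 => absurd ⟨h1, h2⟩ hs⟩
  choose f hf1 hf2 using hf
  obtain ⟨f1, hf1', hf1''⟩ := exists_bound (mk_RR hSL hF).le f hf1
  -- functions for the standard levels
  have hsm : ∀ n : ℕ, #(Option (om n).ToType) < ℵ_ ω := by
    intro n
    rw [mk_option, mk_toType, card_om]
    exact add_lt_of_lt aleph0_le_omega (al_lt_omega n) (one_lt_aleph0.trans_le aleph0_le_omega)
  have hh : ∀ l : ℕ, ∃ h : J → Ordinal.{0}, (∀ j, h j < om l) ∧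
      (n0 ≤ l → ∀ᶠ x in (U : Filter α), pt l x = h (π x)) := by
    intro l
    by_cases hl : n0 ≤ l
    · obtain ⟨g, hg⟩ := hF.fac _ (fun x => some (ToType.mk ⟨pt l x, hpt l x hl⟩)) (hsm l)
      refine ⟨fun j => (g j).elim 0 fun z => (ToType.mk.symm z).1, fun j => ?_, fun _ => ?_⟩
      · beta_reduce
        rcases g j with _ | z
        · exact om_pos l
        · exact (ToType.mk.symm z).2
      · filter_upwards [hg] with x hx
        rw [← hx]
        simp
    · exact ⟨fun _ => 0, fun _ => om_pos l, fun h => absurd h hl⟩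
  choose h hh1 hh2 using hh
  let f2 : ℕ → Ordinal.{0} := fun l => if n1 ≤ l then ⨆ j, (h l j + 1) else 0
  have hf2' : InProd f2 := by
    intro l
    by_cases hl : n1 ≤ l
    · simp only [f2, if_pos hl]
      exact iSup_add_one_lt_om (hn1.trans_le (al_le.2 hl)) fun j => hh1 l j
    · simp only [f2, if_neg hl]; exact om_pos l
  let fs : ℕ → Ordinal.{0} := fun l => max (f1 l) (f2 l)
  have hfs : InProd fs := fun l => max_lt (hf1' l) (hf2' l)
  let X : α → Set ℕ := fun x => {l | n0 ≤ l ∧ n1 ≤ l ∧ fs l ≤ pt l x}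
  have hSN : #(Set ℕ) < ℵ_ ω := by
    rw [mk_set, mk_nat]
    exact two_pow_lt hSL (by rw [← al_zero]; exact al_lt_omega 0)
  obtain ⟨X', hX'⟩ := hF.fac (Set ℕ) X hSN
  have hstd : ∀ l, ∀ᶠ x in (U : Filter α), l ∉ X x := by
    intro l
    by_cases hl : n0 ≤ l ∧ n1 ≤ l
    · filter_upwards [hh2 l hl.1] with x hx hlX
      have h1 : f2 l ≤ pt l x := (le_max_right _ _).trans hlX.2.2
      simp only [f2, if_pos hl.2] at h1
      rw [hx] at h1
      have h2 := Ordinal.le_iSup (fun j => h l j + 1) (π x)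
      exact absurd (h2.trans h1) (not_le.2 (Order.lt_add_one_iff.2 le_rfl))
    · exact Eventually.of_forall fun x hlX => hl ⟨hlX.1, hlX.2.1⟩
  have hTT : ∀ t ∈ TT U π, ∀ᶠ x in (U : Filter α), t (π x) ∈ X x := by
    intro t ht
    filter_upwards [(hP ⟨t, ht⟩).2.2 fs hfs, (hP ⟨t, ht⟩).1 n0, (hP ⟨t, ht⟩).1 n1] with x h1 h2 h3
    exact ⟨h2, h3, h1.trans (hle ⟨t, ht⟩ x)⟩
  let k : J → ℕ := fun j => sInf (X' j)
  obtain ⟨t0, ht0⟩ := hne
  have hkX : ∀ᶠ x in (U : Filter α), k (π x) ∈ X x := by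
    filter_upwards [hTT t0 ht0, hX'] with x h1 h2
    have h3 : (X' (π x)).Nonempty := ⟨_, h2 ▸ h1⟩
    have h4 := Nat.sInf_mem h3
    rw [h2]
    exact h4
  have hkns : NS U (fun x => k (π x)) := by
    intro m
    have h1 : ∀ᶠ x in (U : Filter α), ∀ l ∈ Finset.range m, l ∉ X x :=
      (eventually_all_finset _).2 fun l _ => hstd l
    filter_upwards [h1, hkX] with x h2 h3
    by_contra hlt
    exact h2 _ (Finset.mem_range.2 (not_le.1 hlt)) h3
  refine ⟨k, ?_, fun t ht => ?_⟩
  · by_contra hk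
    have h1 : ∀ᶠ x in (U : Filter α), False := by
      filter_upwards [hf2 k hkns hk, hkX, hkns.eventually (hf1'' k)] with x h2 h3 h4
      have h5 : fs (k (π x)) ≤ pt (k (π x)) x := h3.2.2
      exact absurd (h2.trans_le (h4.trans (le_max_left _ _))) (not_lt.2 h5)
    exact h1.exists.elim fun _ h => h
  · filter_upwards [hTT t ht, hX'] with x h1 h2
    rw [h2] at h1
    exact Nat.sInf_le h1

/-- completeness below the least level -/
theorem exists_complete (hSL : SL) (hF : Fac U J π) {k : J → ℕ} (hk : NS U (fun x => k (π x)))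
    (hmin : ∀ t ∈ TT U π, ∀ᶠ x in (U : Filter α), k (π x) ≤ t (π x))
    (γ : J → Ordinal.{0}) (hγ : ∀ j, γ j < om (k j)) (G : α → Ordinal.{0})
    (hG : ∀ᶠ x in (U : Filter α), G x < γ (π x)) :
    ∃ g : J → Ordinal.{0}, ∀ᶠ x in (U : Filter α), G x = g (π x) := by
  classical
  let Y : Type := (ω_ ω : Ordinal.{0}).ToType
  have hom : ∀ n, om n < ω_ ω := fun n => by
    simp only [om, omega_lt_omega]
    exact natCast_lt_omega0 n
  have : Nonempty Y := by
    rw [← mk_ne_zero_iff, mk_toType, card_omega]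
    exact (aleph_pos _).ne'
  let G' : α → Y := fun x => if h : G x < ω_ ω then ToType.mk ⟨G x, h⟩ else Classical.arbitrary Y
  let A : Set α := {x | G x < γ (π x) ∧ 1 ≤ k (π x)}
  have hA : A ∈ U := by
    filter_upwards [hG, hk 1] with x h1 h2 using ⟨h1, h2⟩
  have hG' : ∀ x (hx : x ∈ A), ∃ h : G x < ω_ ω, G' x = ToType.mk ⟨G x, h⟩ := by
    intro x hx
    have h : G x < ω_ ω := hx.1.trans ((hγ _).trans (hom _))
    exact ⟨h, by simp only [G', dif_pos h]⟩
  have hBd : Bd U π G' (fun j => k j - 1) A := by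
    refine ⟨hA, fun j => ?_⟩
    by_cases h0 : k j = 0
    · have : G' '' fib π A j = ∅ := by
        rw [eq_empty_iff_forall_notMem]
        rintro _ ⟨x, ⟨hx, rfl⟩, rfl⟩
        have := hx.2
        omega
      rw [this, mk_eq_zero]
      exact zero_le
    · have h1 : #(G' '' fib π A j) ≤ (γ j).card := by
        refine mk_le_of_inj (fun y => (ToType.mk.symm y.1).1) ?_ ?_
        · intro y z hyz
          exact Subtype.ext (ToType.mk.symm.injective (Subtype.ext hyz))
        · rintro ⟨_, x, ⟨hx, rfl⟩, rfl⟩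
          obtain ⟨h, h'⟩ := hG' x hx
          simp only [h', OrderIso.symm_apply_apply]
          exact hx.1
      have h2 := lt_om_iff.1 (hγ j)
      have h3 := h1.trans_lt h2
      have h4 : k j = k j - 1 + 1 := by omega
      rw [h4, al_succ] at h3
      exact Order.lt_succ_iff.1 h3
  rcases min_range hSL hF G' ⟨_, _, hBd⟩ with ⟨g, hg⟩ | ⟨t, p, hp, -, ht⟩
  · refine ⟨fun j => (ToType.mk.symm (g j)).1, ?_⟩
    filter_upwards [hg, hA] with x hx hxA
    obtain ⟨h, h'⟩ := hG' x hxA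
    rw [← hx, h', OrderIso.symm_apply_apply]
  · exfalso
    have h1 : ∀ᶠ x in (U : Filter α), False := by
      filter_upwards [hmin t ⟨p, hp⟩, ht _ ⟨_, hBd⟩, hk 1] with x h2 h3 h4
      have h5 : t (π x) ≤ k (π x) - 1 := h3
      omega
    exact h1.exists.elim fun _ h => h

/-- strong uniformity with respect to functions on `J` -/
theorem Strong.of_J (hF : Fac U J π) {k : J → ℕ} {p : α → Ordinal.{0}} (h : Strong U π k p)
    (f : J → Ordinal.{0}) (hf : ∀ j, f j < om (k j)) :
    ∀ᶠ x in (U : Filter α), f (π x) ≤ p x := by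
  classical
  obtain ⟨n1, hn1⟩ := exists_al_of_lt hF.small
  let f' : ℕ → Ordinal.{0} := fun n => if n1 ≤ n then ⨆ j : {j // k j = n}, f j.1 else 0
  have hf' : InProd f' := by
    intro n
    by_cases hn : n1 ≤ n
    · simp only [f', if_pos hn]
      refine iSup_lt_om ((mk_subtype_le _).trans_lt (hn1.trans_le (al_le.2 hn))) fun j => ?_
      have := hf j.1
      rwa [j.2] at this
    · simp only [f', if_neg hn]; exact om_pos n
  filter_upwards [h.2.2 f' hf', h.1 n1] with x h1 h2
  simp only [f', if_pos h2] at h1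
  exact (Ordinal.le_iSup (fun j : {j // k j = k (π x)} => f j.1) ⟨π x, rfl⟩).trans h1

/-- **Structure of indecomposable uniform ultrafilters.** -/
theorem exists_structure (hSL : SL) (hα : #α ≤ ℵ_ ω) (hU : ∀ A ∈ U, #A = ℵ_ ω)
    {m0 : ℕ} (hm : ¬ DI U m0) :
    ∃ (J : Type) (π : α → J) (k : J → ℕ) (p : α → Ordinal.{0}), Fac U J π ∧
      (∀ m : ℕ, ∀ᶠ x in (U : Filter α), m ≤ k (π x)) ∧ (∀ x, p x < om (k (π x))) ∧
      (∀ f : J → Ordinal.{0}, (∀ j, f j < om (k j)) → ∀ᶠ x in (U : Filter α), f (π x) ≤ p x) ∧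
      ∀ (γ : J → Ordinal.{0}), (∀ j, γ j < om (k j)) → ∀ G : α → Ordinal.{0},
        (∀ᶠ x in (U : Filter α), G x < γ (π x)) →
        ∃ g : J → Ordinal.{0}, ∀ᶠ x in (U : Filter α), G x = g (π x) := by
  obtain ⟨J, π, hF⟩ := exists_fac hSL hm
  obtain ⟨k, ⟨p, hp⟩, hmin⟩ := exists_min hSL hF (TT_nonempty hSL hF hα hU)
  exact ⟨J, π, k, p, hF, hp.1, hp.2.1, fun f hf => hp.of_J hF f hf,
    fun γ hγ G hG => exists_complete hSL hF hp.1 hmin γ hγ G hG⟩

end

end Run7.h121
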