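import Pool.Agent.Run7.h121.Above

/-!
# Three levels of small cofinality
-/

namespace Run7.h121

noncomputable section

open Cardinal Ordinal Set Filter

/-- the ultraproduct of the `ω_(l n)` modulo `D` has a cofinal family of size at most `ℵ_(ω+1)` -/
def SC (D : Ultrafilter ℕ) (l : ℕ → ℕ) : Prop :=
  ∃ (ι : Type) (G : ι → ℕ → Ordinal.{0}), #ι ≤ kp ∧ (∀ i n, G i n < om (l n)) ∧
    ∀ f : ℕ → Ordinal.{0}, (∀ n, f n < om (l n)) → ∃ i, ∀ᶠ n in (D : Filter ℕ), f n ≤ G i n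

theorem SC.toType {D : Ultrafilter ℕ} {l : ℕ → ℕ} (h : SC D l) :
    ∃ F : (ℵ_ (ω + 1) : Cardinal.{0}).ord.ToType →
        (n : ℕ) → (ω_ ((l n : ℕ) : Ordinal.{0})).ToType,
      ∀ f : (n : ℕ) → (ω_ ((l n : ℕ) : Ordinal.{0})).ToType,
        ∃ i, ∀ᶠ n in (D : Filter ℕ), f n ≤ F i n := by
  obtain ⟨ι, G, hι, hG, hc⟩ := h
  have hne : Nonempty ι := by
    obtain ⟨i, -⟩ := hc (fun _ => 0) (fun n => om_pos _)
    exact ⟨i⟩
  obtain ⟨σ, hσ⟩ := exists_surj hι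
  refine ⟨fun κ n => ToType.mk ⟨G (σ κ) n, hG _ _⟩, fun f => ?_⟩
  obtain ⟨i, hi⟩ := hc (fun n => (ToType.mk.symm (f n)).1) (fun n => (ToType.mk.symm (f n)).2)
  obtain ⟨κ, rfl⟩ := hσ i
  refine ⟨κ, ?_⟩
  filter_upwards [hi] with n hn
  rw [← OrderIso.symm_apply_le]
  exact hn

/-- levels in the generator -/
theorem SC_of_mem {A : Set ℕ} (hA : Gen A) {D : Ultrafilter ℕ}
    (hD : ∀ m, ∀ᶠ n in (D : Filter ℕ), m ≤ n) {l : ℕ → ℕ} {E : Set ℕ} (hE : E ∈ D)
    (hEA : ∀ n ∈ E, l n ∈ A) (hfin : ∀ i, {n | n ∈ E ∧ l n = i}.Finite) : SC D l := by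
  obtain ⟨F, hF1, hF2⟩ := hA.cof
  refine ⟨KK, fun κ n => F κ (l n), mk_KK.le, fun κ n => hF1 _ _, fun f hf => ?_⟩
  let f' : ℕ → Ordinal.{0} := fun i => ⨆ n : {n | n ∈ E ∧ l n = i}, f n.1
  have hf' : InProd f' := by
    intro i
    refine iSup_lt_om ?_ fun n => ?_
    · exact ((lt_aleph0_iff_finite).2 (hfin i).to_subtype).trans_le (aleph0_le_al i)
    · have := hf n.1
      rwa [n.2.2] at this
  obtain ⟨κ, hκ⟩ := hF2 f' hf'
  refine ⟨κ, ?_⟩
  obtain ⟨i0, hi0⟩ := eventually_atTop.1 hκ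
  have hlow : {n | n ∈ E ∧ l n < i0}.Finite := by
    refine ((Set.finite_lt_nat i0).biUnion (fun i _ => hfin i)).subset ?_
    intro n hn
    exact mem_iUnion₂.2 ⟨l n, hn.2, hn.1, rfl⟩
  obtain ⟨N, hN⟩ := hlow.bddAbove
  filter_upwards [hE, hD (N + 1)] with n hn hnN
  have h1 : i0 ≤ l n := by
    by_contra hlt
    have := hN (show n ∈ {n | n ∈ E ∧ l n < i0} from ⟨hn, not_le.1 hlt⟩)
    omega
  have h2 := hi0 (l n) h1 (hEA n hn)
  exact (Ordinal.le_iSup (fun n' : {n' | n' ∈ E ∧ l n' = l n} => f n'.1) ⟨n, hn, rfl⟩).trans h2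

theorem three_levels {α : Type} {U : Ultrafilter α} {B : Set (Set α)} (hSL : SL)
    (hpow : kp < (2 : Cardinal.{0}) ^ (ℵ_ ω)) (hα : #α ≤ ℵ_ ω) (hU : ∀ A ∈ U, #A = ℵ_ ω)
    (hB : ∀ b ∈ B, b ∈ U) (hbase : ∀ A ∈ U, ∃ b ∈ B, b ⊆ A) (hBc : #B ≤ kp) :
    ∃ (D : Ultrafilter ℕ) (c m : ℕ → ℕ), (∀ i, ∀ᶠ n in (D : Filter ℕ), i ≤ n) ∧
      (∀ᶠ n in (D : Filter ℕ), c n < n ∧ al n ≤ 2 ^ al (c n)) ∧
      (∀ᶠ n in (D : Filter ℕ), n < m n ∧ al (m n) ≤ 2 ^ al n) ∧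
      SC D c ∧ SC D (fun n => n) ∧ SC D m ∧
      ((∀ᶠ n in (D : Filter ℕ), (2 : Cardinal.{0}) ^ al (n - 1) = al n) →
        SC D (fun n => n - 1)) := by
  classical
  obtain ⟨A, hA⟩ := exists_gen hSL hpow
  by_cases hDI : ∀ n, DI U n
  · -- the fully decomposable case
    obtain ⟨p, r0, hd⟩ := exists_dat hα hU hB hbase hBc hDI
    obtain ⟨n0, hn0⟩ := eventually_atTop.1 (hd.above_closed hSL hA)
    choose! M hM1 hM2 hM3 using hn0
    let E : Set ℕ := {n | ∃ n' ≥ n0, n' ∈ A ∧ n = M n'}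
    have hEinf : ¬ ∀ᶠ n in atTop, n ∉ E := by
      intro h
      obtain ⟨N, hN⟩ := eventually_atTop.1 h
      obtain ⟨n', hn', hnA⟩ := hA.inf (max n0 N)
      have h1 : n' < M n' := hM1 n' ((le_max_left _ _).trans hn') hnA
      exact hN (M n') (((le_max_right _ _).trans hn').trans h1.le)
        ⟨n', (le_max_left _ _).trans hn', hnA, rfl⟩
    obtain ⟨D, hD, hED⟩ := exists_ultra hEinf
    have hD' : ∀ i, ∀ᶠ n in (D : Filter ℕ), i ≤ n := fun i => hD (eventually_ge_atTop i)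
    have hEA : ∀ n ∈ E, n ∈ A := by
      rintro n ⟨n', hn', hnA, rfl⟩
      exact hM3 n' hn' hnA
    let c : ℕ → ℕ := fun n => if h : n ∈ E then h.choose else 0
    have hc : ∀ n ∈ E, n0 ≤ c n ∧ c n ∈ A ∧ n = M (c n) := by
      intro n hn
      simp only [c, dif_pos hn]
      exact hn.choose_spec
    have hcM : ∀ n ∈ E, c n < n ∧ al n ≤ 2 ^ al (c n) := by
      intro n hn
      obtain ⟨h1, h2, h3⟩ := hc n hn
      constructor
      · conv_rhs => rw [h3]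
        exact hM1 _ h1 h2
      · have := hM2 _ h1 h2
        rwa [← h3] at this
    choose g hg1 hg2 using exists_pow hSL
    refine ⟨D, c, M, hD', ?_, ?_, ?_, ?_, ?_, fun hgch => ?_⟩
    · filter_upwards [hED] with n hn using hcM n hn
    · filter_upwards [hED, hD' n0] with n hn h0 using ⟨hM1 n h0 (hEA n hn), hM2 n h0 (hEA n hn)⟩
    · refine SC_of_mem hA hD' hED (fun n hn => (hc n hn).2.1) fun i => ?_
      refine (Set.finite_le_nat (g i)).subset ?_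
      rintro n ⟨hn, rfl⟩
      have := (hcM n hn).2
      rwa [hg1, al_le] at this
    · refine SC_of_mem hA hD' hED hEA fun i => ?_
      exact (Set.finite_singleton i).subset fun n hn => hn.2
    · refine SC_of_mem hA hD' (E := {n | n ∈ E ∧ n0 ≤ n}) ?_
        (fun n hn => hM3 n hn.2 (hEA n hn.1)) fun i => ?_
      · filter_upwards [hED, hD' n0] with n h1 h2 using ⟨h1, h2⟩
      · refine (Set.finite_lt_nat i).subset ?_
        rintro n ⟨hn, rfl⟩
        exact hM1 n hn.2 (hEA n hn.1)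
    · obtain ⟨n1, hn1⟩ := eventually_atTop.1 (hd.pred_closed hA)
      refine SC_of_mem hA hD' (E := {n | n - 1 ∈ A ∧ 1 ≤ n}) ?_ (fun n hn => hn.1) fun i => ?_
      · filter_upwards [hED, hgch, hD' (n1 + 1)] with n h1 h2 h3
        have h4 : n = n - 1 + 1 := by omega
        refine ⟨hn1 (n - 1) (by omega) ?_ ?_, by omega⟩
        · rw [← h4]; exact hEA n h1
        · rw [← h4]; exact h2
      · refine (Set.finite_le_nat (i + 1)).subset ?_
        rintro n ⟨hn, rfl⟩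
        show n ≤ n - 1 + 1
        omega
  · -- the complete case
    push Not at hDI
    obtain ⟨m0, hm0⟩ := hDI
    obtain ⟨J, π, k, p, hF, hk, hp, hstrong, hcomp⟩ := exists_structure hSL hα hU hm0
    have hns : NS U (fun x => k (π x)) := hk
    have hL : Lev U B (fun x => k (π x)) p := ⟨hB, hbase, hBc, hk, hp,
      fun f hf => hstrong (fun j => f (k j)) (fun j => hf _)⟩
    have hab := hL.exists_above hSL hA
    let m : ℕ → ℕ := fun n => if h : ∃ m, n < m ∧ al m ≤ 2 ^ al n ∧ m ∈ A then h.choose else 0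
    have hm : ∀ n, (∃ m, n < m ∧ al m ≤ 2 ^ al n ∧ m ∈ A) →
        n < m n ∧ al (m n) ≤ 2 ^ al n ∧ m n ∈ A := by
      intro n h
      simp only [m, dif_pos h]
      exact h.choose_spec
    have hD' : ∀ i, ∀ᶠ n in ((U.map fun x => k (π x) : Ultrafilter ℕ) : Filter ℕ), i ≤ n := hk
    have hab' : ∀ᶠ n in ((U.map fun x => k (π x) : Ultrafilter ℕ) : Filter ℕ),
        ∃ m, n < m ∧ al m ≤ 2 ^ al n ∧ m ∈ A := hab
    refine ⟨U.map fun x => k (π x), lg, m, hD', ?_, ?_, ?_, ?_, ?_, fun hgch => ?_⟩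
    · filter_upwards [hD' 1] with n hn using ⟨lg_lt hn, lg_spec n⟩
    · filter_upwards [hab'] with n hn using ⟨(hm n hn).1, (hm n hn).2.1⟩
    · obtain ⟨F, hF1, hF2⟩ := exists_below hSL hB hbase hF.small hns hp hstrong hcomp
      exact ⟨B, F, hBc, hF1, fun f hf => by
        obtain ⟨b, hb⟩ := hF2 f hf
        exact ⟨b, hb⟩⟩
    · obtain ⟨F, hF1, hF2⟩ := hL.cof_level
      exact ⟨B, F, hBc, hF1, fun f hf => by
        obtain ⟨b, hb⟩ := hF2 f hf
        exact ⟨b, hb⟩⟩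
    · refine SC_of_mem hA hD' hab' (fun n hn => (hm n hn).2.2) fun i => ?_
      refine (Set.finite_lt_nat i).subset ?_
      rintro n ⟨hn, rfl⟩
      exact (hm n hn).1
    · have hgch' : ∀ᶠ x in (U : Filter α),
          (2 : Cardinal.{0}) ^ al (k (π x) - 1) = al (k (π x)) := hgch
      obtain ⟨F, hF1, hF2⟩ := hL.pred_level hgch'
      refine ⟨B, fun b n => F b (n - 1), hBc, fun b n => hF1 b _, fun f hf => ?_⟩
      obtain ⟨b, hb⟩ := hF2 (fun l => f (l + 1)) (fun l => by simpa using hf (l + 1))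
      refine ⟨b, ?_⟩
      have h1 : ∀ᶠ x in (U : Filter α), f (k (π x)) ≤ F b (k (π x) - 1) := by
        filter_upwards [hb, hk 1] with x h2 h3
        have h4 : k (π x) - 1 + 1 = k (π x) := by omega
        rw [h4] at h2
        exact h2
      exact h1

end

end Run7.h121
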